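import Pool.Agent.TAD.Targets

set_option autoImplicit false

open scoped Classical

namespace Pool.Agent.TAD

/-- The partition of a set of primes into classes of small mass. -/
theorem p_CLS : T_CLS := by
  intro θ M hθ hM
  refine ⟨⌊M / θ⌋₊ + 1, by omega, ?_⟩
  intro P hP hsum
  obtain ⟨s, hs⟩ : ∃ s : ℕ → ℝ, ∀ p, s p = ∑ q ∈ P.filter (fun q => q < p), (1 / q : ℝ) :=
    ⟨_, fun _ => rfl⟩
  have hnn : ∀ q : ℕ, (0 : ℝ) ≤ 1 / q := fun q => by positivity
  have hs0 : ∀ p, 0 ≤ s p := fun p => by
    rw [hs]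
    exact Finset.sum_nonneg (fun q _ => hnn q)
  refine ⟨fun p => ⌊s p / θ⌋₊, ?_, ?_⟩
  · intro p _
    have h1 : s p ≤ M := by
      rw [hs]
      exact (Finset.sum_le_sum_of_subset_of_nonneg (Finset.filter_subset _ _)
        (fun q _ _ => hnn q)).trans hsum
    exact Nat.lt_succ_of_le (Nat.floor_le_floor (div_le_div_of_nonneg_right h1 hθ.le))
  · intro k
    rcases (P.filter (fun p => ⌊s p / θ⌋₊ = k)).eq_empty_or_nonempty with h | h
    · rw [h, Finset.sum_empty]
      linarith
    · obtain ⟨p1, hp1, hmax⟩ := (P.filter (fun p => ⌊s p / θ⌋₊ = k)).exists_max_image id h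
      obtain ⟨p0, hp0, hmin⟩ := (P.filter (fun p => ⌊s p / θ⌋₊ = k)).exists_min_image id h
      have h1 := Finset.mem_filter.1 hp1
      have h0 := Finset.mem_filter.1 hp0
      have e1 : s p1 < (k + 1) * θ := by
        have h2 := Nat.lt_floor_add_one (s p1 / θ)
        rw [h1.2] at h2
        exact (div_lt_iff₀ hθ).1 h2
      have e0 : k * θ ≤ s p0 := by
        have h2 := Nat.floor_le (div_nonneg (hs0 p0) hθ.le)
        rw [h0.2] at h2
        exact (le_div_iff₀ hθ).1 h2
      have hle : p0 ≤ p1 := hmin p1 hp1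
      have e2 : ∑ p ∈ P.filter (fun p => ⌊s p / θ⌋₊ = k), (1 / p : ℝ) + s p0 ≤ s p1 + 1 / p1 := by
        have hd1 : Disjoint (P.filter (fun p => ⌊s p / θ⌋₊ = k)) (P.filter (fun q => q < p0)) := by
          rw [Finset.disjoint_left]
          intro q hq hq2
          have h3 : p0 ≤ q := hmin q hq
          have h4 := (Finset.mem_filter.1 hq2).2
          omega
        have hd2 : Disjoint (P.filter (fun q => q < p1)) {p1} := by
          rw [Finset.disjoint_singleton_right, Finset.mem_filter]
          intro h3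
          exact lt_irrefl _ h3.2
        have e3 : s p1 + 1 / p1 = ∑ q ∈ P.filter (fun q => q < p1) ∪ {p1}, (1 / q : ℝ) := by
          rw [Finset.sum_union hd2, hs, Finset.sum_singleton]
        rw [e3, hs p0, ← Finset.sum_union hd1]
        refine Finset.sum_le_sum_of_subset_of_nonneg ?_ (fun q _ _ => hnn q)
        intro q hq
        rw [Finset.mem_union] at hq
        rw [Finset.mem_union, Finset.mem_singleton, Finset.mem_filter]
        rcases hq with hq | hq
        · have h3 : q ≤ p1 := hmax q hq
          have h4 := (Finset.mem_filter.1 hq).1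
          rcases lt_or_eq_of_le h3 with h5 | h5
          · exact Or.inl ⟨h4, h5⟩
          · exact Or.inr h5
        · have h3 := Finset.mem_filter.1 hq
          exact Or.inl ⟨h3.1, by omega⟩
      have e4 : (1 / p1 : ℝ) ≤ θ := (hP p1 h1.1).2
      nlinarith

end Pool.Agent.TAD
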