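import Pool.Agent.TAD.Targets
import Pool.Agent.EllRand.TK

set_option autoImplicit false

open scoped Classical

noncomputable section

namespace Pool.Agent.TAD

open Finset

namespace CNT_

theorem cnt_d (N d c : ℕ) (hd : 0 < d) :
    (#((Icc 1 N).filter (fun n => d ∣ n + c)) : ℝ) ≤ N / d + 1 := by
  have h := Pool.Agent.EllRand.cnt_le 1 c d N hd (Nat.coprime_one_left d)
  refine le_trans (Nat.cast_le.mpr (card_le_card ?_)) h
  intro m hm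
  rw [mem_filter] at hm ⊢
  refine ⟨hm.1, ?_⟩
  have := hm.2
  have h2 : (d : ℤ) ∣ ((m + c : ℕ) : ℤ) := by exact_mod_cast this
  push_cast at h2 ⊢
  simpa using h2

theorem small (N : ℕ) (δ : ℝ) (hδ : 0 < δ) :
    (#((Icc 1 N).filter (fun n : ℕ => (n : ℝ) < δ * N)) : ℝ) ≤ δ * N := by
  have h0 : 0 ≤ δ * N := by positivity
  have h1 : (Icc 1 N).filter (fun n : ℕ => (n : ℝ) < δ * N) ⊆ Icc 1 ⌊δ * N⌋₊ := by
    intro n hn
    rw [mem_filter, mem_Icc] at hn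
    rw [mem_Icc]
    exact ⟨hn.1.1, Nat.le_floor hn.2.le⟩
  have h2 := card_le_card h1
  rw [Nat.card_Icc, Nat.add_sub_cancel] at h2
  calc (#((Icc 1 N).filter (fun n : ℕ => (n : ℝ) < δ * N)) : ℝ) ≤ (⌊δ * N⌋₊ : ℝ) := by
        exact_mod_cast h2
    _ ≤ δ * N := Nat.floor_le h0

theorem nodiv (N y : ℕ) (L : ℝ) (P : Finset ℕ) (c : ℕ) (hy : y ^ 2 ≤ N) (hL1 : 1 ≤ L)
    (hP : ∀ p ∈ P, p.Prime ∧ p ≤ y) (hL : L ≤ ∑ p ∈ P, (1 / p : ℝ)) :
    (#((Icc 1 N).filter (fun n => ¬ ∃ p ∈ P, p ∣ n + c)) : ℝ) ≤ 4 / L * N := by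
  set L' : ℝ := ∑ p ∈ P, (1 / p : ℝ) with hL'
  have hL'1 : 1 ≤ L' := hL1.trans hL
  have hL'0 : 0 < L' := by linarith
  have h := Pool.Agent.EllRand.tk P (fun _ => 1) 1 c y N L'
    (fun l hl => ⟨(hP l hl).1, (hP l hl).2, Nat.coprime_one_left l⟩)
    (fun _ => ⟨zero_le_one, le_rfl⟩) hy hL'
  have h1 : (#((Icc 1 N).filter (fun n => ¬ ∃ p ∈ P, p ∣ n + c)) : ℝ) * L' ^ 2 ≤
      (3 * L' + 1) * N := by
    refine le_trans ?_ h
    calc (#((Icc 1 N).filter (fun n => ¬ ∃ p ∈ P, p ∣ n + c)) : ℝ) * L' ^ 2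
        = ∑ m ∈ (Icc 1 N).filter (fun n => ¬ ∃ p ∈ P, p ∣ n + c), L' ^ 2 := by
          rw [sum_const, nsmul_eq_mul]
      _ ≤ ∑ m ∈ (Icc 1 N).filter (fun n => ¬ ∃ p ∈ P, p ∣ n + c),
          (Pool.Agent.EllRand.Wt P (fun _ => 1) 1 c m - L') ^ 2 := by
          refine sum_le_sum fun m hm => ?_
          rw [mem_filter] at hm
          have h0 : Pool.Agent.EllRand.Wt P (fun _ => 1) 1 c m = 0 := by
            unfold Pool.Agent.EllRand.Wt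
            refine sum_eq_zero fun l hl => ?_
            rw [if_neg, mul_zero]
            intro h3
            apply hm.2
            refine ⟨l, hl, ?_⟩
            have : (l : ℤ) ∣ ((m + c : ℕ) : ℤ) := by
              push_cast at h3 ⊢
              simpa using h3
            exact_mod_cast this
          rw [h0]
          nlinarith
      _ ≤ _ := by
          refine sum_le_sum_of_subset_of_nonneg (filter_subset _ _) fun _ _ _ => sq_nonneg _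
  have hN : (0 : ℝ) ≤ N := Nat.cast_nonneg N
  have h2 : (#((Icc 1 N).filter (fun n => ¬ ∃ p ∈ P, p ∣ n + c)) : ℝ) ≤ 4 / L' * N := by
    rw [div_mul_eq_mul_div, le_div_iff₀ hL'0]
    have h3 : (#((Icc 1 N).filter (fun n => ¬ ∃ p ∈ P, p ∣ n + c)) : ℝ) * L' * L' ≤
        4 * N * L' := by nlinarith
    exact le_of_mul_le_mul_right h3 hL'0
  refine h2.trans ?_
  apply mul_le_mul_of_nonneg_right _ hN
  exact div_le_div_of_nonneg_left (by norm_num) (by linarith) hL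

theorem card_le_y (y : ℕ) (P : Finset ℕ) (hP : ∀ p ∈ P, p.Prime ∧ p ≤ y) : #P ≤ y := by
  have : P ⊆ Icc 1 y := by
    intro l hl
    rw [mem_Icc]
    exact ⟨(hP l hl).1.pos, (hP l hl).2⟩
  have := card_le_card this
  rwa [Nat.card_Icc, Nat.add_sub_cancel] at this

theorem pairs (N y : ℕ) (θ L : ℝ) (P : Finset ℕ) (cl : ℕ → ℕ) (c : ℕ) (hθ : 0 < θ)
    (hP : ∀ p ∈ P, p.Prime ∧ p ≤ y) (hL : ∑ p ∈ P, (1 / p : ℝ) ≤ L + 1)
    (hcl : ∀ k, ∑ p ∈ P.filter (fun p => cl p = k), (1 / p : ℝ) ≤ 2 * θ) :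
    (#((Icc 1 N).filter (fun n => ∃ p ∈ P, ∃ p' ∈ P, cl p = cl p' ∧ p * p' ∣ n + c)) : ℝ) ≤
      2 * θ * (L + 1) * N + y ^ 2 := by
  have hN : (0 : ℝ) ≤ N := Nat.cast_nonneg N
  set S := (P ×ˢ P).filter (fun q => cl q.2 = cl q.1) with hS
  have h1 : (Icc 1 N).filter (fun n => ∃ p ∈ P, ∃ p' ∈ P, cl p = cl p' ∧ p * p' ∣ n + c) ⊆
      S.biUnion (fun q => (Icc 1 N).filter (fun n => q.1 * q.2 ∣ n + c)) := by
    intro n hn
    rw [mem_filter] at hn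
    obtain ⟨hn1, p, hp, p', hp', hc, hd⟩ := hn
    rw [mem_biUnion]
    refine ⟨(p, p'), ?_, ?_⟩
    · rw [hS, mem_filter, mem_product]
      exact ⟨⟨hp, hp'⟩, hc.symm⟩
    · rw [mem_filter]
      exact ⟨hn1, hd⟩
  have hSP : ∀ q ∈ S, q.1 ∈ P ∧ q.2 ∈ P := by
    intro q hq
    rw [hS, mem_filter, mem_product] at hq
    exact hq.1
  have h2 : (#((Icc 1 N).filter (fun n => ∃ p ∈ P, ∃ p' ∈ P, cl p = cl p' ∧ p * p' ∣ n + c)) : ℝ)
      ≤ ∑ q ∈ S, ((N : ℝ) * ((1 / q.1) * (1 / q.2)) + 1) := by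
    calc (#((Icc 1 N).filter (fun n => ∃ p ∈ P, ∃ p' ∈ P, cl p = cl p' ∧ p * p' ∣ n + c)) : ℝ)
        ≤ ((∑ q ∈ S, #((Icc 1 N).filter (fun n => q.1 * q.2 ∣ n + c)) : ℕ) : ℝ) := by
          exact_mod_cast (card_le_card h1).trans card_biUnion_le
      _ = ∑ q ∈ S, (#((Icc 1 N).filter (fun n => q.1 * q.2 ∣ n + c)) : ℝ) := by push_cast; rfl
      _ ≤ _ := by
          refine sum_le_sum fun q hq => ?_
          have h3 := hSP q hq
          have h4 := cnt_d N (q.1 * q.2) c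
            (Nat.mul_pos (hP _ h3.1).1.pos (hP _ h3.2).1.pos)
          refine h4.trans (le_of_eq ?_)
          push_cast
          rw [one_div_mul_one_div, mul_one_div]
  have h3 : ∑ q ∈ S, ((1 / q.1 : ℝ) * (1 / q.2)) ≤ (L + 1) * (2 * θ) := by
    rw [hS, sum_filter, sum_product]
    calc ∑ x ∈ P, ∑ x' ∈ P, (if cl x' = cl x then ((1 / x : ℝ) * (1 / x')) else 0)
        = ∑ x ∈ P, (1 / x : ℝ) * ∑ x' ∈ P.filter (fun p => cl p = cl x), (1 / x' : ℝ) := by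
          refine sum_congr rfl fun x _ => ?_
          rw [mul_sum, sum_filter]
      _ ≤ ∑ x ∈ P, (1 / x : ℝ) * (2 * θ) := by
          refine sum_le_sum fun x _ => ?_
          exact mul_le_mul_of_nonneg_left (hcl _) (by positivity)
      _ = (∑ x ∈ P, (1 / x : ℝ)) * (2 * θ) := by rw [sum_mul]
      _ ≤ _ := mul_le_mul_of_nonneg_right hL (by linarith)
  have h4 : (#S : ℝ) ≤ y ^ 2 := by
    have h5 : #S ≤ #P * #P := by
      rw [← card_product]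
      exact card_le_card (filter_subset _ _)
    have h6 := card_le_y y P hP
    have h7 : #S ≤ y ^ 2 := by
      rw [sq]
      exact h5.trans (Nat.mul_le_mul h6 h6)
    exact_mod_cast h7
  refine h2.trans ?_
  rw [sum_add_distrib, ← mul_sum, sum_const, nsmul_eq_mul, mul_one]
  have h5 := mul_le_mul_of_nonneg_left h3 hN
  linarith

theorem sqs (N y Z : ℕ) (R : Finset ℕ) (c : ℕ) (hZ : 1 ≤ Z)
    (hR : ∀ r ∈ R, r.Prime ∧ r ≤ y ∧ Z < r) :
    (#((Icc 1 N).filter (fun n => ∃ r ∈ R, r * r ∣ n + c)) : ℝ) ≤ 1 / Z * N + y := by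
  have hN : (0 : ℝ) ≤ N := Nat.cast_nonneg N
  have hZ0 : (0 : ℝ) < Z := by exact_mod_cast hZ
  have h1 : (Icc 1 N).filter (fun n => ∃ r ∈ R, r * r ∣ n + c) ⊆
      R.biUnion (fun r => (Icc 1 N).filter (fun n => r * r ∣ n + c)) := by
    intro n hn
    rw [mem_filter] at hn
    obtain ⟨hn1, r, hr, hd⟩ := hn
    rw [mem_biUnion]
    refine ⟨r, hr, ?_⟩
    rw [mem_filter]
    exact ⟨hn1, hd⟩
  have h2 : (#((Icc 1 N).filter (fun n => ∃ r ∈ R, r * r ∣ n + c)) : ℝ)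
      ≤ ∑ r ∈ R, ((N : ℝ) * ((r : ℝ) ^ 2)⁻¹ + 1) := by
    calc (#((Icc 1 N).filter (fun n => ∃ r ∈ R, r * r ∣ n + c)) : ℝ)
        ≤ ((∑ r ∈ R, #((Icc 1 N).filter (fun n => r * r ∣ n + c)) : ℕ) : ℝ) := by
          exact_mod_cast (card_le_card h1).trans card_biUnion_le
      _ = ∑ r ∈ R, (#((Icc 1 N).filter (fun n => r * r ∣ n + c)) : ℝ) := by push_cast; rfl
      _ ≤ _ := by
          refine sum_le_sum fun r hr => ?_
          have h4 := cnt_d N (r * r) c (Nat.mul_pos (hR _ hr).1.pos (hR _ hr).1.pos)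
          refine h4.trans (le_of_eq ?_)
          push_cast
          rw [div_eq_mul_inv, sq]
  have h3 : ∑ r ∈ R, ((r : ℝ) ^ 2)⁻¹ ≤ 1 / Z := by
    rcases R.eq_empty_or_nonempty with rfl | ⟨r0, hr0⟩
    · simp
    · have hZy : Z ≤ y := by
        have := hR r0 hr0
        omega
      have h5 : R ⊆ Ioc Z y := by
        intro r hr
        rw [mem_Ioc]
        exact ⟨(hR r hr).2.2, (hR r hr).2.1⟩
      calc ∑ r ∈ R, ((r : ℝ) ^ 2)⁻¹ ≤ ∑ r ∈ Ioc Z y, ((r : ℝ) ^ 2)⁻¹ :=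
            sum_le_sum_of_subset_of_nonneg h5 fun _ _ _ => by positivity
        _ ≤ (Z : ℝ)⁻¹ - (y : ℝ)⁻¹ := sum_Ioc_inv_sq_le_sub (by omega) hZy
        _ ≤ 1 / Z := by
            rw [one_div]
            have : (0 : ℝ) ≤ (y : ℝ)⁻¹ := by positivity
            linarith
  have h4 : (#R : ℝ) ≤ y := by
    exact_mod_cast card_le_y y R (fun r hr => ⟨(hR r hr).1, (hR r hr).2.1⟩)
  refine h2.trans ?_
  rw [sum_add_distrib, ← mul_sum, sum_const, nsmul_eq_mul, mul_one]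
  have h5 := mul_le_mul_of_nonneg_left h3 hN
  linarith

end CNT_

theorem p_CNT : T_CNT := by
  intro N y Z δ θ L P R cl h0 h1 h2 hy hyN hZ hδ hθ hL hP hR hL1 hL2 hL3 hcl
  have hR' : ∀ r ∈ R, r.Prime ∧ r ≤ y := fun r hr => ⟨(hR r hr).1, (hR r hr).2.1⟩
  set A1 := (Icc 1 N).filter (fun n : ℕ => (n : ℝ) < δ * N) with hA1
  set A2 := (Icc 1 N).filter (fun n => ¬ ∃ p ∈ P, p ∣ n + h0) with hA2
  set A3 := (Icc 1 N).filter (fun n => ¬ ∃ p ∈ R, p ∣ n + h1) with hA3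
  set A4 := (Icc 1 N).filter (fun n => ¬ ∃ p ∈ R, p ∣ n + h2) with hA4
  set A5 := (Icc 1 N).filter (fun n => ∃ p ∈ P, ∃ p' ∈ P, cl p = cl p' ∧ p * p' ∣ n + h0) with hA5
  set A6 := (Icc 1 N).filter (fun n => ∃ r ∈ R, r * r ∣ n + h1) with hA6
  set A7 := (Icc 1 N).filter (fun n => ∃ r ∈ R, r * r ∣ n + h2) with hA7
  have hsub : Icc 1 N \ Gd N δ P R cl h0 h1 h2 ⊆ A1 ∪ (A2 ∪ (A3 ∪ (A4 ∪ (A5 ∪ (A6 ∪ A7))))) := by
    intro n hn
    rw [mem_sdiff] at hn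
    obtain ⟨hn1, hn2⟩ := hn
    by_contra hcon
    simp only [mem_union, not_or] at hcon
    obtain ⟨c1, c2, c3, c4, c5, c6, c7⟩ := hcon
    apply hn2
    rw [Gd, mem_filter]
    refine ⟨hn1, ?_, ?_, ?_, ?_, ?_, ?_, ?_⟩
    · by_contra h
      exact c1 (mem_filter.mpr ⟨hn1, not_le.mp h⟩)
    · by_contra h
      exact c2 (mem_filter.mpr ⟨hn1, h⟩)
    · by_contra h
      exact c3 (mem_filter.mpr ⟨hn1, h⟩)
    · by_contra h
      exact c4 (mem_filter.mpr ⟨hn1, h⟩)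
    · intro p hp p' hp' hc hd
      exact c5 (mem_filter.mpr ⟨hn1, p, hp, p', hp', hc, hd⟩)
    · intro r hr hd
      exact c6 (mem_filter.mpr ⟨hn1, r, hr, hd⟩)
    · intro r hr hd
      exact c7 (mem_filter.mpr ⟨hn1, r, hr, hd⟩)
  have hcard : (#(Icc 1 N \ Gd N δ P R cl h0 h1 h2) : ℝ) ≤
      #A1 + (#A2 + (#A3 + (#A4 + (#A5 + (#A6 + #A7))))) := by
    have e1 := card_le_card hsub
    have e2 := card_union_le A1 (A2 ∪ (A3 ∪ (A4 ∪ (A5 ∪ (A6 ∪ A7)))))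
    have e3 := card_union_le A2 (A3 ∪ (A4 ∪ (A5 ∪ (A6 ∪ A7))))
    have e4 := card_union_le A3 (A4 ∪ (A5 ∪ (A6 ∪ A7)))
    have e5 := card_union_le A4 (A5 ∪ (A6 ∪ A7))
    have e6 := card_union_le A5 (A6 ∪ A7)
    have e7 := card_union_le A6 A7
    have : #(Icc 1 N \ Gd N δ P R cl h0 h1 h2) ≤
      #A1 + (#A2 + (#A3 + (#A4 + (#A5 + (#A6 + #A7))))) := by omega
    exact_mod_cast this
  have b1 := CNT_.small N δ hδ
  have b2 := CNT_.nodiv N y L P h0 hyN hL hP hL1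
  have b3 := CNT_.nodiv N y L R h1 hyN hL hR' hL3
  have b4 := CNT_.nodiv N y L R h2 hyN hL hR' hL3
  have b5 := CNT_.pairs N y θ L P cl h0 hθ hP hL2 hcl
  have b6 := CNT_.sqs N y Z R h1 hZ hR
  have b7 := CNT_.sqs N y Z R h2 hZ hR
  have hyr : (1 : ℝ) ≤ y := by exact_mod_cast hy
  have e : (δ + 12 / L + 2 * θ * (L + 1) + 2 / Z) * N + 3 * y ^ 2 =
      δ * N + (4 / L * N + 4 / L * N + 4 / L * N) + (2 * θ * (L + 1) * N + y ^ 2) +
        (1 / Z * N + 1 / Z * N) + (2 * y ^ 2 : ℝ) := by ring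
  rw [e]
  have hy2 : (y : ℝ) ≤ y ^ 2 := by nlinarith
  linarith

end Pool.Agent.TAD
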