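import Pool.Agent.TAD.Targets

set_option autoImplicit false

/-!
# TAD, target FIX: ONE applied to Ed
-/

open scoped Classical

noncomputable section

namespace Pool.Agent.TAD

open Finset

namespace FIX_

theorem mn_mem {R : Finset ℕ} {m : ℕ} (h : ∃ r ∈ R, r ∣ m) : mn R m ∈ R := by
  have h1 : mn R m ∈ {p | p ∈ R ∧ p ∣ m} := by
    obtain ⟨r, hr, hd⟩ := h
    exact Nat.sInf_mem ⟨r, hr, hd⟩
  exact h1.1

theorem bi_ge {Q r : ℕ} (hQ : 1 < Q) (h : Q ^ 4 < r) : 4 ≤ bi Q r := by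
  unfold bi
  have := (Nat.lt_clog_iff_pow_lt hQ).2 h
  omega

end FIX_

theorem p_FIX : T_ONE → T_STR → T_FIX := by
  intro hONE hSTR N Y Z Q l δ η P R cl h0 h1 h2 κ i j w hQ hδ hη hN h1N h2N h01 h02 h0Y h1Y h2Y hZ
    hP hR hl hNl hlQ hηQ hw
  have hNr : (0 : ℝ) < N := by exact_mod_cast hN
  have hQr : (0 : ℝ) < Q := by exact_mod_cast (by omega : 0 < Q)
  rcases (Ed N δ P R cl h0 h1 h2 Q κ i j).eq_empty_or_nonempty with hE | ⟨n, hn⟩
  · have h3 : (P.powerset.filter (fun T => ∃ x y : ℕ → ℂ, Bd x ∧ Bd y ∧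
        η * N < ‖∑ n ∈ Ed N δ P R cl h0 h1 h2 Q κ i j, w n * tw T (n + h0) *
          x (cf R (n + h1)) * y (cf R (n + h2))‖)) = ∅ := by
      rw [Finset.filter_eq_empty_iff]
      rintro T _ ⟨x, y, _, _, h4⟩
      rw [hE, Finset.sum_empty, norm_zero] at h4
      have : 0 < η * N := by positivity
      linarith
    rw [h3, Finset.card_empty, Nat.cast_zero]
    positivity
  · obtain ⟨s1, s2, s3, s4, s5, s6, s7⟩ := hSTR N Y Z Q δ P R cl h0 h1 h2 κ i j hQ hδ hN h1N h2N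
      h01 h02 h0Y h1Y h2Y hZ (fun p hp => ⟨(hP p hp).1, (hP p hp).2.1⟩)
      (fun r hr => ⟨(hR r hr).1, (hR r hr).2.2⟩)
    have hnE := hn
    unfold Ed at hnE
    rw [Finset.mem_filter] at hnE
    obtain ⟨hnG, _, hni, hnj⟩ := hnE
    unfold Gd at hnG
    rw [Finset.mem_filter] at hnG
    obtain ⟨_, _, _, hr1, hr2, _⟩ := hnG
    have hi : 4 ≤ i := by
      rw [← hni]
      exact FIX_.bi_ge hQ (hR _ (FIX_.mn_mem hr1)).2.1
    have hj : 4 ≤ j := by
      rw [← hnj]
      exact FIX_.bi_ge hQ (hR _ (FIX_.mn_mem hr2)).2.1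
    have hsub : Ed N δ P R cl h0 h1 h2 Q κ i j ⊆ Icc 1 N := by
      unfold Ed Gd
      exact (Finset.filter_subset _ _).trans (Finset.filter_subset _ _)
    generalize hEd : Ed N δ P R cl h0 h1 h2 Q κ i j = E at s1 s2 s3 s4 s5 s6 s7 hsub ⊢
    have hQi : Q ^ 4 ≤ Q ^ i := Nat.pow_le_pow_right (by omega) hi
    have hQj : Q ^ 4 ≤ Q ^ j := Nat.pow_le_pow_right (by omega) hj
    have hQ4 : 16 ≤ Q ^ 4 := by
      calc 16 = 2 ^ 4 := by norm_num
        _ ≤ Q ^ 4 := Nat.pow_le_pow_left (by omega) 4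
    refine hONE N Y h0 l (Q ^ (max i j + 1)) P (P.filter (fun p => cl p = κ)) E
      (fun n => mn P (n + h0)) (fun n => cf R (n + h1)) (fun n => cf R (n + h2)) w η hη (by omega)
      hN hl hP (Finset.filter_subset _ _) hsub (fun n _ => hw n) s1 s2 s3 (fun n hn => ?_)
      (fun n hn => ?_) ?_ ?_
    · exact (s4 n hn).trans (Nat.pow_le_pow_right (by omega) (by omega))
    · exact (s5 n hn).trans (Nat.pow_le_pow_right (by omega) (by omega))
    · have t1 : #(E.image (fun n => cf R (n + h1))) * 16 ≤ 2 * N :=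
        (Nat.mul_le_mul_left _ (hQ4.trans hQi)).trans s6
      have t2 : #(E.image (fun n => cf R (n + h2))) * 16 ≤ 2 * N :=
        (Nat.mul_le_mul_left _ (hQ4.trans hQj)).trans s7
      have t3 : (2 : ℕ) ^ l ≤ 4 ^ l := Nat.pow_le_pow_left (by norm_num) l
      omega
    · generalize hB : #(E.image (fun n => cf R (n + h1))) = B at s6 ⊢
      generalize hC : #(E.image (fun n => cf R (n + h2))) = C at s7 ⊢
      have hmm : max i j + min i j = i + j := max_add_min i j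
      have hmin : 4 ≤ min i j := le_min hi hj
      have k1 : B * C * Q ^ (i + j) ≤ 4 * N ^ 2 := by
        calc B * C * Q ^ (i + j) = (B * Q ^ i) * (C * Q ^ j) := by rw [pow_add]; ring
          _ ≤ (2 * N) * (2 * N) := Nat.mul_le_mul s6 s7
          _ = 4 * N ^ 2 := by ring
      have k2 : 2 * l * Q ^ (max i j + 1) * B * C * Q ^ 2 ≤ 8 * N ^ 2 := by
        calc 2 * l * Q ^ (max i j + 1) * B * C * Q ^ 2
            ≤ 2 * Q * Q ^ (max i j + 1) * B * C * Q ^ 2 := by gcongr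
          _ = 2 * (B * C * Q ^ (max i j + 4)) := by ring
          _ ≤ 2 * (B * C * Q ^ (i + j)) := by
            have : Q ^ (max i j + 4) ≤ Q ^ (i + j) := Nat.pow_le_pow_right (by omega) (by omega)
            gcongr
          _ ≤ 2 * (4 * N ^ 2) := Nat.mul_le_mul_left 2 k1
          _ = 8 * N ^ 2 := by ring
      have k3 : (2 * l * (Q ^ (max i j + 1) : ℕ) * B * C * Q ^ 2 : ℝ) ≤ 8 * N ^ 2 := by
        exact_mod_cast k2
      have k4 : Real.sqrt (2 * l * (Q ^ (max i j + 1) : ℕ) * B * C) ≤ 3 * N / Q := by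
        rw [Real.sqrt_le_iff]
        refine ⟨by positivity, ?_⟩
        rw [div_pow, le_div_iff₀ (by positivity)]
        nlinarith [sq_nonneg (N : ℝ)]
      have k5 : (12 : ℝ) ≤ η * Q := by
        rw [div_le_iff₀ hη] at hηQ
        linarith
      calc 2 * Real.sqrt (2 * l * (Q ^ (max i j + 1) : ℕ) * B * C) ≤ 2 * (3 * N / Q) := by gcongr
        _ = 6 * N / Q := by ring
        _ ≤ η * N / 2 := by
          rw [div_le_div_iff₀ hQr (by norm_num)]
          nlinarith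

end Pool.Agent.TAD
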