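import Pool.Agent.TAD.Targets

set_option autoImplicit false

/-!
# TAD, target GMAM: a trace inequality for three hermitian matrices
-/

open scoped Classical

noncomputable section

namespace Pool.Agent.TAD

open Finset

namespace GMAM_

theorem pow_eq {V : Type} [Fintype V] [DecidableEq V] {A : Matrix V V ℂ} (hA : A.IsHermitian)
    (q : ℕ) : A ^ q = (hA.eigenvectorUnitary : Matrix V V ℂ) *
      Matrix.diagonal (fun i => ((hA.eigenvalues i : ℝ) : ℂ) ^ q) *
        star (hA.eigenvectorUnitary : Matrix V V ℂ) := by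
  conv_lhs => rw [hA.spectral_theorem]
  rw [← map_pow, Unitary.conjStarAlgAut_apply, Matrix.diagonal_pow]
  rfl

/-- the trace as a double sum -/
theorem tr_eq {V : Type} [Fintype V] [DecidableEq V] (W : Matrix V V ℂ) (a b : V → ℂ) :
    Matrix.trace (W.conjTranspose * Matrix.diagonal a * W * Matrix.diagonal b) =
      ∑ i, ∑ j, a i * b j * ((‖W i j‖ ^ 2 : ℝ) : ℂ) := by
  rw [Finset.sum_comm]
  unfold Matrix.trace
  apply Finset.sum_congr rfl
  intro j _
  rw [Matrix.diag_apply, Matrix.mul_diagonal, Matrix.mul_apply, Finset.sum_mul]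
  apply Finset.sum_congr rfl
  intro i _
  rw [Matrix.mul_diagonal, Matrix.conjTranspose_apply]
  have h : star (W i j) * W i j = ((‖W i j‖ ^ 2 : ℝ) : ℂ) := by
    rw [Complex.star_def, ← Complex.normSq_eq_conj_mul_self, Complex.normSq_eq_norm_sq]
  rw [← h]
  ring

theorem cyc {V : Type} [Fintype V] [DecidableEq V] (X U U' W W' D E : Matrix V V ℂ) :
    Matrix.trace (X * (U * D * U') * X * (W * E * W')) =
      Matrix.trace ((W' * X * U) * D * (U' * X * W) * E) := by
  have h1 : X * (U * D * U') * X * (W * E * W') = (X * (U * D * U') * X * W * E) * W' := by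
    simp only [Matrix.mul_assoc]
  have h2 : (W' * X * U) * D * (U' * X * W) * E = W' * (X * (U * D * U') * X * W * E) := by
    simp only [Matrix.mul_assoc]
  rw [h1, h2, Matrix.trace_mul_comm]

theorem real_ineq (x y : ℝ) (q s : ℕ) (h : Even (q + s)) :
    x ^ q * y ^ s + x ^ s * y ^ q ≤ x ^ (q + s) + y ^ (q + s) := by
  have key : 0 ≤ (x ^ q - y ^ q) * (x ^ s - y ^ s) := by
    rcases Nat.even_or_odd q with hq | hq
    · have hs : Even s := by
        rw [Nat.even_add] at h
        exact h.1 hq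
      rw [← hq.pow_abs x, ← hq.pow_abs y, ← hs.pow_abs x, ← hs.pow_abs y]
      rcases le_total |x| |y| with hxy | hxy
      · exact mul_nonneg_of_nonpos_of_nonpos
          (sub_nonpos.2 (pow_le_pow_left₀ (abs_nonneg x) hxy q))
          (sub_nonpos.2 (pow_le_pow_left₀ (abs_nonneg x) hxy s))
      · exact mul_nonneg (sub_nonneg.2 (pow_le_pow_left₀ (abs_nonneg y) hxy q))
          (sub_nonneg.2 (pow_le_pow_left₀ (abs_nonneg y) hxy s))
    · have hs : Odd s := by
        rw [← Nat.not_even_iff_odd] at hq ⊢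
        intro h2
        rw [Nat.even_add] at h
        exact hq (h.2 h2)
      rcases le_total x y with hxy | hxy
      · exact mul_nonneg_of_nonpos_of_nonpos (sub_nonpos.2 (hq.strictMono_pow.monotone hxy))
          (sub_nonpos.2 (hs.strictMono_pow.monotone hxy))
      · exact mul_nonneg (sub_nonneg.2 (hq.strictMono_pow.monotone hxy))
          (sub_nonneg.2 (hs.strictMono_pow.monotone hxy))
  rw [pow_add, pow_add]
  nlinarith

end GMAM_

theorem p_GMAM : T_GMAM := by
  intro V _ _ X A B hX hA hB q s hqs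
  have hX' : X.conjTranspose = X := hX
  set U : Matrix V V ℂ := (hA.eigenvectorUnitary : Matrix V V ℂ) with hU
  set W : Matrix V V ℂ := (hB.eigenvectorUnitary : Matrix V V ℂ) with hW
  have hAp := GMAM_.pow_eq hA
  have hBp := GMAM_.pow_eq hB
  rw [← hU] at hAp
  rw [← hW] at hBp
  have hct : star W * X * U = (star U * X * W).conjTranspose := by
    rw [Matrix.conjTranspose_mul, Matrix.conjTranspose_mul, hX']
    rw [Matrix.star_eq_conjTranspose, Matrix.star_eq_conjTranspose, Matrix.conjTranspose_conjTranspose,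
      Matrix.mul_assoc]
  have h1 : ∀ k l : ℕ, (Matrix.trace (X * A ^ k * X * B ^ l)).re =
      ∑ i, ∑ j, hA.eigenvalues i ^ k * hB.eigenvalues j ^ l * ‖(star U * X * W) i j‖ ^ 2 := by
    intro k l
    rw [hAp k, hBp l, GMAM_.cyc, hct, GMAM_.tr_eq]
    rw [Complex.re_sum]
    apply Finset.sum_congr rfl
    intro i _
    rw [Complex.re_sum]
    apply Finset.sum_congr rfl
    intro j _
    norm_cast
  have h2 : ∀ k : ℕ, Matrix.trace (X * X * A ^ k) = Matrix.trace (X * A ^ k * X * B ^ 0) := by
    intro k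
    rw [pow_zero, Matrix.mul_one, Matrix.trace_mul_comm (X * A ^ k) X, Matrix.mul_assoc]
  have h3 : ∀ k : ℕ, Matrix.trace (X * X * B ^ k) = Matrix.trace (X * A ^ 0 * X * B ^ k) := by
    intro k
    rw [pow_zero, Matrix.mul_one]
  rw [h2, h3, h1, h1, h1, h1, ← Finset.sum_add_distrib, ← Finset.sum_add_distrib]
  apply Finset.sum_le_sum
  intro i _
  rw [← Finset.sum_add_distrib, ← Finset.sum_add_distrib]
  apply Finset.sum_le_sum
  intro j _
  have h4 := GMAM_.real_ineq (hA.eigenvalues i) (hB.eigenvalues j) q s hqs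
  have h5 : 0 ≤ ‖(star U * X * W) i j‖ ^ 2 := sq_nonneg _
  rw [pow_zero, pow_zero, mul_one, one_mul, ← add_mul, ← add_mul]
  exact mul_le_mul_of_nonneg_right h4 h5

end Pool.Agent.TAD
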