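import Pool.Agent.TAD.Targets
import Pool.Agent.Ell.Targets

set_option autoImplicit false

/-!
# MP_f3f922_nt, project TAD: the main theorem for any set of primes with sufficient mass
-/

open scoped Classical

noncomputable section

namespace Pool.Agent.TAD

open Finset

namespace MAIN_

/-- A subset with sum between `L` and `L + 1`. -/
theorem exists_sub (f : ℕ → ℝ) (L : ℝ) (hL : 0 ≤ L) :
    ∀ T : Finset ℕ, (∀ p ∈ T, f p ≤ 1) → L ≤ ∑ p ∈ T, f p →
      ∃ P ⊆ T, L ≤ ∑ p ∈ P, f p ∧ ∑ p ∈ P, f p ≤ L + 1 := by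
  intro T
  induction T using Finset.induction_on with
  | empty =>
    intro _ h
    refine ⟨∅, Finset.Subset.refl _, h, ?_⟩
    simp only [Finset.sum_empty]
    linarith
  | insert a T ha ih =>
    intro h1 h2
    by_cases h : L ≤ ∑ p ∈ T, f p
    · obtain ⟨P, hP, h3⟩ := ih (fun p hp => h1 p (Finset.mem_insert_of_mem hp)) h
      exact ⟨P, hP.trans (Finset.subset_insert a T), h3⟩
    · refine ⟨insert a T, Finset.Subset.refl _, h2, ?_⟩
      rw [Finset.sum_insert ha]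
      have := h1 a (Finset.mem_insert_self a T)
      push Not at h
      linarith

theorem tw_norm (T : Finset ℕ) (m : ℕ) : ‖tw T m‖ = 1 := by
  unfold tw
  rw [norm_prod]
  refine Finset.prod_eq_one fun p _ => ?_
  rw [norm_pow, norm_neg, norm_one, one_pow]

theorem tw_split (T P : Finset ℕ) (m : ℕ) : tw T m = tw (T \ P) m * tw (T ∩ P) m := by
  unfold tw
  rw [← Finset.prod_union (Finset.disjoint_sdiff_inter T P), Finset.sdiff_union_inter]

/-- The primes between `N ^ (1 / 4)` and `N` have bounded mass. -/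
theorem mass_le (C : ℝ) (hM : ∀ y : ℝ, 1 ≤ y →
    ∑ p ∈ (Finset.Iic ⌊y ^ 2⌋₊).filter (fun p : ℕ => p.Prime ∧ y < p), 1 / (p : ℝ) ≤ C)
    (N : ℕ) (hN : 1 ≤ N) (S : Finset ℕ) (hS : ∀ p ∈ S, p.Prime) :
    ∑ p ∈ S.filter (fun p => N < p ^ 4 ∧ p ≤ N), (1 / p : ℝ) ≤ 2 * C := by
  have hN1 : (1 : ℝ) ≤ (N : ℝ) := by exact_mod_cast hN
  have hN0 : (0 : ℝ) ≤ (N : ℝ) := by linarith
  set y1 : ℝ := Real.sqrt N with hy1
  set y2 : ℝ := Real.sqrt y1 with hy2
  have h1 : 1 ≤ y1 := Real.one_le_sqrt.2 hN1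
  have h2 : 1 ≤ y2 := Real.one_le_sqrt.2 h1
  have e1 : y1 ^ 2 = N := Real.sq_sqrt hN0
  have e2 : y2 ^ 2 = y1 := Real.sq_sqrt (by linarith)
  have hsub : S.filter (fun p => N < p ^ 4 ∧ p ≤ N) ⊆
      (Finset.Iic ⌊y1 ^ 2⌋₊).filter (fun p : ℕ => p.Prime ∧ y1 < p) ∪
      (Finset.Iic ⌊y2 ^ 2⌋₊).filter (fun p : ℕ => p.Prime ∧ y2 < p) := by
    intro p hp
    rw [Finset.mem_filter] at hp
    obtain ⟨hpS, hp4, hpN⟩ := hp
    have hpr := hS p hpS
    rw [Finset.mem_union, Finset.mem_filter, Finset.mem_filter, Finset.mem_Iic, Finset.mem_Iic]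
    by_cases h : y1 < p
    · left
      refine ⟨?_, hpr, h⟩
      rw [e1, Nat.floor_natCast]
      exact hpN
    · right
      refine ⟨?_, hpr, ?_⟩
      · rw [e2]
        exact Nat.le_floor (not_lt.1 h)
      · by_contra h'
        have h3 : (p : ℝ) ≤ y2 := not_lt.1 h'
        have h4 : (p : ℝ) ^ 4 ≤ N := by
          calc (p : ℝ) ^ 4 ≤ y2 ^ 4 := pow_le_pow_left₀ (Nat.cast_nonneg p) h3 4
            _ = (y2 ^ 2) ^ 2 := by ring
            _ = N := by rw [e2, e1]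
        have h5 : p ^ 4 ≤ N := by exact_mod_cast h4
        omega
  calc ∑ p ∈ S.filter (fun p => N < p ^ 4 ∧ p ≤ N), (1 / p : ℝ)
      ≤ ∑ p ∈ (Finset.Iic ⌊y1 ^ 2⌋₊).filter (fun p : ℕ => p.Prime ∧ y1 < p) ∪
        (Finset.Iic ⌊y2 ^ 2⌋₊).filter (fun p : ℕ => p.Prime ∧ y2 < p), (1 / p : ℝ) :=
        Finset.sum_le_sum_of_subset_of_nonneg hsub (fun p _ _ => by positivity)
    _ ≤ ∑ p ∈ (Finset.Iic ⌊y1 ^ 2⌋₊).filter (fun p : ℕ => p.Prime ∧ y1 < p), (1 / p : ℝ) +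
        ∑ p ∈ (Finset.Iic ⌊y2 ^ 2⌋₊).filter (fun p : ℕ => p.Prime ∧ y2 < p), (1 / p : ℝ) := by
        rw [← Finset.sum_union_inter]
        have : 0 ≤ ∑ p ∈ (Finset.Iic ⌊y1 ^ 2⌋₊).filter (fun p : ℕ => p.Prime ∧ y1 < p) ∩
          (Finset.Iic ⌊y2 ^ 2⌋₊).filter (fun p : ℕ => p.Prime ∧ y2 < p), (1 / p : ℝ) :=
          Finset.sum_nonneg fun p _ => by positivity
        linarith
    _ ≤ 2 * C := by
        have := hM y1 h1
        have := hM y2 h2
        linarith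

end MAIN_

open MAIN_

/-- MAIN: the theorem for any finite set of primes with sufficient mass. -/
theorem p_MAIN : T_MAIN0 → Pool.Agent.Ell.T_MERT → T_MAIN := by
  intro hM0 hMert h0 h1 h2 ε h01 h02 hε
  obtain ⟨L, c, C, N0, hL, hc, H⟩ := hM0 h0 h1 h2 ε h01 h02 hε
  obtain ⟨Cm, hCm, hMm⟩ := hMert
  refine ⟨L + 2 * Cm, c, C, max N0 1, hc, ?_⟩
  intro N Y S 𝒟 hN hY hS hmass hD hcard
  have hN0 : N0 ≤ N := le_trans (le_max_left _ _) hN
  have hN1 : 1 ≤ N := le_trans (le_max_right _ _) hN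
  -- the mass below `N ^ (1 / 4)`
  have hm1 : L ≤ ∑ p ∈ S.filter (fun p => Y ≤ p ∧ p ^ 4 ≤ N), (1 / p : ℝ) := by
    have hsub : S.filter (fun p => Y ≤ p ∧ p ≤ N) ⊆
        S.filter (fun p => Y ≤ p ∧ p ^ 4 ≤ N) ∪ S.filter (fun p => N < p ^ 4 ∧ p ≤ N) := by
      intro p hp
      rw [Finset.mem_filter] at hp
      rw [Finset.mem_union, Finset.mem_filter, Finset.mem_filter]
      by_cases h : p ^ 4 ≤ N
      · exact Or.inl ⟨hp.1, hp.2.1, h⟩
      · exact Or.inr ⟨hp.1, not_le.1 h, hp.2.2⟩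
    have h3 := mass_le Cm hMm N hN1 S hS
    have h4 : ∑ p ∈ S.filter (fun p => Y ≤ p ∧ p ≤ N), (1 / p : ℝ) ≤
        ∑ p ∈ S.filter (fun p => Y ≤ p ∧ p ^ 4 ≤ N), (1 / p : ℝ) +
        ∑ p ∈ S.filter (fun p => N < p ^ 4 ∧ p ≤ N), (1 / p : ℝ) := by
      refine le_trans (Finset.sum_le_sum_of_subset_of_nonneg hsub (fun p _ _ => by positivity)) ?_
      rw [← Finset.sum_union_inter]
      have : 0 ≤ ∑ p ∈ S.filter (fun p => Y ≤ p ∧ p ^ 4 ≤ N) ∩
          S.filter (fun p => N < p ^ 4 ∧ p ≤ N), (1 / p : ℝ) :=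
        Finset.sum_nonneg fun p _ => by positivity
      linarith
    linarith
  obtain ⟨P, hPsub, hP1, hP2⟩ := exists_sub (fun p => (1 / p : ℝ)) L (by linarith)
    (S.filter (fun p => Y ≤ p ∧ p ^ 4 ≤ N)) (by
      intro p hp
      have hpp := (hS p (Finset.mem_filter.1 hp).1).one_lt
      have : (1 : ℝ) ≤ p := by exact_mod_cast hpp.le
      rw [div_le_one (by linarith)]
      exact this) hm1
  have hPS : P ⊆ S := hPsub.trans (Finset.filter_subset _ _)
  have hPp : ∀ p ∈ P, p.Prime ∧ Y ≤ p ∧ p ^ 4 ≤ N := fun p hp =>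
    ⟨hS p (hPS hp), (Finset.mem_filter.1 (hPsub hp)).2⟩
  set bad : Finset ℕ → Prop := fun T => ∃ D ∈ 𝒟, ∃ u v : ArithmeticFunction ℂ,
    u.IsMultiplicative ∧ v.IsMultiplicative ∧ (∀ n, ‖u n‖ ≤ 1) ∧ (∀ n, ‖v n‖ ≤ 1) ∧
    ε * N < ‖∑ n ∈ Icc 1 N, D n * tw T (n + h0) * u (n + h1) * v (n + h2)‖ with hbad
  -- one fibre
  have hfib : ∀ T2 ∈ (S \ P).powerset,
      (#((S.powerset.filter bad).filter (fun T => T \ P = T2)) : ℝ) ≤
        Real.exp (-(c * Y)) * 2 ^ #P := by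
    intro T2 _
    set D2 : Finset (ℕ → ℂ) := 𝒟.image (fun D n => D n * tw T2 (n + h0)) with hD2
    have hBd : ∀ D ∈ D2, Bd D := by
      intro D' hD'
      obtain ⟨D, hD1, rfl⟩ := Finset.mem_image.1 hD'
      intro m
      show ‖D m * tw T2 (m + h0)‖ ≤ 1
      rw [norm_mul, tw_norm, mul_one]
      exact hD D hD1 m
    have hcard2 : (#D2 : ℝ) ≤ Real.exp (c * Y) :=
      le_trans (by exact_mod_cast Finset.card_image_le) hcard
    refine le_trans ?_ (H N Y P D2 hN0 hY hPp hP1 hP2 hBd hcard2)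
    have hle : #((S.powerset.filter bad).filter (fun T => T \ P = T2)) ≤
        #(P.powerset.filter (fun T => ∃ D ∈ D2, ∃ u v : ArithmeticFunction ℂ,
          u.IsMultiplicative ∧ v.IsMultiplicative ∧ (∀ n, ‖u n‖ ≤ 1) ∧ (∀ n, ‖v n‖ ≤ 1) ∧
          ε * N < ‖∑ n ∈ Icc 1 N, D n * tw T (n + h0) * u (n + h1) * v (n + h2)‖)) := by
      refine Finset.card_le_card_of_injOn (fun T => T ∩ P) ?_ ?_
      · intro T hT
        rw [Finset.mem_coe, Finset.mem_filter, Finset.mem_filter] at hT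
        obtain ⟨⟨_, D, hD1, u, v, hu, hv, hu1, hv1, hlt⟩, hT2⟩ := hT
        rw [Finset.mem_coe, Finset.mem_filter]
        refine ⟨Finset.mem_powerset.2 Finset.inter_subset_right, ?_⟩
        refine ⟨fun n => D n * tw T2 (n + h0), Finset.mem_image.2 ⟨D, hD1, rfl⟩, u, v, hu, hv,
          hu1, hv1, ?_⟩
        have e : ∑ n ∈ Icc 1 N, (fun n => D n * tw T2 (n + h0)) n * tw (T ∩ P) (n + h0) *
            u (n + h1) * v (n + h2) =
            ∑ n ∈ Icc 1 N, D n * tw T (n + h0) * u (n + h1) * v (n + h2) := by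
          refine Finset.sum_congr rfl fun n _ => ?_
          show D n * tw T2 (n + h0) * tw (T ∩ P) (n + h0) * u (n + h1) * v (n + h2) = _
          rw [tw_split T P (n + h0), hT2]
          ring
        rw [e]
        exact hlt
      · intro T hT T' hT' he
        rw [Finset.mem_coe, Finset.mem_filter] at hT hT'
        have he' : T ∩ P = T' ∩ P := he
        rw [← Finset.sdiff_union_inter T P, ← Finset.sdiff_union_inter T' P, hT.2, hT'.2, he']
    exact_mod_cast hle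
  have hsum : #(S.powerset.filter bad) =
      ∑ T2 ∈ (S \ P).powerset, #((S.powerset.filter bad).filter (fun T => T \ P = T2)) := by
    refine Finset.card_eq_sum_card_fiberwise ?_
    intro T hT
    rw [Finset.mem_coe, Finset.mem_filter, Finset.mem_powerset] at hT
    rw [Finset.mem_coe, Finset.mem_powerset]
    exact Finset.sdiff_subset_sdiff hT.1 (Finset.Subset.refl P)
  have hfin : (#(S.powerset.filter bad) : ℝ) ≤ Real.exp (-(c * Y)) * 2 ^ #S := by
    rw [hsum]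
    push_cast
    calc ∑ T2 ∈ (S \ P).powerset, (#((S.powerset.filter bad).filter (fun T => T \ P = T2)) : ℝ)
        ≤ ∑ T2 ∈ (S \ P).powerset, Real.exp (-(c * Y)) * 2 ^ #P := Finset.sum_le_sum hfib
      _ = Real.exp (-(c * Y)) * 2 ^ #S := by
          rw [Finset.sum_const, Finset.card_powerset, nsmul_eq_mul]
          have h5 : #(S \ P) + #P = #S := Finset.card_sdiff_add_card_eq_card hPS
          rw [← h5, pow_add]
          push_cast
          ring
  exact hfin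

end Pool.Agent.TAD
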