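import Pool.Agent.TAD.Targets

set_option autoImplicit false

/-!
# MP_f3f922_nt: assembly of the theorem for primes between `Y` and `N^(1/4)`
-/

open scoped Classical

noncomputable section

namespace Pool.Agent.TAD

open Finset

namespace MAIN0_

/-- powers of the logarithm are small -/
theorem logpow (k : ℕ) (c : ℝ) (hc : 0 < c) :
    ∃ N0 : ℕ, ∀ N : ℕ, N0 ≤ N → (Real.log N) ^ k ≤ c * N := by
  have h := (Real.isLittleO_pow_log_id_atTop (n := k)).bound hc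
  have h2 := (tendsto_natCast_atTop_atTop (R := ℝ)).eventually h
  rw [Filter.eventually_atTop] at h2
  obtain ⟨a, ha⟩ := h2
  refine ⟨a, fun N hN => ?_⟩
  have := ha N hN
  rw [Real.norm_eq_abs, Real.norm_eq_abs] at this
  simp only [id_eq] at this
  calc (Real.log N) ^ k ≤ |(Real.log N) ^ k| := le_abs_self _
    _ ≤ c * |(N : ℝ)| := this
    _ = c * N := by rw [abs_of_nonneg (Nat.cast_nonneg N)]

/-- the logarithm is large -/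
theorem loglarge (b : ℝ) : ∃ N0 : ℕ, ∀ N : ℕ, N0 ≤ N → b ≤ Real.log N := by
  have h := Real.tendsto_log_atTop.comp (tendsto_natCast_atTop_atTop (R := ℝ))
  have h2 := (Filter.tendsto_atTop.mp h) b
  rw [Filter.eventually_atTop] at h2
  obtain ⟨a, ha⟩ := h2
  exact ⟨a, fun N hN => ha N hN⟩

theorem le_sqrt2 (r N : ℕ) (h : r ^ 4 ≤ N) : r ≤ Nat.sqrt (Nat.sqrt N) := by
  rw [Nat.le_sqrt, Nat.le_sqrt]
  calc r * r * (r * r) = r ^ 4 := by ring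
    _ ≤ N := h

theorem sqrt2_pow (N : ℕ) : (Nat.sqrt (Nat.sqrt N)) ^ 2 ≤ Nat.sqrt N := by
  rw [pow_two]
  exact Nat.sqrt_le _

theorem three_sq (N : ℕ) (ε : ℝ) (hε : 0 < ε) (hNs : ⌈(96 / ε) ^ 2⌉₊ ≤ N) :
    3 * ((Nat.sqrt (Nat.sqrt N) : ℕ) : ℝ) ^ 2 ≤ ε / 32 * N := by
  have b1 : ((Nat.sqrt (Nat.sqrt N) : ℕ) : ℝ) ^ 2 ≤ Real.sqrt N := by
    have b2 : (((Nat.sqrt (Nat.sqrt N)) ^ 2 : ℕ) : ℝ) ≤ (Nat.sqrt N : ℕ) := by
      exact_mod_cast sqrt2_pow N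
    have b3 : ((Nat.sqrt N : ℕ) : ℝ) ≤ Real.sqrt N := Real.nat_sqrt_le_real_sqrt
    push_cast at b2
    linarith
  have b4 : 96 / ε ≤ Real.sqrt N := by
    apply Real.le_sqrt_of_sq_le
    exact Nat.le_of_ceil_le hNs
  have b5 : Real.sqrt N * Real.sqrt N = N := Real.mul_self_sqrt (Nat.cast_nonneg N)
  have b6 : 0 ≤ Real.sqrt N := Real.sqrt_nonneg _
  rw [div_le_iff₀ hε] at b4
  have b7 : 96 * Real.sqrt N ≤ (Real.sqrt N * ε) * Real.sqrt N :=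
    mul_le_mul_of_nonneg_right b4 b6
  have b8 : (Real.sqrt N * ε) * Real.sqrt N = ε * N := by
    calc (Real.sqrt N * ε) * Real.sqrt N = ε * (Real.sqrt N * Real.sqrt N) := by ring
      _ = ε * N := by rw [b5]
  linarith

theorem bad_num (N Q : ℕ) (ε L θ x W : ℝ) (hε : 0 < ε) (hN : (0 : ℝ) < N)
    (hL12 : 12 / L ≤ ε / 32) (hθ1 : 2 * θ * (L + 1) = ε / 32) (hx : 64 / ε ≤ x) (hx0 : 0 < x)
    (hxQ : x ≤ Q) (hQ1 : 1 < Q) (hW : 3 * W ^ 2 ≤ ε / 32 * N) :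
    (ε / 32 + 12 / L + 2 * θ * (L + 1) + 2 / ((Q ^ 4 : ℕ) : ℝ)) * N + 3 * W ^ 2 ≤ ε / 4 * N := by
  have a1 : 2 / (((Q ^ 4 : ℕ)) : ℝ) ≤ ε / 32 := by
    have b1 : x ≤ ((Q ^ 4 : ℕ) : ℝ) := by
      push_cast
      have b2 : (1 : ℝ) ≤ Q := by exact_mod_cast (by omega : 1 ≤ Q)
      calc x ≤ Q := hxQ
        _ = (Q : ℝ) ^ 1 := (pow_one _).symm
        _ ≤ (Q : ℝ) ^ 4 := pow_le_pow_right₀ b2 (by norm_num)
    have b3 : 64 / ε ≤ ((Q ^ 4 : ℕ) : ℝ) := by linarith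
    have b4 : (0 : ℝ) < ((Q ^ 4 : ℕ) : ℝ) := by linarith
    rw [div_le_iff₀ hε] at b3
    rw [div_le_iff₀ b4]
    linarith
  rw [hθ1]
  have a3 : (ε / 32 + 12 / L + ε / 32 + 2 / (((Q ^ 4 : ℕ)) : ℝ)) * N ≤
      (ε / 32 + ε / 32 + ε / 32 + ε / 32) * N := by
    apply mul_le_mul_of_nonneg_right _ hN.le
    linarith
  have a4 : ε / 4 * N = (ε / 32 + ε / 32 + ε / 32 + ε / 32) * N + ε / 32 * N +
      3 * (ε / 32 * N) := by ring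
  have a5 : 0 ≤ ε / 32 * N := by positivity
  linarith

theorem union_num (J K g rc ac Y : ℕ) (c x M : ℝ) (hJ1 : 1 ≤ J) (hK : 1 ≤ K) (hg1 : 1 ≤ g)
    (hc0 : 0 < c) (hx1 : 1 ≤ x) (h𝒜 : ac ≤ g ^ rc) (hrc : (rc : ℝ) ≤ M * x ^ K)
    (hY : x ^ (K + 1) ≤ Y)
    (hb : (Real.log (J * K * K) + 2 * M * Real.log g) / c ≤ x) :
    (J * (K * (K * (ac * ac))) : ℝ) ≤ Real.exp (c * Y) := by
  have hJ0 : (0 : ℝ) < J := by exact_mod_cast hJ1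
  have hK0 : (0 : ℝ) < K := by exact_mod_cast hK
  have hgpos : (0 : ℝ) < g := by exact_mod_cast hg1
  have hg0 : 0 ≤ Real.log g := Real.log_nonneg (by exact_mod_cast hg1)
  have hJK0 : 0 ≤ Real.log (J * K * K) := Real.log_nonneg (by
    have a1 : (1 : ℝ) ≤ J := by exact_mod_cast hJ1
    have a2 : (1 : ℝ) ≤ K := by exact_mod_cast hK
    calc (1 : ℝ) = 1 * 1 * 1 := by norm_num
      _ ≤ J * K * K := by gcongr)
  have a1 : (ac : ℝ) ≤ (g : ℝ) ^ rc := by exact_mod_cast h𝒜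
  have a4 : (g : ℝ) ^ rc ≤ Real.exp (M * x ^ K * Real.log g) := by
    have e1 : (g : ℝ) ^ rc = Real.exp (rc * Real.log g) := by
      rw [Real.exp_nat_mul, Real.exp_log hgpos]
    rw [e1]
    apply Real.exp_le_exp.mpr
    exact mul_le_mul_of_nonneg_right hrc hg0
  have a5 : Real.exp (Real.log (J * K * K)) = (J * K * K : ℝ) :=
    Real.exp_log (by positivity)
  have a6 : Real.log (J * K * K) + 2 * (M * x ^ K * Real.log g) ≤ c * Y := by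
    rw [div_le_iff₀ hc0] at hb
    have b2 : (1 : ℝ) ≤ x ^ K := one_le_pow₀ hx1
    have b3 : Real.log (J * K * K) * 1 ≤ Real.log (J * K * K) * x ^ K :=
      mul_le_mul_of_nonneg_left b2 hJK0
    have b4 : 0 ≤ x ^ K := by linarith
    calc Real.log (J * K * K) + 2 * (M * x ^ K * Real.log g)
        ≤ Real.log (J * K * K) * x ^ K + 2 * (M * x ^ K * Real.log g) := by linarith
      _ = (Real.log (J * K * K) + 2 * M * Real.log g) * x ^ K := by ring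
      _ ≤ (x * c) * x ^ K := mul_le_mul_of_nonneg_right hb b4
      _ = c * x ^ (K + 1) := by ring
      _ ≤ c * Y := mul_le_mul_of_nonneg_left hY hc0.le
  have a8 : (ac : ℝ) * ac ≤ Real.exp (M * x ^ K * Real.log g) *
      Real.exp (M * x ^ K * Real.log g) :=
    mul_le_mul (a1.trans a4) (a1.trans a4) (Nat.cast_nonneg _) (Real.exp_nonneg _)
  calc (J * (K * (K * (ac * ac))) : ℝ) = (J * K * K) * ((ac : ℝ) * ac) := by ring
    _ ≤ (J * K * K) * (Real.exp (M * x ^ K * Real.log g) *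
        Real.exp (M * x ^ K * Real.log g)) :=
      mul_le_mul_of_nonneg_left a8 (by positivity)
    _ = Real.exp (Real.log (J * K * K) + 2 * (M * x ^ K * Real.log g)) := by
      rw [← a5, ← Real.exp_add, ← Real.exp_add, Real.log_exp]
      congr 1
      ring
    _ ≤ Real.exp (c * Y) := Real.exp_le_exp.mpr a6

theorem tw_le (T : Finset ℕ) (m : ℕ) : ‖tw T m‖ ≤ 1 := by
  unfold tw
  rw [norm_prod]
  apply Finset.prod_le_one
  · intro i _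
    exact norm_nonneg _
  · intro i _
    rw [norm_pow, norm_neg, norm_one, one_pow]

/-- the union bound -/
theorem union (N Y J K Q l Z : ℕ) (δ ε η : ℝ) (P R : Finset ℕ) (cl : ℕ → ℕ) (h0 h1 h2 : ℕ)
    (𝒜 𝒟 : Finset (ℕ → ℂ)) (hSPL : T_SPL) (hFIX : T_FIX) (hJ1 : 1 ≤ J) (hK1 : 1 ≤ K)
    (hε : 0 < ε) (hN1 : 1 ≤ N) (hQ1 : 1 < Q) (hδ : 0 < δ) (hη0 : 0 < η)
    (hη : η = ε / (2 * J * K ^ 2)) (hh1 : h1 ≤ N) (hh2 : h2 ≤ N) (h01 : h0 ≠ h1) (h02 : h0 ≠ h2)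
    (hY0 : h0 < Y) (hY1 : h1 < Y) (hY2 : h2 < Y) (hZ : (Z : ℝ) ≤ δ * Y)
    (hP : ∀ p ∈ P, p.Prime ∧ Y ≤ p ∧ p ≤ N) (hR : ∀ r ∈ R, r.Prime ∧ Q ^ 4 < r ∧ r ≤ Z)
    (hbi : ∀ r ∈ R, r.Prime ∧ bi Q r < K) (hcl1 : ∀ p ∈ P, cl p < J)
    (hl1 : 1 ≤ l) (hl2 : N ≤ 2 ^ l) (hlQ : l ≤ Q) (hQη : 12 / η ≤ Q)
    (hbad : (#(Icc 1 N \ Gd N δ P R cl h0 h1 h2) : ℝ) ≤ ε / 4 * N) (h𝒜2 : ∀ α ∈ 𝒜, Bd α)
    (h𝒜3 : ∀ u : ℕ → ℂ, Bd u → ∃ α ∈ 𝒜, ∀ r ∈ R, ‖u r - α r‖ ≤ ε / 8) (h𝒟 : ∀ D ∈ 𝒟, Bd D) :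
    (#(P.powerset.filter (fun T => ∃ D ∈ 𝒟, ∃ u v : ArithmeticFunction ℂ, u.IsMultiplicative ∧
      v.IsMultiplicative ∧ (∀ n, ‖u n‖ ≤ 1) ∧ (∀ n, ‖v n‖ ≤ 1) ∧
      ε * N < ‖∑ n ∈ Icc 1 N, D n * tw T (n + h0) * u (n + h1) * v (n + h2)‖)) : ℝ) ≤
      (#𝒟 * (J * (K * (K * (#𝒜 * #𝒜)))) : ℝ) * (2 ^ #P * Real.exp (-(η ^ 2 * Y / 64))) := by
  obtain ⟨I, hI⟩ : ∃ I : Finset ((ℕ → ℂ) × ℕ × ℕ × ℕ × (ℕ → ℂ) × (ℕ → ℂ)),
    I = 𝒟 ×ˢ range J ×ˢ range K ×ˢ range K ×ˢ 𝒜 ×ˢ 𝒜 := ⟨_, rfl⟩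
  have hIc : (#I : ℝ) = (#𝒟 * (J * (K * (K * (#𝒜 * #𝒜)))) : ℝ) := by
    rw [hI]
    simp only [Finset.card_product, Finset.card_range]
    push_cast
    ring
  obtain ⟨B, hB⟩ : ∃ B : ((ℕ → ℂ) × ℕ × ℕ × ℕ × (ℕ → ℂ) × (ℕ → ℂ)) → Finset (Finset ℕ),
    B = fun q =>
    P.powerset.filter (fun T => ∃ x y : ℕ → ℂ, Bd x ∧ Bd y ∧
    η * N < ‖∑ n ∈ Ed N δ P R cl h0 h1 h2 Q q.2.1 q.2.2.1 q.2.2.2.1,
      (q.1 n * (q.2.2.2.2.1 (mn R (n + h1)) * q.2.2.2.2.2 (mn R (n + h2)))) * tw T (n + h0) *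
      x (cf R (n + h1)) * y (cf R (n + h2))‖) := ⟨_, rfl⟩
  have hsub : (P.powerset.filter (fun T => ∃ D ∈ 𝒟, ∃ u v : ArithmeticFunction ℂ,
      u.IsMultiplicative ∧ v.IsMultiplicative ∧ (∀ n, ‖u n‖ ≤ 1) ∧ (∀ n, ‖v n‖ ≤ 1) ∧
      ε * N < ‖∑ n ∈ Icc 1 N, D n * tw T (n + h0) * u (n + h1) * v (n + h2)‖)) ⊆
      I.biUnion B := by
    intro T hT
    rw [Finset.mem_filter] at hT
    obtain ⟨hT1, D, hD, u, v, hu, hv, hu1, hv1, hsum⟩ := hT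
    have hF : Bd (fun n => D n * tw T (n + h0)) := by
      intro n
      show ‖D n * tw T (n + h0)‖ ≤ 1
      rw [norm_mul]
      exact mul_le_one₀ (h𝒟 D hD n) (norm_nonneg _) (tw_le T (n + h0))
    obtain ⟨κ, hκ, i, hi, j, hj, α, hα, β, hβ, hlt⟩ := hSPL N J K Q δ ε P R cl h0 h1 h2 𝒜
      (fun n => D n * tw T (n + h0)) u v hJ1 hK1 hε hN1 hbi hcl1 hbad h𝒜2 h𝒜3 hF
      hu hv hu1 hv1 hsum
    rw [Finset.mem_biUnion]
    refine ⟨(D, κ, i, j, α, β), ?_, ?_⟩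
    · rw [hI]
      simp only [Finset.mem_product, Finset.mem_range]
      exact ⟨hD, hκ, hi, hj, hα, hβ⟩
    · rw [hB]
      simp only [Finset.mem_filter]
      refine ⟨hT1, fun m => u m, fun m => v m, hu1, hv1, ?_⟩
      rw [hη]
      refine lt_of_lt_of_eq hlt ?_
      congr 1
      refine Finset.sum_congr rfl fun n _ => ?_
      ring
  have hBcard : ∀ q ∈ I, (#(B q) : ℝ) ≤ 2 ^ #P * Real.exp (-(η ^ 2 * Y / 64)) := by
    intro q hq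
    rw [hI] at hq
    simp only [Finset.mem_product, Finset.mem_range] at hq
    obtain ⟨hq1, hq2, hq3, hq4, hq5, hq6⟩ := hq
    rw [hB]
    refine hFIX N Y Z Q l δ η P R cl h0 h1 h2 q.2.1 q.2.2.1 q.2.2.2.1
      (fun n => q.1 n * (q.2.2.2.2.1 (mn R (n + h1)) * q.2.2.2.2.2 (mn R (n + h2))))
      hQ1 hδ hη0 hN1 hh1 hh2 h01 h02 hY0 hY1 hY2 hZ hP hR hl1 hl2 hlQ hQη ?_
    intro n
    show ‖q.1 n * (q.2.2.2.2.1 (mn R (n + h1)) * q.2.2.2.2.2 (mn R (n + h2)))‖ ≤ 1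
    rw [norm_mul, norm_mul]
    have a1 := h𝒟 q.1 hq1 n
    have a2 := h𝒜2 _ hq5 (mn R (n + h1))
    have a3 := h𝒜2 _ hq6 (mn R (n + h2))
    have a4 : ‖q.2.2.2.2.1 (mn R (n + h1))‖ * ‖q.2.2.2.2.2 (mn R (n + h2))‖ ≤ 1 :=
      mul_le_one₀ a2 (norm_nonneg _) a3
    exact mul_le_one₀ a1 (by positivity) a4
  calc (#(P.powerset.filter (fun T => ∃ D ∈ 𝒟, ∃ u v : ArithmeticFunction ℂ,
      u.IsMultiplicative ∧ v.IsMultiplicative ∧ (∀ n, ‖u n‖ ≤ 1) ∧ (∀ n, ‖v n‖ ≤ 1) ∧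
      ε * N < ‖∑ n ∈ Icc 1 N, D n * tw T (n + h0) * u (n + h1) * v (n + h2)‖)) : ℝ)
      ≤ (#(I.biUnion B) : ℝ) := by exact_mod_cast Finset.card_le_card hsub
    _ ≤ ((∑ q ∈ I, #(B q) : ℕ) : ℝ) := by exact_mod_cast Finset.card_biUnion_le
    _ = ∑ q ∈ I, (#(B q) : ℝ) := by push_cast; rfl
    _ ≤ ∑ q ∈ I, 2 ^ #P * Real.exp (-(η ^ 2 * Y / 64)) := Finset.sum_le_sum hBcard
    _ = #I * (2 ^ #P * Real.exp (-(η ^ 2 * Y / 64))) := by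
      rw [Finset.sum_const, nsmul_eq_mul]
    _ = _ := by rw [hIc]

end MAIN0_

open MAIN0_

theorem p_MAIN0 (hCLS : T_CLS) (hNET : T_NET) (hCNT : T_CNT) (hSPL : T_SPL) (hFIX : T_FIX)
    (hPAR : T_PAR) : T_MAIN0 := by
  intro h0 h1 h2 ε h01 h02 hε
  obtain ⟨L, hL⟩ : ∃ L : ℝ, L = max 1 (384 / ε) := ⟨_, rfl⟩
  have hL1 : 1 ≤ L := by rw [hL]; exact le_max_left _ _
  have hL2 : 384 / ε ≤ L := by rw [hL]; exact le_max_right _ _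
  have hL12 : 12 / L ≤ ε / 32 := by
    rw [div_le_div_iff₀ (by linarith) (by norm_num)]
    rw [div_le_iff₀ hε] at hL2
    linarith
  obtain ⟨θ, hθ⟩ : ∃ θ : ℝ, θ = ε / (64 * (L + 1)) := ⟨_, rfl⟩
  have hθ0 : 0 < θ := by rw [hθ]; positivity
  have hθ1 : 2 * θ * (L + 1) = ε / 32 := by
    rw [hθ]
    have : L + 1 ≠ 0 := by linarith
    field_simp
    ring
  obtain ⟨J, hJ1, hJ⟩ := hCLS θ (L + 1) hθ0 (by linarith)
  obtain ⟨K, hK5, hK⟩ := hPAR L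
  obtain ⟨g, hg1, hg⟩ := hNET (ε / 8) (by positivity)
  have hJ0 : (0 : ℝ) < J := by exact_mod_cast hJ1
  have hK0 : (0 : ℝ) < K := by exact_mod_cast (by omega : 0 < K)
  obtain ⟨η, hη⟩ : ∃ η : ℝ, η = ε / (2 * J * K ^ 2) := ⟨_, rfl⟩
  have hη0 : 0 < η := by rw [hη]; positivity
  obtain ⟨c, hc⟩ : ∃ c : ℝ, c = η ^ 2 / 256 := ⟨_, rfl⟩
  have hc0 : 0 < c := by rw [hc]; positivity
  have hg0 : 0 ≤ Real.log g := Real.log_nonneg (by exact_mod_cast hg1)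
  have hJK0 : 0 ≤ Real.log (J * K * K) := Real.log_nonneg (by
    have a1 : (1 : ℝ) ≤ J := by exact_mod_cast hJ1
    have a2 : (1 : ℝ) ≤ K := by exact_mod_cast (by omega : 1 ≤ K)
    calc (1 : ℝ) = 1 * 1 * 1 := by norm_num
      _ ≤ J * K * K := by gcongr)
  -- size of `N`
  obtain ⟨b, hb⟩ : ∃ b : ℝ, b = 1 + (h0 + h1 + h2) + 1 / θ + 16 ^ K / (ε / 32) + 64 / ε + 12 / η +
      (Real.log (J * K * K) + 2 * 16 ^ K * Real.log g) / c := ⟨_, rfl⟩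
  have p1 : (0 : ℝ) ≤ (h0 + h1 + h2 : ℝ) := by positivity
  have p2 : (0 : ℝ) ≤ 1 / θ := by positivity
  have p3 : (0 : ℝ) ≤ 16 ^ K / (ε / 32) := by positivity
  have p4 : (0 : ℝ) ≤ 64 / ε := by positivity
  have p5 : (0 : ℝ) ≤ 12 / η := by positivity
  have p6 : (0 : ℝ) ≤ (Real.log (J * K * K) + 2 * 16 ^ K * Real.log g) / c := by positivity
  obtain ⟨N1, hN1⟩ := loglarge b
  obtain ⟨N2, hN2⟩ := logpow (K * 4) (1 / 16 ^ (K * 4)) (by positivity)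
  refine ⟨L, c, K + 1, max (max N1 N2) (max (h1 + h2 + 4) (⌈(96 / ε) ^ 2⌉₊)), hL1, hc0, ?_⟩
  intro N Y P 𝒟 hN hY hP hPL hPL1 h𝒟 hcard
  have hNN1 : N1 ≤ N := le_trans (le_trans (le_max_left _ _) (le_max_left _ _)) hN
  have hNN2 : N2 ≤ N := le_trans (le_trans (le_max_right _ _) (le_max_left _ _)) hN
  have hNh : h1 + h2 + 4 ≤ N := le_trans (le_trans (le_max_left _ _) (le_max_right _ _)) hN
  have hNs : ⌈(96 / ε) ^ 2⌉₊ ≤ N := le_trans (le_trans (le_max_right _ _) (le_max_right _ _)) hN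
  have hlog := hN1 N hNN1
  set x : ℝ := Real.log N with hx
  have hx1 : 1 ≤ x := by linarith
  have hx0 : 0 < x := by linarith
  have hNpos : (0 : ℝ) < N := by exact_mod_cast (by omega : 0 < N)
  have hpow : x ≤ x ^ (K + 1) := by
    calc x = x ^ 1 := (pow_one x).symm
      _ ≤ x ^ (K + 1) := pow_le_pow_right₀ hx1 (by omega)
  have hYx : x ≤ Y := hpow.trans hY
  have hY0 : (0 : ℝ) < Y := lt_of_lt_of_le hx0 hYx
  obtain ⟨l, Q, R, hl1, hl2, hlQ, hQ1, hQx, hR, hRL⟩ := hK N (by omega)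
  have hQ0 : (0 : ℝ) < Q := by exact_mod_cast (by omega : 0 < Q)
  -- `x ≤ Q`
  have hxQ : x ≤ Q := by
    have a1 : (N : ℝ) ≤ 2 ^ l := by exact_mod_cast hl2
    have a2 : x ≤ l * Real.log 2 := by
      rw [hx, ← Real.log_pow]
      exact Real.log_le_log hNpos a1
    have a3 : Real.log 2 ≤ 1 := by
      have := Real.log_two_lt_d9
      linarith
    have a4 : (l : ℝ) * Real.log 2 ≤ l * 1 :=
      mul_le_mul_of_nonneg_left a3 (Nat.cast_nonneg l)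
    have a5 : (l : ℝ) ≤ Q := by exact_mod_cast hlQ
    linarith
  have hQK : ((Q ^ K : ℕ) : ℝ) ≤ 16 ^ K * x ^ K := by
    push_cast
    calc (Q : ℝ) ^ K ≤ (16 * x) ^ K := pow_le_pow_left₀ hQ0.le hQx K
      _ = 16 ^ K * x ^ K := mul_pow _ _ _
  -- the class function
  obtain ⟨cl, hcl1, hcl2⟩ := hJ P (fun p hp => by
    have hp1 := hP p hp
    refine ⟨hp1.1.pos, ?_⟩
    have a1 : (0 : ℝ) < p := by exact_mod_cast hp1.1.pos
    have a2 : (Y : ℝ) ≤ p := by exact_mod_cast hp1.2.1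
    have a3 : 1 / θ ≤ p := by linarith
    rw [div_le_iff₀ a1]
    rw [div_le_iff₀ hθ0] at a3
    linarith) hPL1
  obtain ⟨𝒜, h𝒜1, h𝒜2, h𝒜3⟩ := hg R
  -- counting
  have hRy : ∀ r ∈ R, r ≤ Nat.sqrt (Nat.sqrt N) := by
    intro r hr
    apply le_sqrt2
    have a1 : (r : ℝ) ≤ 16 ^ K * x ^ K := by
      have : (r : ℝ) ≤ ((Q ^ K : ℕ) : ℝ) := by exact_mod_cast (hR r hr).2.2
      linarith
    have a2 : (r : ℝ) ^ 4 ≤ N := by
      calc (r : ℝ) ^ 4 ≤ (16 ^ K * x ^ K) ^ 4 := pow_le_pow_left₀ (Nat.cast_nonneg r) a1 4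
        _ = 16 ^ (K * 4) * x ^ (K * 4) := by rw [mul_pow, ← pow_mul, ← pow_mul]
        _ ≤ 16 ^ (K * 4) * (1 / 16 ^ (K * 4) * N) := by
          apply mul_le_mul_of_nonneg_left (hN2 N hNN2)
          positivity
        _ = N := by field_simp
    exact_mod_cast a2
  have hy1 : 1 ≤ Nat.sqrt (Nat.sqrt N) := le_sqrt2 1 N (by omega)
  have hy2 : (Nat.sqrt (Nat.sqrt N)) ^ 2 ≤ N :=
    (sqrt2_pow N).trans (Nat.sqrt_le_self N)
  have hQ4 : 1 ≤ Q ^ 4 := Nat.one_le_pow _ _ (by omega)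
  have hcnt := hCNT N (Nat.sqrt (Nat.sqrt N)) (Q ^ 4) (ε / 32) θ L P R cl h0 h1 h2 hy1 hy2 hQ4
    (by positivity) hθ0 hL1 (fun p hp => ⟨(hP p hp).1, le_sqrt2 p N (hP p hp).2.2⟩)
    (fun r hr => ⟨(hR r hr).1, hRy r hr, (hR r hr).2.1⟩) hPL hPL1 hRL hcl2
  have hbad : (#(Icc 1 N \ Gd N (ε / 32) P R cl h0 h1 h2) : ℝ) ≤ ε / 4 * N :=
    hcnt.trans (bad_num N Q ε L θ x _ hε hNpos hL12 hθ1 (by linarith) hx0 hxQ hQ1
      (three_sq N ε hε hNs))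
  -- the union bound
  have hbi : ∀ r ∈ R, r.Prime ∧ bi Q r < K := by
    intro r hr
    refine ⟨(hR r hr).1, ?_⟩
    unfold bi
    have : Nat.clog Q r ≤ K := Nat.clog_le_of_le_pow (hR r hr).2.2
    omega
  have q0 : (0 : ℝ) ≤ h0 := Nat.cast_nonneg _
  have q1 : (0 : ℝ) ≤ h1 := Nat.cast_nonneg _
  have q2 : (0 : ℝ) ≤ h2 := Nat.cast_nonneg _
  have r0 : h0 < Y := by
    have : (h0 : ℝ) < Y := by linarith
    exact_mod_cast this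
  have r1 : h1 < Y := by
    have : (h1 : ℝ) < Y := by linarith
    exact_mod_cast this
  have r2 : h2 < Y := by
    have : (h2 : ℝ) < Y := by linarith
    exact_mod_cast this
  have hZ : ((Q ^ K : ℕ) : ℝ) ≤ ε / 32 * Y := by
    have a1 : 16 ^ K / (ε / 32) ≤ x := by linarith
    rw [div_le_iff₀ (by positivity)] at a1
    calc ((Q ^ K : ℕ) : ℝ) ≤ 16 ^ K * x ^ K := hQK
      _ ≤ (x * (ε / 32)) * x ^ K := mul_le_mul_of_nonneg_right a1 (by positivity)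
      _ = ε / 32 * x ^ (K + 1) := by ring
      _ ≤ ε / 32 * Y := mul_le_mul_of_nonneg_left hY (by positivity)
  have hPN : ∀ p ∈ P, p.Prime ∧ Y ≤ p ∧ p ≤ N := by
    intro p hp
    refine ⟨(hP p hp).1, (hP p hp).2.1, ?_⟩
    calc p ≤ p ^ 4 := Nat.le_self_pow (by norm_num) p
      _ ≤ N := (hP p hp).2.2
  have hun := union N Y J K Q l (Q ^ K) (ε / 32) ε η P R cl h0 h1 h2 𝒜 𝒟 hSPL hFIX hJ1
    (by omega) hε (by omega) hQ1 (by positivity) hη0 hη (by omega) (by omega) h01 h02 r0 r1 r2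
    hZ hPN hR hbi hcl1 hl1 hl2 hlQ (by linarith) hbad h𝒜2 h𝒜3 h𝒟
  have hrc : (#R : ℝ) ≤ 16 ^ K * x ^ K := by
    have a2 : #R ≤ Q ^ K := by
      have : R ⊆ Icc 1 (Q ^ K) := by
        intro r hr
        rw [Finset.mem_Icc]
        exact ⟨(hR r hr).1.pos, (hR r hr).2.2⟩
      have := Finset.card_le_card this
      rwa [Nat.card_Icc, Nat.add_sub_cancel] at this
    have : (#R : ℝ) ≤ ((Q ^ K : ℕ) : ℝ) := by exact_mod_cast a2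
    linarith
  have hnum := union_num J K g #R #𝒜 Y c x (16 ^ K) hJ1 (by omega) hg1 hc0 hx1
    h𝒜1 hrc hY (by linarith)
  refine hun.trans ?_
  calc (#𝒟 * (J * (K * (K * (#𝒜 * #𝒜)))) : ℝ) * (2 ^ #P * Real.exp (-(η ^ 2 * Y / 64)))
      ≤ (Real.exp (c * Y) * Real.exp (c * Y)) * (2 ^ #P * Real.exp (-(η ^ 2 * Y / 64))) := by
        apply mul_le_mul_of_nonneg_right _ (by positivity)
        exact mul_le_mul hcard hnum (by positivity) (Real.exp_nonneg _)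
    _ = Real.exp (c * Y + c * Y + -(η ^ 2 * Y / 64)) * 2 ^ #P := by
      rw [Real.exp_add, Real.exp_add]
      ring
    _ ≤ Real.exp (-(c * Y)) * 2 ^ #P := by
      apply mul_le_mul_of_nonneg_right _ (by positivity)
      apply Real.exp_le_exp.mpr
      have e1 : η ^ 2 * Y / 64 = 4 * (c * Y) := by
        rw [hc]
        ring
      rw [e1]
      have : 0 ≤ c * Y := by positivity
      linarith

end Pool.Agent.TAD
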