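import Pool.Agent.TAD.Targets2

set_option autoImplicit false

/-!
# MP_f3f922_nt: the version with further adversaries which are free on the small primes
-/

open scoped Classical

noncomputable section

namespace Pool.Agent.TAD

open Finset

namespace MAINK_

theorem tw_le (T : Finset ℕ) (m : ℕ) : ‖tw T m‖ ≤ 1 := by
  unfold tw
  rw [norm_prod]
  apply Finset.prod_le_one
  · intro i _
    exact norm_nonneg _
  · intro i _
    rw [norm_pow, norm_neg, norm_one, one_pow]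

/-- replacing one bounded factor by an approximation -/
theorem replace (N : ℕ) (ε : ℝ) (a F W : ℕ → ℂ) (ha : ∀ n, ‖a n‖ ≤ 1)
    (hF : ∀ n ∈ Icc 1 N, ‖F n - W n‖ ≤ ε / 2)
    (h : ε * N < ‖∑ n ∈ Icc 1 N, a n * F n‖) : ε / 2 * N < ‖∑ n ∈ Icc 1 N, a n * W n‖ := by
  have h1 : ∑ n ∈ Icc 1 N, a n * F n = ∑ n ∈ Icc 1 N, a n * W n +
      ∑ n ∈ Icc 1 N, a n * (F n - W n) := by
    rw [← Finset.sum_add_distrib]
    refine Finset.sum_congr rfl fun n _ => ?_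
    ring
  have h2 : ‖∑ n ∈ Icc 1 N, a n * (F n - W n)‖ ≤ ε / 2 * N := by
    calc ‖∑ n ∈ Icc 1 N, a n * (F n - W n)‖ ≤ ∑ n ∈ Icc 1 N, ‖a n * (F n - W n)‖ :=
          norm_sum_le _ _
      _ ≤ ∑ n ∈ Icc 1 N, ε / 2 := by
        apply Finset.sum_le_sum
        intro n hn
        rw [norm_mul]
        have b1 := hF n hn
        calc ‖a n‖ * ‖F n - W n‖ ≤ 1 * ‖F n - W n‖ :=
              mul_le_mul_of_nonneg_right (ha n) (norm_nonneg _)
          _ = ‖F n - W n‖ := one_mul _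
          _ ≤ ε / 2 := b1
      _ = ε / 2 * N := by
        rw [Finset.sum_const, nsmul_eq_mul, Nat.card_Icc, Nat.add_sub_cancel]
        ring
  rw [h1] at h
  have h3 := norm_add_le (∑ n ∈ Icc 1 N, a n * W n) (∑ n ∈ Icc 1 N, a n * (F n - W n))
  have h4 : ε * N = ε / 2 * N + ε / 2 * N := by ring
  linarith

end MAINK_

open MAINK_

theorem p_MAINK (hMAIN : T_MAIN) (hNETK : T_NETK) : T_MAINK := by
  intro k h ε h01 h02 hε
  obtain ⟨A, c₁, C, N1, hc₁, H⟩ := hMAIN (h 0) (h 1) (h 2) (ε / 2) h01 h02 (by positivity)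
  obtain ⟨N2, hN2⟩ := hNETK k (fun j => h j.succ.succ.succ) (ε / 2) (c₁ / 2) (by positivity)
    (by positivity)
  obtain ⟨N3, hN3⟩ : ∃ N3 : ℕ, ∀ N : ℕ, N3 ≤ N → 1 ≤ Real.log N := by
    have h := Real.tendsto_log_atTop.comp (tendsto_natCast_atTop_atTop (R := ℝ))
    have h2 := (Filter.tendsto_atTop.mp h) 1
    rw [Filter.eventually_atTop] at h2
    obtain ⟨a, ha⟩ := h2
    exact ⟨a, fun N hN => ha N hN⟩
  refine ⟨A, c₁ / 2, max C 3, max N1 (max N2 N3), by positivity, ?_⟩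
  intro N Y S 𝒟 g hN hY hS hA h𝒟 hcard hg
  have hNN1 : N1 ≤ N := le_trans (le_max_left _ _) hN
  have hNN2 : N2 ≤ N := le_trans (le_trans (le_max_left _ _) (le_max_right _ _)) hN
  have hNN3 : N3 ≤ N := le_trans (le_trans (le_max_right _ _) (le_max_right _ _)) hN
  have hlog := hN3 N hNN3
  have hY1 : (Real.log N) ^ C ≤ Y :=
    (pow_le_pow_right₀ hlog (le_max_left _ _)).trans hY
  have hY2 : (Real.log N) ^ 3 ≤ Y :=
    (pow_le_pow_right₀ hlog (le_max_right _ _)).trans hY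
  obtain ⟨𝒲, hW1, hW2, hW3⟩ := hN2 N Y g hNN2 hY2 hg
  obtain ⟨𝒟', h𝒟'⟩ : ∃ 𝒟' : Finset (ℕ → ℂ),
    𝒟' = (𝒟 ×ˢ 𝒲).image (fun q n => q.1 n * q.2 n) := ⟨_, rfl⟩
  have hD'b : ∀ D ∈ 𝒟', ∀ n, ‖D n‖ ≤ 1 := by
    intro D hD n
    rw [h𝒟', Finset.mem_image] at hD
    obtain ⟨q, hq, rfl⟩ := hD
    rw [Finset.mem_product] at hq
    show ‖q.1 n * q.2 n‖ ≤ 1
    rw [norm_mul]
    exact mul_le_one₀ (h𝒟 _ hq.1 n) (norm_nonneg _) (hW2 _ hq.2 n)
  have hD'c : (#𝒟' : ℝ) ≤ Real.exp (c₁ * Y) := by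
    calc (#𝒟' : ℝ) ≤ ((#𝒟 * #𝒲 : ℕ) : ℝ) := by
          rw [h𝒟', ← Finset.card_product]
          exact_mod_cast Finset.card_image_le
      _ = (#𝒟 : ℝ) * #𝒲 := by push_cast; ring
      _ ≤ Real.exp (c₁ / 2 * Y) * Real.exp (c₁ / 2 * Y) :=
        mul_le_mul hcard hW1 (Nat.cast_nonneg _) (Real.exp_nonneg _)
      _ = Real.exp (c₁ * Y) := by
        rw [← Real.exp_add]
        congr 1
        ring
  have hmain := H N Y S 𝒟' hNN1 hY1 hS hA hD'b hD'c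
  have hsub : (S.powerset.filter (fun T => ∃ D ∈ 𝒟, ∃ f : Fin (k + 2) → ArithmeticFunction ℂ,
      (∀ j, (f j).IsMultiplicative) ∧ (∀ j n, ‖f j n‖ ≤ 1) ∧
      (∀ (j : Fin k) (p e : ℕ), p.Prime → (Y : ℝ) / (Real.log N) ^ 2 < p →
        f j.succ.succ (p ^ e) = g j (p ^ e)) ∧
      ε * N < ‖∑ n ∈ Icc 1 N, D n * tw T (n + h 0) * ∏ j, f j (n + h j.succ)‖)) ⊆
      (S.powerset.filter (fun T => ∃ D ∈ 𝒟', ∃ u v : ArithmeticFunction ℂ, u.IsMultiplicative ∧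
        v.IsMultiplicative ∧ (∀ n, ‖u n‖ ≤ 1) ∧ (∀ n, ‖v n‖ ≤ 1) ∧
        ε / 2 * N < ‖∑ n ∈ Icc 1 N, D n * tw T (n + h 0) * u (n + h 1) * v (n + h 2)‖)) := by
    intro T hT
    rw [Finset.mem_filter] at hT ⊢
    obtain ⟨hT1, D, hD, f, hf1, hf2, hf3, hlt⟩ := hT
    refine ⟨hT1, ?_⟩
    obtain ⟨W, hW, hWn⟩ := hW3 (fun j => f j.succ.succ) (fun j => hf1 _) (fun j n => hf2 _ n) hf3
    refine ⟨fun n => D n * W n, ?_, f 0, f 1, hf1 0, hf1 1, hf2 0, hf2 1, ?_⟩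
    · rw [h𝒟', Finset.mem_image]
      exact ⟨(D, W), Finset.mem_product.mpr ⟨hD, hW⟩, rfl⟩
    · have e1 : ∑ n ∈ Icc 1 N, D n * tw T (n + h 0) * ∏ j, f j (n + h j.succ) =
          ∑ n ∈ Icc 1 N, (D n * tw T (n + h 0) * f 0 (n + h 1) * f 1 (n + h 2)) *
            ∏ j : Fin k, f j.succ.succ (n + h j.succ.succ.succ) := by
        refine Finset.sum_congr rfl fun n _ => ?_
        rw [Fin.prod_univ_succ, Fin.prod_univ_succ]
        have e2 : (Fin.succ (0 : Fin (k + 1)) : Fin (k + 2)) = 1 := rfl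
        have e3 : (Fin.succ (0 : Fin (k + 2)) : Fin (k + 3)) = 1 := rfl
        have e4 : (Fin.succ (Fin.succ (0 : Fin (k + 1))) : Fin (k + 3)) = 2 := rfl
        rw [e4, e2, e3]
        ring
      rw [e1] at hlt
      have h5 := replace N ε (fun n => D n * tw T (n + h 0) * f 0 (n + h 1) * f 1 (n + h 2))
        (fun n => ∏ j : Fin k, f j.succ.succ (n + h j.succ.succ.succ)) W (by
          intro n
          show ‖D n * tw T (n + h 0) * f 0 (n + h 1) * f 1 (n + h 2)‖ ≤ 1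
          rw [norm_mul, norm_mul, norm_mul]
          have a1 := mul_le_one₀ (h𝒟 D hD n) (norm_nonneg _) (tw_le T (n + h 0))
          have a2 := mul_le_one₀ a1 (norm_nonneg _) (hf2 0 (n + h 1))
          exact mul_le_one₀ a2 (norm_nonneg _) (hf2 1 (n + h 2))) hWn hlt
      refine lt_of_lt_of_eq h5 ?_
      congr 1
      refine Finset.sum_congr rfl fun n _ => ?_
      ring
  calc _ ≤ (#(S.powerset.filter (fun T => ∃ D ∈ 𝒟', ∃ u v : ArithmeticFunction ℂ,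
        u.IsMultiplicative ∧ v.IsMultiplicative ∧ (∀ n, ‖u n‖ ≤ 1) ∧ (∀ n, ‖v n‖ ≤ 1) ∧
        ε / 2 * N < ‖∑ n ∈ Icc 1 N, D n * tw T (n + h 0) * u (n + h 1) * v (n + h 2)‖)) : ℝ) := by
        exact_mod_cast Finset.card_le_card hsub
    _ ≤ Real.exp (-(c₁ * Y)) * 2 ^ #S := hmain
    _ ≤ Real.exp (-(c₁ / 2 * Y)) * 2 ^ #S := by
      apply mul_le_mul_of_nonneg_right _ (by positivity)
      apply Real.exp_le_exp.mpr
      have : 0 ≤ c₁ * Y := by positivity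
      linarith

end Pool.Agent.TAD
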