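import Pool.Agent.TAD.Targets

set_option autoImplicit false

/-!
# MP_f3f922_nt, project TAD: the bounded differences inequality on a powerset
-/

open scoped Classical

noncomputable section

namespace Pool.Agent.TAD

open Finset

namespace MCD_

lemma pair_bound (t u v c : ℝ) (h : |v - u| ≤ c) :
    Real.exp (t * u) + Real.exp (t * v) ≤
      2 * (Real.exp (t * ((u + v) / 2)) * Real.exp (t ^ 2 * c ^ 2 / 8)) := by
  have h1 : Real.exp (t * u) = Real.exp (t * ((u + v) / 2)) * Real.exp (-(t * (v - u) / 2)) := by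
    rw [← Real.exp_add]; congr 1; ring
  have h2 : Real.exp (t * v) = Real.exp (t * ((u + v) / 2)) * Real.exp (t * (v - u) / 2) := by
    rw [← Real.exp_add]; congr 1; ring
  have h3 : Real.cosh (t * (v - u) / 2) ≤ Real.exp (t ^ 2 * c ^ 2 / 8) := by
    refine (Real.cosh_le_exp_half_sq _).trans (Real.exp_le_exp.mpr ?_)
    have h4 : (v - u) ^ 2 ≤ c ^ 2 := by
      have := pow_le_pow_left₀ (abs_nonneg _) h 2
      rwa [sq_abs] at this
    have h5 : t ^ 2 * (v - u) ^ 2 ≤ t ^ 2 * c ^ 2 := mul_le_mul_of_nonneg_left h4 (sq_nonneg t)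
    have h6 : (t * (v - u) / 2) ^ 2 / 2 = t ^ 2 * (v - u) ^ 2 / 8 := by ring
    rw [h6]
    linarith
  have h7 : Real.exp (t * u) + Real.exp (t * v) =
      2 * (Real.exp (t * ((u + v) / 2)) * Real.cosh (t * (v - u) / 2)) := by
    rw [h1, h2, Real.cosh_eq]; ring
  rw [h7]
  exact mul_le_mul_of_nonneg_left (mul_le_mul_of_nonneg_left h3 (Real.exp_pos _).le) (by norm_num)

lemma mgf (S : Finset ℕ) : ∀ (f : Finset ℕ → ℝ) (C : ℕ → ℝ) (t : ℝ),
    (∀ a ∈ S, ∀ T ⊆ S.erase a, |f (insert a T) - f T| ≤ C a) →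
    ∑ T ∈ S.powerset, Real.exp (t * f T) ≤
      2 ^ #S * Real.exp (t * ((∑ T ∈ S.powerset, f T) / 2 ^ #S) +
        t ^ 2 * (∑ a ∈ S, C a ^ 2) / 8) := by
  induction S using Finset.induction_on with
  | empty =>
    intro f C t _
    simp
  | insert a S ha ih =>
    intro f C t hf
    set g : Finset ℕ → ℝ := fun T => (f T + f (insert a T)) / 2 with hg
    have hgd : ∀ b ∈ S, ∀ T ⊆ S.erase b, |g (insert b T) - g T| ≤ C b := by
      intro b hb T hT
      have hab : a ≠ b := fun h => ha (h ▸ hb)
      have h1 : |f (insert b T) - f T| ≤ C b :=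
        hf b (mem_insert_of_mem hb) T (fun x hx => by
          have := hT hx
          rw [mem_erase] at this ⊢
          exact ⟨this.1, mem_insert_of_mem this.2⟩)
      have h2 : |f (insert b (insert a T)) - f (insert a T)| ≤ C b :=
        hf b (mem_insert_of_mem hb) (insert a T) (fun x hx => by
          rw [mem_insert] at hx
          rw [mem_erase]
          rcases hx with rfl | hx
          · exact ⟨hab, mem_insert_self _ _⟩
          · have := hT hx
            rw [mem_erase] at this
            exact ⟨this.1, mem_insert_of_mem this.2⟩)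
      have h3 : g (insert b T) - g T = ((f (insert b T) - f T) +
          (f (insert b (insert a T)) - f (insert a T))) / 2 := by
        simp only [hg]
        rw [Finset.insert_comm a b T]
        ring
      rw [h3, abs_div, abs_two]
      have := abs_add_le (f (insert b T) - f T) (f (insert b (insert a T)) - f (insert a T))
      linarith
    have hmain := ih g C t hgd
    have hstep : ∑ T ∈ (insert a S).powerset, Real.exp (t * f T) ≤
        2 * Real.exp (t ^ 2 * C a ^ 2 / 8) * ∑ T ∈ S.powerset, Real.exp (t * g T) := by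
      rw [sum_powerset_insert ha, ← sum_add_distrib, mul_sum]
      refine sum_le_sum fun T hT => ?_
      have hT' : T ⊆ S := mem_powerset.mp hT
      have h1 : |f (insert a T) - f T| ≤ C a :=
        hf a (mem_insert_self _ _) T (by rwa [erase_insert ha])
      have h2 := pair_bound t (f T) (f (insert a T)) (C a) h1
      calc Real.exp (t * f T) + Real.exp (t * f (insert a T))
          ≤ 2 * (Real.exp (t * ((f T + f (insert a T)) / 2)) * Real.exp (t ^ 2 * C a ^ 2 / 8)) := h2
        _ = 2 * Real.exp (t ^ 2 * C a ^ 2 / 8) * Real.exp (t * g T) := by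
          simp only [hg]; ring
    have hmean : (∑ T ∈ S.powerset, g T) / 2 ^ #S =
        (∑ T ∈ (insert a S).powerset, f T) / 2 ^ #(insert a S) := by
      rw [sum_powerset_insert ha, ← sum_add_distrib, card_insert_of_notMem ha, pow_succ]
      simp only [hg]
      rw [← sum_div]
      field_simp
    calc ∑ T ∈ (insert a S).powerset, Real.exp (t * f T)
        ≤ 2 * Real.exp (t ^ 2 * C a ^ 2 / 8) * ∑ T ∈ S.powerset, Real.exp (t * g T) := hstep
      _ ≤ 2 * Real.exp (t ^ 2 * C a ^ 2 / 8) * (2 ^ #S * Real.exp (t * ((∑ T ∈ S.powerset, g T) /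
            2 ^ #S) + t ^ 2 * (∑ a ∈ S, C a ^ 2) / 8)) :=
          mul_le_mul_of_nonneg_left hmain (by positivity)
      _ = 2 ^ #(insert a S) * (Real.exp (t ^ 2 * C a ^ 2 / 8) * Real.exp (t *
            ((∑ T ∈ S.powerset, g T) / 2 ^ #S) + t ^ 2 * (∑ a ∈ S, C a ^ 2) / 8)) := by
          rw [card_insert_of_notMem ha, pow_succ]; ring
      _ = _ := by
          rw [← Real.exp_add, hmean, sum_insert ha]
          congr 2
          ring

end MCD_

theorem p_MCD : T_MCD := by
  intro S f C V τ m hf hV hV0 hτ hm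
  set t : ℝ := 4 * τ / V with ht
  have ht0 : 0 ≤ t := by positivity
  have h1 := MCD_.mgf S f C t hf
  have h2 : (#(S.powerset.filter (fun T => m + τ < f T)) : ℝ) * Real.exp (t * (m + τ)) ≤
      ∑ T ∈ S.powerset, Real.exp (t * f T) := by
    calc (#(S.powerset.filter (fun T => m + τ < f T)) : ℝ) * Real.exp (t * (m + τ))
        = ∑ T ∈ S.powerset.filter (fun T => m + τ < f T), Real.exp (t * (m + τ)) := by
          rw [sum_const, nsmul_eq_mul]
      _ ≤ ∑ T ∈ S.powerset.filter (fun T => m + τ < f T), Real.exp (t * f T) := by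
          refine sum_le_sum fun T hT => Real.exp_le_exp.mpr ?_
          exact mul_le_mul_of_nonneg_left (mem_filter.mp hT).2.le ht0
      _ ≤ ∑ T ∈ S.powerset, Real.exp (t * f T) :=
          sum_le_sum_of_subset_of_nonneg (filter_subset _ _) fun T _ _ => (Real.exp_pos _).le
  have h3 : (∑ T ∈ S.powerset, f T) / 2 ^ #S ≤ m := by
    rw [div_le_iff₀ (by positivity)]
    linarith
  have h4 : t * ((∑ T ∈ S.powerset, f T) / 2 ^ #S) + t ^ 2 * (∑ a ∈ S, C a ^ 2) / 8 ≤
      t * m + t ^ 2 * V / 8 := by
    have h5 := mul_le_mul_of_nonneg_left h3 ht0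
    have h6 := mul_le_mul_of_nonneg_left hV (sq_nonneg t)
    linarith
  have h7 : (#(S.powerset.filter (fun T => m + τ < f T)) : ℝ) * Real.exp (t * (m + τ)) ≤
      2 ^ #S * Real.exp (t * m + t ^ 2 * V / 8) :=
    h2.trans (h1.trans (mul_le_mul_of_nonneg_left (Real.exp_le_exp.mpr h4) (by positivity)))
  have h8 : Real.exp (t * m + t ^ 2 * V / 8) =
      Real.exp (-(2 * τ ^ 2 / V)) * Real.exp (t * (m + τ)) := by
    rw [← Real.exp_add]
    congr 1
    rw [ht]
    field_simp
    ring
  rw [h8, ← mul_assoc] at h7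
  exact le_of_mul_le_mul_right h7 (Real.exp_pos _)

end Pool.Agent.TAD
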