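import Pool.Agent.TAD.Targets

set_option autoImplicit false

/-!
# MP_f3f922_nt, project TAD, job MEAN: the spectral bound for a bipartite graph with random signs
-/

open scoped Classical

noncomputable section

namespace Pool.Agent.TAD

open Finset

namespace MEAN_

/-- The block of the elements of `E` with `a n = α`. -/
def M (E : Finset ℕ) (a b c : ℕ → ℕ) (g : ℕ → ℂ) (α : ℕ) :
    Matrix ↥(E.image b) ↥(E.image c) ℂ := fun β γ =>
  ∑ n ∈ E, if a n = α ∧ b n = β ∧ c n = γ then g n else 0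

/-- The hermitian matrix of the block. -/
def F (E : Finset ℕ) (a b c : ℕ → ℕ) (g : ℕ → ℂ) (α : ℕ) :
    Matrix (↥(E.image b) ⊕ ↥(E.image c)) (↥(E.image b) ⊕ ↥(E.image c)) ℂ :=
  Matrix.fromBlocks 0 (M E a b c g α) (M E a b c g α).conjTranspose 0

lemma F_herm (E : Finset ℕ) (a b c : ℕ → ℕ) (g : ℕ → ℂ) (α : ℕ) :
    (F E a b c g α).IsHermitian := by
  unfold F Matrix.IsHermitian
  rw [Matrix.fromBlocks_conjTranspose]
  simp

lemma M_congr (E : Finset ℕ) (a b c : ℕ → ℕ) (g g' : ℕ → ℂ) (α : ℕ)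
    (h : ∀ n ∈ E, a n = α → g n = g' n) : M E a b c g α = M E a b c g' α := by
  funext β γ
  unfold M
  refine Finset.sum_congr rfl fun n hn => ?_
  split_ifs with h1
  · exact h n hn h1.1
  · rfl

lemma M_neg (E : Finset ℕ) (a b c : ℕ → ℕ) (g g' : ℕ → ℂ) (α : ℕ)
    (h : ∀ n ∈ E, a n = α → g n = - g' n) : M E a b c g α = - M E a b c g' α := by
  funext β γ
  simp only [M, Matrix.neg_apply]
  rw [← Finset.sum_neg_distrib]
  refine Finset.sum_congr rfl fun n hn => ?_
  split_ifs with h1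
  · exact h n hn h1.1
  · simp

lemma F_congr (E : Finset ℕ) (a b c : ℕ → ℕ) (g g' : ℕ → ℂ) (α : ℕ)
    (h : ∀ n ∈ E, a n = α → g n = g' n) : F E a b c g α = F E a b c g' α := by
  unfold F
  rw [M_congr E a b c g g' α h]

lemma F_neg (E : Finset ℕ) (a b c : ℕ → ℕ) (g g' : ℕ → ℂ) (α : ℕ)
    (h : ∀ n ∈ E, a n = α → g n = - g' n) : F E a b c g α = - F E a b c g' α := by
  unfold F
  rw [M_neg E a b c g g' α h, Matrix.fromBlocks_neg, Matrix.conjTranspose_neg]
  simp

lemma tri (κ E B C : Finset ℕ) (a b c : ℕ → ℕ) (g u v : ℕ → ℂ) (ha : ∀ n ∈ E, a n ∈ κ)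
    (hb : ∀ n ∈ E, b n ∈ B) (hc : ∀ n ∈ E, c n ∈ C) :
    ∑ α ∈ κ, ∑ β : ↥B, ∑ γ : ↥C,
      u β * (∑ n ∈ E, if a n = α ∧ b n = β ∧ c n = γ then g n else 0) * v γ =
    ∑ n ∈ E, u (b n) * g n * v (c n) := by
  have h1 : ∀ α : ℕ, ∑ β : ↥B, ∑ γ : ↥C,
      u β * (∑ n ∈ E, if a n = α ∧ b n = β ∧ c n = γ then g n else 0) * v γ =
      ∑ β ∈ B, ∑ γ ∈ C, ∑ n ∈ E,
        u β * (if a n = α ∧ b n = β ∧ c n = γ then g n else 0) * v γ := by
    intro α
    rw [← Finset.sum_coe_sort B]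
    refine Finset.sum_congr rfl fun β _ => ?_
    rw [← Finset.sum_coe_sort C]
    refine Finset.sum_congr rfl fun γ _ => ?_
    rw [Finset.mul_sum, Finset.sum_mul]
  have h2 : ∀ α : ℕ, ∑ β ∈ B, ∑ γ ∈ C, ∑ n ∈ E,
        u β * (if a n = α ∧ b n = β ∧ c n = γ then g n else 0) * v γ =
      ∑ n ∈ E, ∑ β ∈ B, ∑ γ ∈ C,
        u β * (if a n = α ∧ b n = β ∧ c n = γ then g n else 0) * v γ := by
    intro α
    rw [Finset.sum_comm' (s := E) (t := fun _ => B) (s' := fun _ => E) (t' := B)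
      (by simp)]
    refine Finset.sum_congr rfl fun β _ => ?_
    rw [Finset.sum_comm]
  simp_rw [h1, h2]
  rw [Finset.sum_comm]
  refine Finset.sum_congr rfl fun n hn => ?_
  rw [Finset.sum_eq_single_of_mem (a n) (ha n hn)]
  · rw [Finset.sum_eq_single_of_mem (b n) (hb n hn)]
    · rw [Finset.sum_eq_single_of_mem (c n) (hc n hn)]
      · simp
      · intro γ _ hγ
        rw [if_neg (fun h => hγ h.2.2.symm)]
        simp
    · intro β _ hβ
      refine Finset.sum_eq_zero fun γ _ => ?_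
      rw [if_neg (fun h => hβ h.2.1.symm)]
      simp
  · intro α _ hα
    refine Finset.sum_eq_zero fun β _ => Finset.sum_eq_zero fun γ _ => ?_
    rw [if_neg (fun h => hα h.1.symm)]
    simp

/-- The squared norms of the entries sum up to at most the number of elements. -/
lemma M_sq (E : Finset ℕ) (a b c : ℕ → ℕ) (g : ℕ → ℂ) (α : ℕ)
    (hg : ∀ n ∈ E, ‖g n‖ ≤ 1) (hi : ∀ n ∈ E, ∀ n' ∈ E, a n = a n' → b n = b n' → n = n')
    (β : ↥(E.image b)) (γ : ↥(E.image c)) :
    ‖M E a b c g α β γ‖ ^ 2 ≤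
      (∑ n ∈ E, if a n = α ∧ b n = β ∧ c n = γ then (1 : ℝ) else 0) := by
  by_cases h : ∃ n ∈ E, a n = α ∧ b n = β ∧ c n = γ
  · obtain ⟨n, hn, hn'⟩ := h
    have h1 : M E a b c g α β γ = g n := by
      unfold M
      rw [Finset.sum_eq_single_of_mem n hn, if_pos hn']
      intro m hm hmn
      rw [if_neg]
      intro h
      exact hmn (hi m hm n hn (h.1.trans hn'.1.symm) (h.2.1.trans hn'.2.1.symm))
    rw [h1]
    have h2 : (1 : ℝ) ≤ ∑ n ∈ E, if a n = α ∧ b n = β ∧ c n = γ then (1 : ℝ) else 0 := by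
      have := Finset.single_le_sum (s := E)
        (f := fun n => if a n = α ∧ b n = β ∧ c n = γ then (1 : ℝ) else 0)
        (fun i _ => by split_ifs <;> norm_num) hn
      rwa [if_pos hn'] at this
    refine le_trans ?_ h2
    have := hg n hn
    have h0 := norm_nonneg (g n)
    nlinarith
  · have h1 : M E a b c g α β γ = 0 := by
      unfold M
      refine Finset.sum_eq_zero fun n hn => ?_
      rw [if_neg]
      intro h'
      exact h ⟨n, hn, h'⟩
    rw [h1]
    simp only [norm_zero, ne_eq, OfNat.ofNat_ne_zero, not_false_eq_true, zero_pow]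
    exact Finset.sum_nonneg fun i _ => by split_ifs <;> norm_num

/-- The diagonal. -/
def dg (κ E : Finset ℕ) (a b c : ℕ → ℕ) (g : ℕ → ℂ) : ↥(E.image b) ⊕ ↥(E.image c) → ℝ :=
  Sum.elim (fun β => ∑ α ∈ κ, ∑ γ, ‖M E a b c g α β γ‖ ^ 2)
    (fun γ => ∑ α ∈ κ, ∑ β, ‖M E a b c g α β γ‖ ^ 2)

lemma M_ne (E : Finset ℕ) (a b c : ℕ → ℕ) (g : ℕ → ℂ) (α : ℕ)
    (β : ↥(E.image b)) (γ : ↥(E.image c)) (h : M E a b c g α β γ ≠ 0) :
    ∃ n ∈ E, a n = α ∧ b n = β ∧ c n = γ := by
  by_contra h'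
  apply h
  unfold M
  refine Finset.sum_eq_zero fun n hn => ?_
  rw [if_neg]
  intro h''
  exact h' ⟨n, hn, h''⟩

lemma F_mul (E : Finset ℕ) (a b c : ℕ → ℕ) (g : ℕ → ℂ) (α : ℕ)
    (hi : ∀ n ∈ E, ∀ n' ∈ E, a n = a n' → b n = b n' → n = n')
    (hj : ∀ n ∈ E, ∀ n' ∈ E, a n = a n' → c n = c n' → n = n') :
    F E a b c g α * F E a b c g α =
      Matrix.diagonal (Sum.elim (fun β => ((∑ γ, ‖M E a b c g α β γ‖ ^ 2 : ℝ) : ℂ))
        (fun γ => ((∑ β, ‖M E a b c g α β γ‖ ^ 2 : ℝ) : ℂ))) := by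
  unfold F
  rw [Matrix.fromBlocks_multiply]
  simp only [Matrix.mul_zero, Matrix.zero_mul, zero_add, add_zero]
  rw [← Matrix.fromBlocks_diagonal]
  have e1 : M E a b c g α * (M E a b c g α).conjTranspose =
      Matrix.diagonal (fun β => ((∑ γ, ‖M E a b c g α β γ‖ ^ 2 : ℝ) : ℂ)) := by
    ext β β'
    rw [Matrix.mul_apply]
    by_cases hβ : β = β'
    · subst hβ
      rw [Matrix.diagonal_apply_eq]
      push_cast
      refine Finset.sum_congr rfl fun γ _ => ?_
      rw [Matrix.conjTranspose_apply, Complex.star_def, Complex.mul_conj, Complex.normSq_eq_norm_sq]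
      push_cast
      rfl
    · rw [Matrix.diagonal_apply_ne _ hβ]
      refine Finset.sum_eq_zero fun γ _ => ?_
      rw [Matrix.conjTranspose_apply]
      by_contra h
      have h1 : M E a b c g α β γ ≠ 0 := left_ne_zero_of_mul h
      have h2 : M E a b c g α β' γ ≠ 0 := by
        intro h3
        apply h
        rw [h3]
        simp
      obtain ⟨n, hn, ha, hb, hc⟩ := M_ne _ _ _ _ _ _ _ _ h1
      obtain ⟨m, hm, ha', hb', hc'⟩ := M_ne _ _ _ _ _ _ _ _ h2
      have := hj n hn m hm (ha.trans ha'.symm) (hc.trans hc'.symm)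
      subst this
      exact hβ (Subtype.ext (hb.symm.trans hb'))
  have e2 : (M E a b c g α).conjTranspose * M E a b c g α =
      Matrix.diagonal (fun γ => ((∑ β, ‖M E a b c g α β γ‖ ^ 2 : ℝ) : ℂ)) := by
    ext γ γ'
    rw [Matrix.mul_apply]
    by_cases hγ : γ = γ'
    · subst hγ
      rw [Matrix.diagonal_apply_eq]
      push_cast
      refine Finset.sum_congr rfl fun β _ => ?_
      rw [Matrix.conjTranspose_apply, mul_comm, Complex.star_def, Complex.mul_conj,
        Complex.normSq_eq_norm_sq]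
      push_cast
      rfl
    · rw [Matrix.diagonal_apply_ne _ hγ]
      refine Finset.sum_eq_zero fun β _ => ?_
      rw [Matrix.conjTranspose_apply]
      by_contra h
      have h1 : M E a b c g α β γ' ≠ 0 := right_ne_zero_of_mul h
      have h2 : M E a b c g α β γ ≠ 0 := by
        intro h3
        apply h
        rw [h3]
        simp
      obtain ⟨n, hn, ha, hb, hc⟩ := M_ne _ _ _ _ _ _ _ _ h1
      obtain ⟨m, hm, ha', hb', hc'⟩ := M_ne _ _ _ _ _ _ _ _ h2
      have := hi n hn m hm (ha.trans ha'.symm) (hb.trans hb'.symm)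
      subst this
      exact hγ (Subtype.ext (hc'.symm.trans hc))
  rw [e1, e2]

lemma dg_eq (κ E : Finset ℕ) (a b c : ℕ → ℕ) (g : ℕ → ℂ)
    (hi : ∀ n ∈ E, ∀ n' ∈ E, a n = a n' → b n = b n' → n = n')
    (hj : ∀ n ∈ E, ∀ n' ∈ E, a n = a n' → c n = c n' → n = n') :
    ∑ α ∈ κ, F E a b c g α * F E a b c g α =
      Matrix.diagonal (fun v => (dg κ E a b c g v : ℂ)) := by
  rw [Finset.sum_congr rfl fun α _ => F_mul E a b c g α hi hj]
  ext v w
  rw [Matrix.sum_apply]
  by_cases h : v = w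
  · subst h
    simp only [Matrix.diagonal_apply_eq]
    rcases v with β | γ
    · simp only [Sum.elim_inl, dg]
      push_cast
      rfl
    · simp only [Sum.elim_inr, dg]
      push_cast
      rfl
  · simp only [Matrix.diagonal_apply_ne _ h, Finset.sum_const_zero]

/-- Double counting. -/
lemma cnt (κ E C : Finset ℕ) (a b c : ℕ → ℕ) (k : ℕ) (ha : ∀ n ∈ E, a n ∈ κ)
    (hc : ∀ n ∈ E, c n ∈ C) :
    ∑ α ∈ κ, ∑ γ : ↥C, (∑ n ∈ E, if a n = α ∧ b n = k ∧ c n = γ then (1 : ℝ) else 0) =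
      #(E.filter (fun n => b n = k)) := by
  have h1 : ∀ α : ℕ, ∑ γ : ↥C, (∑ n ∈ E, if a n = α ∧ b n = k ∧ c n = γ then (1 : ℝ) else 0) =
      ∑ n ∈ E, ∑ γ ∈ C, (if a n = α ∧ b n = k ∧ c n = γ then (1 : ℝ) else 0) := by
    intro α
    rw [Finset.sum_comm]
    refine Finset.sum_congr rfl fun n _ => ?_
    rw [← Finset.sum_coe_sort C]
  simp_rw [h1]
  rw [Finset.sum_comm, Finset.card_eq_sum_ones, Finset.sum_filter]
  push_cast
  refine Finset.sum_congr rfl fun n hn => ?_
  rw [Finset.sum_eq_single_of_mem (a n) (ha n hn)]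
  · rw [Finset.sum_eq_single_of_mem (c n) (hc n hn)]
    · simp
    · intro γ _ hγ
      rw [if_neg (fun h => hγ h.2.2.symm)]
  · intro α _ hα
    refine Finset.sum_eq_zero fun γ _ => ?_
    rw [if_neg (fun h => hα h.1.symm)]

lemma dg_le (κ E : Finset ℕ) (a b c : ℕ → ℕ) (g : ℕ → ℂ) (Δ : ℕ) (ha : ∀ n ∈ E, a n ∈ κ)
    (hg : ∀ n ∈ E, ‖g n‖ ≤ 1)
    (hi : ∀ n ∈ E, ∀ n' ∈ E, a n = a n' → b n = b n' → n = n')
    (hb : ∀ n ∈ E, #(E.filter (fun n' => b n' = b n)) ≤ Δ)
    (hc : ∀ n ∈ E, #(E.filter (fun n' => c n' = c n)) ≤ Δ) (v) :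
    dg κ E a b c g v ≤ Δ := by
  rcases v with β | γ
  · simp only [dg, Sum.elim_inl]
    obtain ⟨n, hn, hnb⟩ := Finset.mem_image.mp β.2
    calc ∑ α ∈ κ, ∑ γ, ‖M E a b c g α β γ‖ ^ 2
        ≤ ∑ α ∈ κ, ∑ γ : ↥(E.image c),
            (∑ n ∈ E, if a n = α ∧ b n = β ∧ c n = γ then (1 : ℝ) else 0) :=
          Finset.sum_le_sum fun α _ => Finset.sum_le_sum fun γ _ => M_sq E a b c g α hg hi β γ
      _ = #(E.filter (fun n => b n = β)) :=
          cnt κ E (E.image c) a b c β ha (fun n hn => Finset.mem_image_of_mem _ hn)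
      _ ≤ Δ := by
          rw [← hnb]
          exact_mod_cast hb n hn
  · simp only [dg, Sum.elim_inr]
    obtain ⟨n, hn, hnc⟩ := Finset.mem_image.mp γ.2
    calc ∑ α ∈ κ, ∑ β, ‖M E a b c g α β γ‖ ^ 2
        ≤ ∑ α ∈ κ, ∑ β : ↥(E.image b),
            (∑ n ∈ E, if a n = α ∧ c n = γ ∧ b n = β then (1 : ℝ) else 0) := by
          refine Finset.sum_le_sum fun α _ => Finset.sum_le_sum fun β _ => ?_
          refine (M_sq E a b c g α hg hi β γ).trans (le_of_eq ?_)
          refine Finset.sum_congr rfl fun n _ => ?_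
          by_cases h1 : a n = α <;> by_cases h2 : b n = β <;> by_cases h3 : c n = γ <;>
            simp [h1, h2, h3]
      _ = #(E.filter (fun n => c n = γ)) :=
          cnt κ E (E.image b) a c b γ ha (fun n hn => Finset.mem_image_of_mem _ hn)
      _ ≤ Δ := by
          rw [← hnc]
          exact_mod_cast hc n hn

/-- The quadratic form of one block. -/
lemma quad (E : Finset ℕ) (a b c : ℕ → ℕ) (g : ℕ → ℂ) (α : ℕ) (u v : ℕ → ℂ) :
    (dotProduct (star (Sum.elim (fun β : ↥(E.image b) => u β)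
        (fun γ : ↥(E.image c) => v γ)))
      ((F E a b c g α).mulVec (Sum.elim (fun β : ↥(E.image b) => u β)
        (fun γ : ↥(E.image c) => v γ)))).re =
      2 * (∑ β : ↥(E.image b), ∑ γ : ↥(E.image c),
        (starRingEnd ℂ (u β)) * M E a b c g α β γ * v γ).re := by
  have h1 : dotProduct (star (Sum.elim (fun β : ↥(E.image b) => u β)
        (fun γ : ↥(E.image c) => v γ)))
      ((F E a b c g α).mulVec (Sum.elim (fun β : ↥(E.image b) => u β)
        (fun γ : ↥(E.image c) => v γ))) =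
      (∑ β : ↥(E.image b), ∑ γ : ↥(E.image c),
        (starRingEnd ℂ (u β)) * M E a b c g α β γ * v γ) +
      (starRingEnd ℂ) (∑ β : ↥(E.image b), ∑ γ : ↥(E.image c),
        (starRingEnd ℂ (u β)) * M E a b c g α β γ * v γ) := by
    unfold F dotProduct
    rw [Fintype.sum_sum_type]
    congr 1
    · refine Finset.sum_congr rfl fun β _ => ?_
      simp only [Pi.star_apply, Sum.elim_inl, Matrix.mulVec, dotProduct, Fintype.sum_sum_type,
        Matrix.fromBlocks_apply₁₁, Matrix.fromBlocks_apply₁₂, Matrix.zero_apply, zero_mul,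
        Finset.sum_const_zero, zero_add, Sum.elim_inr, Finset.mul_sum]
      refine Finset.sum_congr rfl fun γ _ => ?_
      rw [Complex.star_def]
      ring
    · rw [map_sum]
      simp only [map_sum]
      rw [Finset.sum_comm]
      refine Finset.sum_congr rfl fun γ _ => ?_
      simp only [Pi.star_apply, Sum.elim_inr, Matrix.mulVec, dotProduct, Fintype.sum_sum_type,
        Matrix.fromBlocks_apply₂₁, Matrix.fromBlocks_apply₂₂, Matrix.zero_apply, zero_mul,
        Finset.sum_const_zero, add_zero, Sum.elim_inl, Finset.mul_sum]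
      refine Finset.sum_congr rfl fun β _ => ?_
      rw [Matrix.conjTranspose_apply, Complex.star_def]
      simp only [map_mul, Complex.conj_conj]
      ring
  rw [h1, Complex.add_re, Complex.conj_re]
  ring

/-- The bilinear form is bounded by the spectral norm. -/
lemma bil (hOPN : T_OPN) (κ E : Finset ℕ) (a b c : ℕ → ℕ) (g : ℕ → ℂ) (p : ℕ) (L : ℝ)
    (ha : ∀ n ∈ E, a n ∈ κ) (hp : 1 ≤ p) (hL : 0 ≤ L) (hE : E.Nonempty)
    (htr : (Matrix.trace ((∑ α ∈ κ, F E a b c g α) ^ (2 * p))).re ≤ L ^ (2 * p))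
    (x y : ℕ → ℂ) (hx : Bd x) (hy : Bd y) :
    ‖∑ n ∈ E, g n * x (b n) * y (c n)‖ ≤
      Real.sqrt (#(E.image b) * #(E.image c)) * L := by
  set Sg := ∑ n ∈ E, g n * x (b n) * y (c n) with hSg
  -- the phase
  obtain ⟨ω, hω1, hω2⟩ : ∃ ω : ℂ, ‖ω‖ = 1 ∧ ω * Sg = (‖Sg‖ : ℂ) := by
    by_cases h : Sg = 0
    · exact ⟨1, by simp, by simp [h]⟩
    · refine ⟨(starRingEnd ℂ) Sg / ‖Sg‖, ?_, ?_⟩
      · rw [norm_div, Complex.norm_conj, Complex.norm_real, Real.norm_of_nonneg (norm_nonneg _),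
          div_self (norm_ne_zero_iff.mpr h)]
      · rw [div_mul_eq_mul_div, mul_comm ((starRingEnd ℂ) Sg), Complex.mul_conj,
          Complex.normSq_eq_norm_sq, div_eq_iff (by exact_mod_cast norm_ne_zero_iff.mpr h)]
        push_cast
        ring
  have hB : (0 : ℝ) < #(E.image b) := by
    exact_mod_cast Finset.card_pos.mpr (hE.image b)
  have hC : (0 : ℝ) < #(E.image c) := by
    exact_mod_cast Finset.card_pos.mpr (hE.image c)
  set B : ℝ := (#(E.image b) : ℝ) with hBdef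
  set C : ℝ := (#(E.image c) : ℝ) with hCdef
  -- the scale
  set t : ℝ := Real.sqrt (Real.sqrt (C / B)) with ht
  have hsq : 0 < Real.sqrt (C / B) := Real.sqrt_pos.mpr (div_pos hC hB)
  have htpos : 0 < t := Real.sqrt_pos.mpr hsq
  have ht2 : t ^ 2 = Real.sqrt (C / B) := Real.sq_sqrt hsq.le
  have hcb : Real.sqrt (C / B) = Real.sqrt C / Real.sqrt B := Real.sqrt_div hC.le B
  have hsB : 0 < Real.sqrt B := Real.sqrt_pos.mpr hB
  have hsC : 0 < Real.sqrt C := Real.sqrt_pos.mpr hC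
  have hB2 : Real.sqrt B * Real.sqrt B = B := Real.mul_self_sqrt hB.le
  have hC2 : Real.sqrt C * Real.sqrt C = C := Real.mul_self_sqrt hC.le
  have hbc : Real.sqrt (B * C) = Real.sqrt B * Real.sqrt C := Real.sqrt_mul hB.le C
  set u : ℕ → ℂ := fun m => (t : ℂ) * (starRingEnd ℂ) (ω * x m) with hu
  set v : ℕ → ℂ := fun m => (t : ℂ)⁻¹ * y m with hv
  have htc : (t : ℂ) ≠ 0 := by exact_mod_cast htpos.ne'
  have key := hOPN (↥(E.image b) ⊕ ↥(E.image c)) (∑ α ∈ κ, F E a b c g α) p L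
    (by
      unfold Matrix.IsHermitian
      rw [Matrix.conjTranspose_sum]
      exact Finset.sum_congr rfl fun α _ => F_herm E a b c g α) hp hL htr
    (Sum.elim (fun β : ↥(E.image b) => u β) (fun γ : ↥(E.image c) => v γ))
  have e1 : (dotProduct (star (Sum.elim (fun β : ↥(E.image b) => u β)
        (fun γ : ↥(E.image c) => v γ)))
      ((∑ α ∈ κ, F E a b c g α).mulVec (Sum.elim (fun β : ↥(E.image b) => u β)
        (fun γ : ↥(E.image c) => v γ)))).re = 2 * ‖Sg‖ := by
    rw [Matrix.sum_mulVec, dotProduct_sum, Complex.re_sum,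
      Finset.sum_congr rfl fun α _ => quad E a b c g α u v, ← Finset.mul_sum,
      ← Complex.re_sum]
    have := tri κ E (E.image b) (E.image c) a b c g (fun m => (starRingEnd ℂ) (u m)) v ha
      (fun n hn => Finset.mem_image_of_mem _ hn) (fun n hn => Finset.mem_image_of_mem _ hn)
    have e2 : ∑ α ∈ κ, ∑ β : ↥(E.image b), ∑ γ : ↥(E.image c),
        (starRingEnd ℂ (u β)) * M E a b c g α β γ * v γ = ω * Sg := by
      unfold M
      rw [this, hSg, Finset.mul_sum]
      refine Finset.sum_congr rfl fun n _ => ?_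
      simp only [hu, hv, map_mul, Complex.conj_conj, Complex.conj_ofReal]
      field_simp
    rw [e2, hω2, Complex.ofReal_re]
  rw [e1, Fintype.sum_sum_type] at key
  simp only [Sum.elim_inl, Sum.elim_inr] at key
  have e3 : ∑ β : ↥(E.image b), ‖u β‖ ^ 2 ≤ B * t ^ 2 := by
    calc ∑ β : ↥(E.image b), ‖u β‖ ^ 2 ≤ ∑ β : ↥(E.image b), t ^ 2 := by
          refine Finset.sum_le_sum fun β _ => ?_
          simp only [hu]
          rw [norm_mul, Complex.norm_conj, norm_mul, hω1, one_mul, Complex.norm_real,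
            Real.norm_of_nonneg htpos.le, mul_pow]
          have h1 := hx (β : ℕ)
          have h0 := norm_nonneg (x (β : ℕ))
          have h2 : ‖x (β : ℕ)‖ ^ 2 ≤ 1 := by nlinarith
          have h3 : 0 ≤ t ^ 2 := sq_nonneg t
          nlinarith
      _ = B * t ^ 2 := by
          rw [Finset.sum_const, Finset.card_univ, Fintype.card_coe, nsmul_eq_mul]
  have e4 : ∑ γ : ↥(E.image c), ‖v γ‖ ^ 2 ≤ C * (t⁻¹) ^ 2 := by
    calc ∑ γ : ↥(E.image c), ‖v γ‖ ^ 2 ≤ ∑ γ : ↥(E.image c), (t⁻¹) ^ 2 := by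
          refine Finset.sum_le_sum fun γ _ => ?_
          simp only [hv]
          rw [norm_mul, norm_inv, Complex.norm_real, Real.norm_of_nonneg htpos.le, mul_pow]
          have h1 := hy (γ : ℕ)
          have h0 := norm_nonneg (y (γ : ℕ))
          have h2 : ‖y (γ : ℕ)‖ ^ 2 ≤ 1 := by nlinarith
          have h3 : 0 ≤ (t⁻¹) ^ 2 := sq_nonneg _
          nlinarith
      _ = C * (t⁻¹) ^ 2 := by
          rw [Finset.sum_const, Finset.card_univ, Fintype.card_coe, nsmul_eq_mul]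
  have e5 : B * t ^ 2 + C * (t⁻¹) ^ 2 = 2 * Real.sqrt (B * C) := by
    rw [inv_pow, ht2, hcb, hbc]
    field_simp
    rw [← hB2, ← hC2]
    simp only [Real.sqrt_mul_self hsB.le, Real.sqrt_mul_self hsC.le]
    ring
  have e6 : L * (∑ β : ↥(E.image b), ‖u β‖ ^ 2 + ∑ γ : ↥(E.image c), ‖v γ‖ ^ 2) ≤
      L * (2 * Real.sqrt (B * C)) := by
    refine mul_le_mul_of_nonneg_left ?_ hL
    linarith
  linarith

lemma tr_nonneg {V : Type} [Fintype V] [DecidableEq V] (H : Matrix V V ℂ) (hH : H.IsHermitian)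
    (p : ℕ) : 0 ≤ (Matrix.trace (H ^ (2 * p))).re := by
  have h1 : H ^ (2 * p) = (H ^ p).conjTranspose * H ^ p := by
    rw [Matrix.conjTranspose_pow, hH, ← pow_add, two_mul]
  rw [h1]
  unfold Matrix.trace
  rw [Complex.re_sum]
  refine Finset.sum_nonneg fun i _ => ?_
  rw [Matrix.diag_apply, Matrix.mul_apply, Complex.re_sum]
  refine Finset.sum_nonneg fun j _ => ?_
  rw [Matrix.conjTranspose_apply, mul_comm, Complex.star_def, Complex.mul_conj, Complex.ofReal_re]
  exact Complex.normSq_nonneg _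

end MEAN_

open MEAN_ in
theorem p_MEAN : T_STEP → T_OPN → T_MEAN := by
  intro hSTEP hOPN S κ E a b c σ p Δ hκ hp hσ haκ hsgn hi hj hdb hdc hcard
  rcases E.eq_empty_or_nonempty with rfl | hE
  · refine ⟨fun _ => 0, fun T _ x y _ _ => by simp, ?_⟩
    simp
  -- the matrices
  set V := ↥(E.image b) ⊕ ↥(E.image c) with hV
  let FF : ℕ → Finset ℕ → Matrix V V ℂ := fun α T => F E a b c (σ T) α
  let H : Finset ℕ → Matrix V V ℂ := fun T => ∑ α ∈ κ, FF α T
  have hHherm : ∀ T, (H T).IsHermitian := by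
    intro T
    unfold Matrix.IsHermitian
    rw [Matrix.conjTranspose_sum]
    exact Finset.sum_congr rfl fun α _ => F_herm E a b c (σ T) α
  set n0 : ℝ := #(E.image b) + #(E.image c) with hn0
  have hn0nn : 0 ≤ n0 := by positivity
  have hstep := hSTEP V S κ FF (fun T => dg κ E a b c (σ T)) Δ hκ (Nat.cast_nonneg _)
    (fun α _ T _ => F_herm E a b c (σ T) α)
    (by
      intro α hα T hT
      refine F_neg E a b c _ _ α fun n hn hna => ?_
      rw [hsgn T hT n hn α hα, if_pos hna.symm])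
    (by
      intro α hα α' hα' hne T hT
      refine F_congr E a b c _ _ α fun n hn hna => ?_
      rw [hsgn T hT n hn α' hα', if_neg]
      rintro rfl
      exact hne hna.symm)
    (fun T _ => dg_eq κ E a b c (σ T) hi hj)
    (fun T hT v => dg_le κ E a b c (σ T) Δ haκ (hσ T hT) hi hdb hdc v)
  have hmom : ∀ q : ℕ, q ≤ p → ∑ T ∈ S.powerset, (Matrix.trace ((H T) ^ (2 * q))).re ≤
      2 ^ #S * ((2 * p * Δ) ^ q * n0) := by
    intro q
    induction q with
    | zero =>
      intro _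
      have h1 : ∀ T ∈ S.powerset, (Matrix.trace ((H T) ^ (2 * 0))).re = n0 := by
        intro T _
        rw [mul_zero, pow_zero, Matrix.trace_one]
        rw [hn0, Fintype.card_sum, Fintype.card_coe, Fintype.card_coe]
        push_cast
        simp
      rw [Finset.sum_congr rfl h1, Finset.sum_const, Finset.card_powerset, nsmul_eq_mul]
      push_cast
      rw [pow_zero, one_mul]
    | succ q ih =>
      intro hq
      have h1 := hstep q
      have h2 := ih (by omega)
      have h3 : (2 * (q : ℝ) + 1) ≤ 2 * p := by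
        have : ((q + 1 : ℕ) : ℝ) ≤ p := by exact_mod_cast hq
        push_cast at this
        linarith
      have hΔ : (0 : ℝ) ≤ Δ := Nat.cast_nonneg _
      calc ∑ T ∈ S.powerset, (Matrix.trace ((H T) ^ (2 * (q + 1)))).re
          ≤ (2 * q + 1) * Δ * ∑ T ∈ S.powerset, (Matrix.trace ((H T) ^ (2 * q))).re := h1
        _ ≤ (2 * q + 1) * Δ * (2 ^ #S * ((2 * p * Δ) ^ q * n0)) :=
            mul_le_mul_of_nonneg_left h2 (by positivity)
        _ ≤ (2 * p) * Δ * (2 ^ #S * ((2 * p * Δ) ^ q * n0)) := by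
            refine mul_le_mul_of_nonneg_right ?_ (by positivity)
            exact mul_le_mul_of_nonneg_right h3 hΔ
        _ = 2 ^ #S * ((2 * p * Δ) ^ (q + 1) * n0) := by ring
  -- the bound
  set L : Finset ℕ → ℝ := fun T =>
    ((Matrix.trace ((H T) ^ (2 * p))).re) ^ (((2 * p : ℕ) : ℝ)⁻¹) with hLdef
  have hLnn : ∀ T, 0 ≤ L T := fun T => Real.rpow_nonneg (tr_nonneg _ (hHherm T) p) _
  have hLpow : ∀ T, L T ^ (2 * p) = (Matrix.trace ((H T) ^ (2 * p))).re := fun T =>
    Real.rpow_inv_natCast_pow (tr_nonneg _ (hHherm T) p) (by omega)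
  refine ⟨fun T => Real.sqrt (#(E.image b) * #(E.image c)) * L T, ?_, ?_⟩
  · intro T hT x y hx hy
    exact bil hOPN κ E a b c (σ T) p (L T) haκ hp (hLnn T) hE (hLpow T).ge x y hx hy
  · rw [← Finset.mul_sum]
    have hm : ∑ T ∈ S.powerset, L T ≤ 2 ^ #S * (2 * Real.sqrt (2 * p * Δ)) := by
      have h1 := pow_sum_div_card_le_sum_pow (s := S.powerset) (f := L)
        (fun T _ => hLnn T) (2 * p - 1)
      rw [show 2 * p - 1 + 1 = 2 * p by omega, Finset.card_powerset] at h1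
      have h2 : ∑ T ∈ S.powerset, L T ^ (2 * p) ≤ 2 ^ #S * ((2 * p * Δ) ^ p * 4 ^ p) := by
        rw [Finset.sum_congr rfl fun T _ => hLpow T]
        refine (hmom p le_rfl).trans ?_
        have h3 : n0 ≤ 4 ^ p := by
          rw [hn0]
          exact_mod_cast hcard
        gcongr
      have h4 : (∑ T ∈ S.powerset, L T) ^ (2 * p) ≤
          (2 ^ #S * (2 * Real.sqrt (2 * p * Δ))) ^ (2 * p) := by
        have h5 := h1.trans h2
        rw [div_le_iff₀ (by positivity)] at h5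
        refine h5.trans (le_of_eq ?_)
        have h6 : (2 * Real.sqrt (2 * p * Δ)) ^ (2 * p) = (2 * p * Δ) ^ p * 4 ^ p := by
          rw [pow_mul, mul_pow, Real.sq_sqrt (by positivity), mul_pow]
          norm_num
          ring
        have h7 : ((2 : ℝ) ^ #S) ^ (2 * p) = 2 ^ #S * (((2 ^ #S : ℕ) : ℝ)) ^ (2 * p - 1) := by
          push_cast
          rw [← pow_succ']
          congr 1
          omega
        rw [mul_pow ((2 : ℝ) ^ #S) (2 * Real.sqrt (2 * p * Δ)), h6, h7]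
        ring
      exact le_of_pow_le_pow_left₀ (by omega) (by positivity) h4
    refine (mul_le_mul_of_nonneg_left hm (Real.sqrt_nonneg _)).trans (le_of_eq ?_)
    rw [show (2 * (p : ℝ) * Δ * #(E.image b) * #(E.image c)) =
      (#(E.image b) * #(E.image c)) * (2 * p * Δ) by ring,
      Real.sqrt_mul (show (0 : ℝ) ≤ #(E.image b) * #(E.image c) by positivity) (2 * p * Δ)]
    ring

end Pool.Agent.TAD
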