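import Pool.Agent.TAD.Targets

set_option autoImplicit false

open scoped Classical

namespace Pool.Agent.TAD

open Finset

namespace NET_

theorem net (δ : ℝ) (hδ : 0 < δ) : ∃ G : Finset ℂ, G.Nonempty ∧ (∀ z ∈ G, ‖z‖ ≤ 1) ∧
    ∀ z : ℂ, ‖z‖ ≤ 1 → ∃ w ∈ G, ‖z - w‖ ≤ δ := by
  have hc : IsCompact (Metric.closedBall (0:ℂ) 1) := isCompact_closedBall 0 1
  obtain ⟨t, htsub, htfin, hcov⟩ := hc.finite_cover_balls hδ
  have key : ∀ z : ℂ, ‖z‖ ≤ 1 → ∃ w ∈ htfin.toFinset, ‖z - w‖ ≤ δ := by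
    intro z hz
    have hz' : z ∈ Metric.closedBall (0:ℂ) 1 := by simpa using hz
    have := hcov hz'
    simp only [Set.mem_iUnion, exists_prop] at this
    obtain ⟨w, hw, hzw⟩ := this
    refine ⟨w, htfin.mem_toFinset.mpr hw, ?_⟩
    rw [Metric.mem_ball, dist_eq_norm] at hzw
    exact hzw.le
  refine ⟨htfin.toFinset, ?_, ?_, key⟩
  · obtain ⟨w, hw, -⟩ := key 0 (by simp)
    exact ⟨w, hw⟩
  · intro z hz
    have := htsub (htfin.mem_toFinset.mp hz)
    simpa using this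

end NET_

theorem p_NET : T_NET := by
  intro δ hδ
  obtain ⟨G, hGne, hG1, hGn⟩ := NET_.net δ hδ
  refine ⟨#G, Finset.card_pos.mpr hGne, fun R => ?_⟩
  refine ⟨(R.pi (fun _ => G)).image (fun f n => if h : n ∈ R then f n h else 0), ?_, ?_, ?_⟩
  · calc _ ≤ #(R.pi (fun _ => G)) := Finset.card_image_le
      _ = #G ^ #R := by rw [Finset.card_pi, Finset.prod_const]
  · intro α hα m
    rw [Finset.mem_image] at hα
    obtain ⟨f, hf, rfl⟩ := hα
    rw [Finset.mem_pi] at hf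
    by_cases h : m ∈ R
    · simp only [h, dif_pos]
      exact hG1 _ (hf m h)
    · simp [h]
  · intro u hu
    choose w hwG hw using fun r => hGn (u r) (hu r)
    refine ⟨fun n => if h : n ∈ R then w n else 0, ?_, ?_⟩
    · rw [Finset.mem_image]
      exact ⟨fun r _ => w r, Finset.mem_pi.mpr fun r _ => hwG r, rfl⟩
    · intro r hr
      simp only [hr, dif_pos]
      exact hw r

end Pool.Agent.TAD
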