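import Pool.Agent.TAD.Targets2

set_option autoImplicit false

open scoped Classical

noncomputable section

namespace Pool.Agent.TAD

open Finset

namespace NETK_

theorem prod_le {ι : Type*} (s : Finset ι) (u : ι → ℂ) (hu : ∀ i ∈ s, ‖u i‖ ≤ 1) :
    ‖∏ i ∈ s, u i‖ ≤ 1 := by
  rw [norm_prod]
  exact prod_le_one (fun _ _ => norm_nonneg _) hu

theorem prod_sub {ι : Type*} (s : Finset ι) (u w : ι → ℂ) (hu : ∀ i ∈ s, ‖u i‖ ≤ 1)
    (hw : ∀ i ∈ s, ‖w i‖ ≤ 1) : ‖∏ i ∈ s, u i - ∏ i ∈ s, w i‖ ≤ ∑ i ∈ s, ‖u i - w i‖ := by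
  induction s using Finset.induction_on with
  | empty => simp
  | insert a s ha ih =>
    rw [prod_insert ha, prod_insert ha, sum_insert ha]
    have h1 := ih (fun i hi => hu i (mem_insert_of_mem hi)) (fun i hi => hw i (mem_insert_of_mem hi))
    have h2 : ‖∏ i ∈ s, u i‖ ≤ 1 := prod_le s u (fun i hi => hu i (mem_insert_of_mem hi))
    have h3 := hw a (mem_insert_self a s)
    have e : u a * ∏ i ∈ s, u i - w a * ∏ i ∈ s, w i =
        (u a - w a) * ∏ i ∈ s, u i + w a * (∏ i ∈ s, u i - ∏ i ∈ s, w i) := by ring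
    rw [e]
    calc ‖(u a - w a) * ∏ i ∈ s, u i + w a * (∏ i ∈ s, u i - ∏ i ∈ s, w i)‖
        ≤ ‖(u a - w a) * ∏ i ∈ s, u i‖ + ‖w a * (∏ i ∈ s, u i - ∏ i ∈ s, w i)‖ := norm_add_le _ _
      _ = ‖u a - w a‖ * ‖∏ i ∈ s, u i‖ + ‖w a‖ * ‖∏ i ∈ s, u i - ∏ i ∈ s, w i‖ := by
          rw [norm_mul, norm_mul]
      _ ≤ ‖u a - w a‖ * 1 + 1 * ∑ i ∈ s, ‖u i - w i‖ := by
          have h4 := norm_nonneg (u a - w a)
          have h5 := norm_nonneg (∏ i ∈ s, u i - ∏ i ∈ s, w i)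
          gcongr
      _ = _ := by ring

theorem card_pf (m : ℕ) (hm : m ≠ 0) : #m.primeFactors ≤ Nat.log 2 m := by
  apply Nat.le_log_of_pow_le (by norm_num)
  calc 2 ^ #m.primeFactors ≤ ∏ p ∈ m.primeFactors, p := by
        apply Finset.pow_card_le_prod
        intro p hp
        exact (Nat.prime_of_mem_primeFactors hp).two_le
    _ ≤ m := Nat.le_of_dvd (Nat.pos_of_ne_zero hm) (Nat.prod_primeFactors_dvd m)

theorem fact_le (m p : ℕ) (hm : m ≠ 0) (hp : p.Prime) : m.factorization p ≤ Nat.log 2 m := by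
  apply Nat.le_log_of_pow_le (by norm_num)
  calc 2 ^ m.factorization p ≤ p ^ m.factorization p := Nat.pow_le_pow_left hp.two_le _
    _ ≤ m := Nat.ordProj_le p hm

/-- the extension of the table -/
def ex (k Y' E : ℕ) (ψ : Fin k × Fin (Y' + 1) × Fin (E + 1) → ℂ) (j : Fin k) (p e : ℕ) : ℂ :=
  if h : p < Y' + 1 ∧ e < E + 1 then ψ (j, ⟨p, h.1⟩, ⟨e, h.2⟩) else 0

/-- the local factor -/
def fa (k Y' E : ℕ) (g : Fin k → ℕ → ℂ) (ψ : Fin k × Fin (Y' + 1) × Fin (E + 1) → ℂ)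
    (j : Fin k) (m p : ℕ) : ℂ :=
  if p ≤ Y' then ex k Y' E ψ j p (m.factorization p) else g j (p ^ m.factorization p)

/-- the function attached to a table -/
def WW (k Y' E : ℕ) (hs : Fin k → ℕ) (g : Fin k → ℕ → ℂ)
    (ψ : Fin k × Fin (Y' + 1) × Fin (E + 1) → ℂ) (n : ℕ) : ℂ :=
  ∏ j, ∏ p ∈ (n + hs j).primeFactors, fa k Y' E g ψ j (n + hs j) p

theorem ex_le (k Y' E : ℕ) (ψ : Fin k × Fin (Y' + 1) × Fin (E + 1) → ℂ) (hψ : ∀ q, ‖ψ q‖ ≤ 1)
    (j : Fin k) (p e : ℕ) : ‖ex k Y' E ψ j p e‖ ≤ 1 := by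
  unfold ex
  split_ifs with h
  · exact hψ _
  · simp

theorem fa_le (k Y' E : ℕ) (g : Fin k → ℕ → ℂ) (hg : ∀ j n, ‖g j n‖ ≤ 1)
    (ψ : Fin k × Fin (Y' + 1) × Fin (E + 1) → ℂ) (hψ : ∀ q, ‖ψ q‖ ≤ 1)
    (j : Fin k) (m p : ℕ) : ‖fa k Y' E g ψ j m p‖ ≤ 1 := by
  unfold fa
  split_ifs with h
  · exact ex_le _ _ _ _ hψ _ _ _
  · exact hg _ _

theorem appr (k Y' E N H m0 : ℕ) (hs : Fin k → ℕ) (g : Fin k → ℕ → ℂ) (hg : ∀ j n, ‖g j n‖ ≤ 1)
    (ψ : Fin k × Fin (Y' + 1) × Fin (E + 1) → ℂ) (hψ : ∀ q, ‖ψ q‖ ≤ 1)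
    (hH : ∀ j, hs j ≤ H) (hE : Nat.log 2 (N + H) ≤ E) (f : Fin k → ArithmeticFunction ℂ)
    (hf : ∀ j, (f j).IsMultiplicative) (hf1 : ∀ j n, ‖f j n‖ ≤ 1)
    (hfg : ∀ (j : Fin k) (p e : ℕ), p.Prime → Y' < p → f j (p ^ e) = g j (p ^ e))
    (hap : ∀ q : Fin k × Fin (Y' + 1) × Fin (E + 1),
      ‖f q.1 ((q.2.1 : ℕ) ^ (q.2.2 : ℕ)) - ψ q‖ ≤ 2 / m0) (n : ℕ) (hn : n ∈ Icc 1 N) :
    ‖∏ j, f j (n + hs j) - WW k Y' E hs g ψ n‖ ≤ k * (E * (2 / m0)) := by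
  rw [mem_Icc] at hn
  have h20 : (0 : ℝ) ≤ 2 / (m0 : ℝ) := by positivity
  have key : ∀ j : Fin k, ‖f j (n + hs j) -
      ∏ p ∈ (n + hs j).primeFactors, fa k Y' E g ψ j (n + hs j) p‖ ≤ E * (2 / m0) := by
    intro j
    set m := n + hs j with hm
    have hm0 : m ≠ 0 := by omega
    have hmM : m ≤ N + H := by
      have := hH j
      omega
    have hlog : Nat.log 2 m ≤ E := (Nat.log_mono_right hmM).trans hE
    have e1 : f j m = ∏ p ∈ m.primeFactors, f j (p ^ m.factorization p) := by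
      rw [(hf j).multiplicative_factorization (f j) hm0]
      rfl
    rw [e1]
    calc ‖∏ p ∈ m.primeFactors, f j (p ^ m.factorization p) -
          ∏ p ∈ m.primeFactors, fa k Y' E g ψ j m p‖
        ≤ ∑ p ∈ m.primeFactors, ‖f j (p ^ m.factorization p) - fa k Y' E g ψ j m p‖ :=
          prod_sub _ _ _ (fun p _ => hf1 _ _) (fun p _ => fa_le _ _ _ _ hg _ hψ _ _ _)
      _ ≤ ∑ p ∈ m.primeFactors, 2 / (m0 : ℝ) := by
          refine sum_le_sum fun p hp => ?_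
          have hpp := Nat.prime_of_mem_primeFactors hp
          unfold fa
          split_ifs with h
          · have he : m.factorization p < E + 1 :=
              Nat.lt_succ_of_le ((fact_le m p hm0 hpp).trans hlog)
            have h1 : p < Y' + 1 := Nat.lt_succ_of_le h
            unfold ex
            rw [dif_pos ⟨h1, he⟩]
            exact hap (j, ⟨p, h1⟩, ⟨m.factorization p, he⟩)
          · rw [hfg j p _ hpp (not_le.mp h), sub_self, norm_zero]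
            exact h20
      _ = #m.primeFactors * (2 / (m0 : ℝ)) := by rw [sum_const, nsmul_eq_mul]
      _ ≤ E * (2 / m0) := by
          apply mul_le_mul_of_nonneg_right _ h20
          exact_mod_cast (card_pf m hm0).trans hlog
  calc ‖∏ j, f j (n + hs j) - WW k Y' E hs g ψ n‖
      ≤ ∑ j, ‖f j (n + hs j) -
        ∏ p ∈ (n + hs j).primeFactors, fa k Y' E g ψ j (n + hs j) p‖ := by
        unfold WW
        exact prod_sub _ _ _ (fun j _ => hf1 _ _) (fun j _ => prod_le _ _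
          (fun p _ => fa_le _ _ _ _ hg _ hψ _ _ _))
    _ ≤ ∑ _j : Fin k, E * (2 / (m0 : ℝ)) := sum_le_sum fun j _ => key j
    _ = _ := by simp

/-- the count -/
theorem count (k H : ℕ) (ε c : ℝ) (hε : 0 < ε) (hc : 0 < c) : ∃ N0 : ℕ, ∀ (N Y : ℕ), N0 ≤ N →
    (Real.log N) ^ 3 ≤ Y → ∀ E m0 Y' : ℕ, E = Nat.log 2 (N + H) + 1 → m0 = ⌈2 * k * E / ε⌉₊ + 1 →
    Y' = ⌊(Y : ℝ) / (Real.log N) ^ 2⌋₊ →
    (((2 * m0 + 1 : ℕ) : ℝ) ^ 2) ^ (k * ((Y' + 1) * (E + 1))) ≤ Real.exp (c * Y) := by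
  set K : ℝ := 20 * k / ε + 5 with hK
  have hk0 : (0 : ℝ) ≤ k := Nat.cast_nonneg k
  have hK5 : 5 ≤ K := by
    have : 0 ≤ 20 * k / ε := by positivity
    linarith
  set B : ℝ := 1600 * k ^ 2 * K / c ^ 2 + 1 with hB
  have hB1 : 1 ≤ B := by
    have : 0 ≤ 1600 * k ^ 2 * K / c ^ 2 := by positivity
    linarith
  refine ⟨max (H + 1) ⌈Real.exp B⌉₊, ?_⟩
  intro N Y hN hY E m0 Y' hE hm0 hY'
  have hNH : H + 1 ≤ N := (le_max_left _ _).trans hN
  have hNB : ⌈Real.exp B⌉₊ ≤ N := (le_max_right _ _).trans hN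
  have hN1 : 1 ≤ N := by omega
  have hNr : (0 : ℝ) < N := by exact_mod_cast hN1
  set L : ℝ := Real.log N with hL
  have hLB : B ≤ L := by
    rw [hL, Real.le_log_iff_exp_le hNr]
    exact Nat.ceil_le.mp hNB
  have hL1 : 1 ≤ L := hB1.trans hLB
  have hL0 : 0 < L := by linarith
  -- the size of E
  have hE1 : ((E : ℝ) + 1) ≤ 5 * L := by
    have h1 : Nat.log 2 (N + H) ≤ Nat.log 2 N + 1 := by
      have h2 : N + H ≤ N * 2 := by omega
      have h3 : Nat.log 2 (N * 2) = Nat.log 2 N + 1 := Nat.log_mul_base (by norm_num) (by omega)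
      calc Nat.log 2 (N + H) ≤ Nat.log 2 (N * 2) := Nat.log_mono_right h2
        _ = _ := h3
    have h4 : (Nat.log 2 N : ℝ) ≤ 2 * L := by
      have h5 : (2 : ℝ) ^ Nat.log 2 N ≤ N := by
        exact_mod_cast Nat.pow_log_le_self 2 (by omega)
      have h6 := Real.log_le_log (by positivity) h5
      rw [Real.log_pow] at h6
      have h7 : 0.6 < Real.log 2 := by
        have := Real.log_two_gt_d9
        linarith
      have h8 : (0 : ℝ) ≤ Nat.log 2 N := Nat.cast_nonneg _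
      nlinarith
    have h5 : (E : ℝ) = Nat.log 2 (N + H) + 1 := by rw [hE]; push_cast; ring
    have h6 : (Nat.log 2 (N + H) : ℝ) ≤ Nat.log 2 N + 1 := by exact_mod_cast h1
    rw [h5]
    linarith
  have hEr : (0 : ℝ) ≤ E := Nat.cast_nonneg E
  -- the size of m0
  have hm1 : ((2 * m0 + 1 : ℕ) : ℝ) ≤ K * L := by
    have h1 : (⌈2 * k * E / ε⌉₊ : ℝ) ≤ 2 * k * E / ε + 1 := (Nat.ceil_lt_add_one (by positivity)).le
    have h2 : ((2 * m0 + 1 : ℕ) : ℝ) = 2 * (⌈2 * k * E / ε⌉₊ : ℝ) + 3 := by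
      rw [hm0]; push_cast; ring
    rw [h2, hK]
    have h3 : 2 * (k : ℝ) * E / ε ≤ 2 * k * (5 * L) / ε := by
      gcongr
      linarith
    have h4 : 2 * (2 * (k : ℝ) * (5 * L) / ε) = 20 * k / ε * L := by ring
    nlinarith
  have hm2 : (1 : ℝ) ≤ ((2 * m0 + 1 : ℕ) : ℝ) := by
    exact_mod_cast (by omega : 1 ≤ 2 * m0 + 1)
  have hlogm : Real.log ((2 * m0 + 1 : ℕ) : ℝ) ≤ 2 * Real.sqrt (K * L) := by
    have h1 : Real.log ((2 * m0 + 1 : ℕ) : ℝ) ≤ Real.log (K * L) := Real.log_le_log (by linarith) hm1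
    have hKL : 0 < K * L := by positivity
    have h2 : Real.log (K * L) = 2 * Real.log (Real.sqrt (K * L)) := by
      rw [Real.log_sqrt hKL.le]; ring
    have h3 : Real.log (Real.sqrt (K * L)) ≤ Real.sqrt (K * L) :=
      (Real.log_le_sub_one_of_pos (Real.sqrt_pos.mpr hKL)).trans (by linarith)
    linarith
  have hlogm0 : 0 ≤ Real.log ((2 * m0 + 1 : ℕ) : ℝ) := Real.log_nonneg hm2
  -- the size of Y'
  have hY0 : (0 : ℝ) ≤ Y := Nat.cast_nonneg Y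
  have hY1 : ((Y' : ℝ) + 1) ≤ 2 * Y / L ^ 2 := by
    have h1 : (Y' : ℝ) ≤ Y / L ^ 2 := by
      rw [hY']
      exact Nat.floor_le (by positivity)
    have h2 : 1 ≤ Y / L ^ 2 := by
      rw [one_le_div (by positivity)]
      have : L ^ 2 ≤ L ^ 3 := by nlinarith [sq_nonneg L]
      linarith
    calc (Y' : ℝ) + 1 ≤ Y / L ^ 2 + Y / L ^ 2 := by linarith
      _ = 2 * Y / L ^ 2 := by ring
  -- the sqrt inequality
  have hsq : 40 * (k : ℝ) * Real.sqrt (K * L) ≤ c * L := by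
    have h1 : 1600 * k ^ 2 * K ≤ c ^ 2 * L := by
      have h2 : 1600 * k ^ 2 * K / c ^ 2 ≤ L := by linarith
      rw [div_le_iff₀ (by positivity)] at h2
      linarith
    have h2 : (40 * (k : ℝ) * Real.sqrt (K * L)) ^ 2 ≤ (c * L) ^ 2 := by
      have h3 : (40 * (k : ℝ) * Real.sqrt (K * L)) ^ 2 = 1600 * k ^ 2 * K * L := by
        rw [mul_pow, Real.sq_sqrt (by positivity)]; ring
      rw [h3]
      nlinarith
    exact (abs_le_of_sq_le_sq' h2 (by positivity)).2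
  rw [← pow_mul]
  have hpos : (0 : ℝ) < ((2 * m0 + 1 : ℕ) : ℝ) := by linarith
  rw [← Real.log_le_iff_le_exp (pow_pos hpos _), Real.log_pow]
  push_cast
  push_cast at hlogm hlogm0
  set lg := Real.log (2 * (m0 : ℝ) + 1) with hlg
  calc 2 * ((k : ℝ) * (((Y' : ℝ) + 1) * ((E : ℝ) + 1))) * lg
      ≤ 2 * ((k : ℝ) * ((2 * Y / L ^ 2) * (5 * L))) * (2 * Real.sqrt (K * L)) := by
        gcongr
    _ = (40 * (k : ℝ) * Real.sqrt (K * L)) * (Y / L) := by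
        field_simp
        ring
    _ ≤ (c * L) * (Y / L) := by
        apply mul_le_mul_of_nonneg_right hsq (by positivity)
    _ = c * Y := by
        field_simp

end NETK_

open NETK_ in
theorem p_NETK : T_GRID → T_NETK := by
  intro hgrid k hs ε c hε hc
  set H := ∑ j, hs j with hH
  obtain ⟨N0, hN0⟩ := count k H ε c hε hc
  refine ⟨N0, ?_⟩
  intro N Y g hN hY hg
  set E := Nat.log 2 (N + H) + 1 with hE
  set m0 := ⌈2 * k * E / ε⌉₊ + 1 with hm0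
  set Y' := ⌊(Y : ℝ) / (Real.log N) ^ 2⌋₊ with hY'
  obtain ⟨G, hG1, hG2, hG3⟩ := hgrid m0 (by omega)
  set T := Fintype.piFinset (fun _ : Fin k × Fin (Y' + 1) × Fin (E + 1) => G) with hT
  have hTm : ∀ ψ, ψ ∈ T ↔ ∀ q, ψ q ∈ G := by
    intro ψ
    rw [hT, Fintype.mem_piFinset]
  refine ⟨T.image (fun ψ => WW k Y' E hs g ψ), ?_, ?_, ?_⟩
  · have h1 : #(T.image (fun ψ => WW k Y' E hs g ψ)) ≤ #T := card_image_le
    have h2 : #T = #G ^ (k * ((Y' + 1) * (E + 1))) := by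
      rw [hT, Fintype.card_piFinset]
      simp
    have h3 := hN0 N Y hN hY E m0 Y' hE hm0 hY'
    refine le_trans ?_ h3
    have h4 : #(T.image (fun ψ => WW k Y' E hs g ψ)) ≤
        ((2 * m0 + 1) ^ 2) ^ (k * ((Y' + 1) * (E + 1))) := by
      rw [h2] at h1
      exact h1.trans (Nat.pow_le_pow_left hG1 _)
    exact_mod_cast h4
  · intro W hW n
    rw [mem_image] at hW
    obtain ⟨ψ, hψ, rfl⟩ := hW
    rw [hTm] at hψ
    have hψ1 : ∀ q, ‖ψ q‖ ≤ 1 := fun q => hG2 _ (hψ q)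
    exact prod_le _ _ (fun j _ => prod_le _ _ (fun p _ => fa_le _ _ _ _ hg _ hψ1 _ _ _))
  · intro f hf hf1 hfg
    choose! ap hap1 hap2 using hG3
    set ψ : Fin k × Fin (Y' + 1) × Fin (E + 1) → ℂ :=
      fun q => ap (f q.1 ((q.2.1 : ℕ) ^ (q.2.2 : ℕ))) with hψ
    have hψG : ∀ q, ψ q ∈ G := fun q => hap1 _ (hf1 _ _)
    refine ⟨WW k Y' E hs g ψ, mem_image.mpr ⟨ψ, (hTm ψ).mpr hψG, rfl⟩, ?_⟩
    intro n hn
    have hψ1 : ∀ q, ‖ψ q‖ ≤ 1 := fun q => hG2 _ (hψG q)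
    have h1 := appr k Y' E N H m0 hs g hg ψ hψ1
      (fun j => by rw [hH]; exact single_le_sum (f := hs) (fun _ _ => Nat.zero_le _) (mem_univ j))
      (by omega) f hf hf1
      (fun j p e hp hlt => hfg j p e hp (by
        rw [hY'] at hlt
        exact (Nat.floor_lt (by positivity)).mp hlt))
      (fun q => hap2 _ (hf1 _ _)) n hn
    refine h1.trans ?_
    have hm0r : 2 * k * E / ε ≤ m0 := by
      rw [hm0]
      push_cast
      have := Nat.le_ceil (2 * (k : ℝ) * E / ε)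
      push_cast at this
      linarith
    have hm00 : (0 : ℝ) < m0 := by
      rw [hm0]
      positivity
    rw [div_le_iff₀ hε] at hm0r
    have e : (k : ℝ) * (E * (2 / m0)) = 2 * k * E / m0 := by ring
    rw [e, div_le_iff₀ hm00]
    linarith

end Pool.Agent.TAD
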