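import Pool.Agent.TAD.Targets
import Pool.Agent.EllRand.Count

set_option autoImplicit false

/-!
# MP_f3f922_nt: target ONE
-/

open scoped Classical

noncomputable section

namespace Pool.Agent.TAD

open Finset

namespace ONE_

theorem norm_tw (T : Finset ℕ) (m : ℕ) : ‖tw T m‖ = 1 := by
  unfold tw
  rw [norm_prod]
  refine prod_eq_one fun p _ => ?_
  rw [norm_pow, norm_neg, norm_one, one_pow]

theorem tw_insert {T : Finset ℕ} {a : ℕ} (ha : a ∉ T) (m : ℕ) :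
    tw (insert a T) m = (-1 : ℂ) ^ (m.factorization a) * tw T m := by
  unfold tw
  rw [prod_insert ha]

theorem tw_symmDiff (T : Finset ℕ) (a m : ℕ) :
    tw (symmDiff T {a}) m = (-1 : ℂ) ^ (m.factorization a) * tw T m := by
  by_cases ha : a ∈ T
  · have h1 : symmDiff T {a} = T.erase a := by
      ext x
      simp only [mem_symmDiff, mem_singleton, mem_erase]
      constructor
      · rintro (⟨h, h'⟩ | ⟨h, h'⟩)
        · exact ⟨h', h⟩
        · subst h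
          exact absurd ha h'
      · rintro ⟨h, h'⟩
        exact Or.inl ⟨h', h⟩
    rw [h1]
    conv_rhs => rw [← insert_erase ha, tw_insert (notMem_erase a T)]
    rw [← mul_assoc, ← pow_add, ← two_mul, pow_mul, neg_one_sq, one_pow, one_mul]
  · have h1 : symmDiff T {a} = insert a T := by
      ext x
      simp only [mem_symmDiff, mem_singleton, mem_insert]
      constructor
      · rintro (⟨h, h'⟩ | ⟨h, h'⟩)
        · exact Or.inr h
        · exact Or.inl h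
      · rintro (h | h)
        · subst h
          exact Or.inr ⟨rfl, ha⟩
        · exact Or.inl ⟨h, fun h' => ha (h' ▸ h)⟩
    rw [h1, tw_insert ha]

/-- the sum for the set `T` -/
def S (E : Finset ℕ) (σ : ℕ → ℂ) (b c : ℕ → ℕ) (z : (ℕ → ℂ) × (ℕ → ℂ)) : ℂ :=
  ∑ n ∈ E, σ n * z.1 (b n) * z.2 (c n)

/-- the supremum of the norms of the sums -/
def f (E : Finset ℕ) (σ : ℕ → ℂ) (b c : ℕ → ℕ) : ℝ :=
  ⨆ z : {z : (ℕ → ℂ) × (ℕ → ℂ) // Bd z.1 ∧ Bd z.2}, ‖S E σ b c z.1‖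

theorem norm_S_le (E : Finset ℕ) (σ : ℕ → ℂ) (b c : ℕ → ℕ) (z : (ℕ → ℂ) × (ℕ → ℂ))
    (h1 : Bd z.1) (h2 : Bd z.2) : ‖S E σ b c z‖ ≤ ∑ n ∈ E, ‖σ n‖ := by
  unfold S
  refine (norm_sum_le _ _).trans (sum_le_sum fun n _ => ?_)
  rw [norm_mul, norm_mul]
  calc ‖σ n‖ * ‖z.1 (b n)‖ * ‖z.2 (c n)‖ ≤ ‖σ n‖ * 1 * 1 := by
        gcongr
        · exact h1 _
        · exact h2 _
    _ = ‖σ n‖ := by ring

theorem bdd (E : Finset ℕ) (σ : ℕ → ℂ) (b c : ℕ → ℕ) :
    BddAbove (Set.range fun z : {z : (ℕ → ℂ) × (ℕ → ℂ) // Bd z.1 ∧ Bd z.2} =>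
      ‖S E σ b c z.1‖) := by
  refine ⟨∑ n ∈ E, ‖σ n‖, ?_⟩
  rintro _ ⟨z, rfl⟩
  exact norm_S_le E σ b c z.1 z.2.1 z.2.2

theorem le_f (E : Finset ℕ) (σ : ℕ → ℂ) (b c : ℕ → ℕ) (z : (ℕ → ℂ) × (ℕ → ℂ))
    (h1 : Bd z.1) (h2 : Bd z.2) : ‖S E σ b c z‖ ≤ f E σ b c :=
  le_ciSup (bdd E σ b c) ⟨z, h1, h2⟩

instance : Nonempty {z : (ℕ → ℂ) × (ℕ → ℂ) // Bd z.1 ∧ Bd z.2} :=
  ⟨⟨(fun _ => 0, fun _ => 0), fun m => by simp, fun m => by simp⟩⟩

theorem f_le (E : Finset ℕ) (σ : ℕ → ℂ) (b c : ℕ → ℕ) (B : ℝ)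
    (h : ∀ z : (ℕ → ℂ) × (ℕ → ℂ), Bd z.1 → Bd z.2 → ‖S E σ b c z‖ ≤ B) : f E σ b c ≤ B :=
  ciSup_le fun z => h z.1 z.2.1 z.2.2

theorem f_sub_le (E : Finset ℕ) (σ σ' : ℕ → ℂ) (b c : ℕ → ℕ) :
    f E σ b c - f E σ' b c ≤ ∑ n ∈ E, ‖σ n - σ' n‖ := by
  rw [sub_le_iff_le_add]
  refine f_le E σ b c _ fun z h1 h2 => ?_
  have h3 : S E σ b c z = S E (fun n => σ n - σ' n) b c z + S E σ' b c z := by
    unfold S
    rw [← sum_add_distrib]
    refine sum_congr rfl fun n _ => ?_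
    ring
  rw [h3]
  refine (norm_add_le _ _).trans ?_
  gcongr
  · exact norm_S_le E _ b c z h1 h2
  · exact le_f E σ' b c z h1 h2

theorem abs_f_sub_le (E : Finset ℕ) (σ σ' : ℕ → ℂ) (b c : ℕ → ℕ) :
    |f E σ b c - f E σ' b c| ≤ ∑ n ∈ E, ‖σ n - σ' n‖ := by
  rw [abs_le]
  constructor
  · have h := f_sub_le E σ' σ b c
    have h2 : ∑ n ∈ E, ‖σ' n - σ n‖ = ∑ n ∈ E, ‖σ n - σ' n‖ :=
      sum_congr rfl fun n _ => norm_sub_rev _ _
    linarith
  · exact f_sub_le E σ σ' b c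

theorem cnt (N h0 a : ℕ) (ha : 0 < a) (haN : a ≤ N) :
    (#((Icc 1 N).filter (fun n => a ∣ n + h0)) : ℝ) ≤ 2 * N / a := by
  have h1 := Pool.Agent.EllRand.cnt_le 1 (h0 : ℤ) a N ha (Nat.coprime_one_left a)
  have h2 : (Icc 1 N).filter (fun m : ℕ => (a : ℤ) ∣ (1 : ℕ) * m + (h0 : ℤ)) =
      (Icc 1 N).filter (fun n => a ∣ n + h0) := by
    refine filter_congr fun m _ => ?_
    rw [Nat.cast_one, one_mul]
    exact_mod_cast Iff.rfl
  rw [h2] at h1
  have ha0 : (0 : ℝ) < a := by exact_mod_cast ha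
  have h3 : (1 : ℝ) ≤ N / a := by
    rw [one_le_div ha0]
    exact_mod_cast haN
  calc (#((Icc 1 N).filter (fun n => a ∣ n + h0)) : ℝ) ≤ N / a + 1 := h1
    _ ≤ N / a + N / a := by linarith
    _ = 2 * N / a := by ring

theorem sumsq (S : Finset ℕ) (N Y : ℕ) (hY : 1 ≤ Y) (h : ∀ q ∈ S, Y ≤ q ∧ q ≤ N) :
    ∑ a ∈ S, (4 * (N : ℝ) / a) ^ 2 ≤ 32 * (N : ℝ) ^ 2 / Y := by
  have h1 : S ⊆ Ioo (Y - 1) (N + 1) := by
    intro q hq
    have := h q hq
    rw [mem_Ioo]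
    omega
  have h2 : ∑ a ∈ S, ((a : ℝ) ^ 2)⁻¹ ≤ 2 / Y := by
    refine (sum_le_sum_of_subset_of_nonneg h1 fun i _ _ => by positivity).trans ?_
    have := sum_Ioo_inv_sq_le (α := ℝ) (Y - 1) (N + 1)
    have h3 : ((Y - 1 : ℕ) : ℝ) + 1 = Y := by
      rw [← Nat.cast_add_one, Nat.sub_add_cancel hY]
    rw [h3] at this
    exact this
  have h4 : ∑ a ∈ S, (4 * (N : ℝ) / a) ^ 2 = 16 * (N : ℝ) ^ 2 * ∑ a ∈ S, ((a : ℝ) ^ 2)⁻¹ := by
    rw [mul_sum]
    refine sum_congr rfl fun a _ => ?_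
    rw [div_pow, mul_pow]
    ring
  rw [h4]
  calc 16 * (N : ℝ) ^ 2 * ∑ a ∈ S, ((a : ℝ) ^ 2)⁻¹ ≤ 16 * (N : ℝ) ^ 2 * (2 / Y) := by
        gcongr
    _ = 32 * (N : ℝ) ^ 2 / Y := by ring

end ONE_

open ONE_ in
theorem p_ONE : T_MEAN → T_MCD → T_ONE := by
  intro hMEAN hMCD N Y h0 p Δ S κ E a b c w η hη hY hN hp hS hκ hE hw hw2 hab hac hb hc hcard hsq
  -- the MEAN bound
  obtain ⟨Λ, hΛ, hΛs⟩ := hMEAN S κ E a b c (fun T n => w n * tw T (n + h0)) p Δ hκ hp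
    (fun T _ n hn => by
      rw [norm_mul, norm_tw, mul_one]
      exact hw n hn)
    (fun n hn => (hw2 n hn).1)
    (fun T _ n hn a' ha' => by
      obtain ⟨h1, h2, h3, h4⟩ := hw2 n hn
      have hn0 : n + h0 ≠ 0 := by
        have := (mem_Icc.1 (hE hn)).1
        omega
      have hpr := (hS a' (hκ ha')).1
      rw [tw_symmDiff]
      by_cases h5 : a' = a n
      · rw [if_pos h5, h5]
        have h6 : (n + h0).factorization (a n) = 1 := by
          have hpr' : (a n).Prime := h5 ▸ hpr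
          apply le_antisymm
          · by_contra h7
            rw [not_le] at h7
            apply h3
            rw [← sq]
            exact (hpr'.pow_dvd_iff_le_factorization hn0).2 h7
          · exact (hpr'.dvd_iff_one_le_factorization hn0).1 h2
        rw [h6]
        ring
      · rw [if_neg h5]
        have h6 : (n + h0).factorization a' = 0 :=
          Nat.factorization_eq_zero_of_not_dvd fun h => h5 (h4 a' ha' h)
        rw [h6, pow_zero, one_mul])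
    hab hac hb hc hcard
  have hN0 : (0 : ℝ) < N := by exact_mod_cast hN
  have hY0 : (0 : ℝ) < Y := by exact_mod_cast hY
  set F : Finset ℕ → ℝ := fun T => f E (fun n => w n * tw T (n + h0)) b c with hF
  have key := hMCD S F (fun a => 4 * (N : ℝ) / a) (32 * (N : ℝ) ^ 2 / Y) (η * N / 2) (η * N / 2)
    (fun q hq T hT => by
      have hq1 := hS q hq
      have hqT : q ∉ T := fun h => (mem_erase.1 (hT h)).1 rfl
      refine (abs_f_sub_le E _ _ b c).trans ?_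
      have h1 : ∀ n ∈ E, ‖w n * tw (insert q T) (n + h0) - w n * tw T (n + h0)‖ ≤
          if q ∣ n + h0 then (2 : ℝ) else 0 := by
        intro n hn
        split_ifs with h
        · refine (norm_sub_le _ _).trans ?_
          rw [norm_mul, norm_mul, norm_tw, norm_tw]
          have := hw n hn
          linarith
        · rw [tw_insert hqT, Nat.factorization_eq_zero_of_not_dvd h, pow_zero, one_mul, sub_self,
            norm_zero]
      refine (sum_le_sum h1).trans ?_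
      rw [← sum_filter, sum_const, nsmul_eq_mul]
      have h2 : (#(E.filter (fun n => q ∣ n + h0)) : ℝ) ≤
          #((Icc 1 N).filter (fun n => q ∣ n + h0)) := by
        exact_mod_cast card_le_card (filter_subset_filter _ hE)
      have h3 := cnt N h0 q hq1.1.pos hq1.2.2
      calc (#(E.filter (fun n => q ∣ n + h0)) : ℝ) * 2 ≤ (2 * N / q) * 2 := by
            gcongr
            exact h2.trans h3
        _ = 4 * (N : ℝ) / q := by ring)
    (sumsq S N Y hY fun q hq => (hS q hq).2) (by positivity) (by positivity)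
    (by
      calc ∑ T ∈ S.powerset, F T ≤ ∑ T ∈ S.powerset, Λ T := by
            refine sum_le_sum fun T hT => ?_
            exact f_le E _ b c _ fun z h1 h2 => hΛ T (mem_powerset.1 hT) z.1 z.2 h1 h2
        _ ≤ _ := hΛs
        _ ≤ 2 ^ #S * (η * N / 2) := by gcongr)
  have h5 : 2 * (η * N / 2) ^ 2 / (32 * (N : ℝ) ^ 2 / Y) = η ^ 2 * Y / 64 := by
    field_simp
    ring
  rw [h5] at key
  refine le_trans ?_ key
  have h6 : η * (N : ℝ) / 2 + η * N / 2 = η * N := by ring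
  rw [h6]
  refine Nat.cast_le.2 (card_le_card fun T hT => ?_)
  rw [mem_filter] at hT ⊢
  obtain ⟨h7, x, y, hx, hy, h8⟩ := hT
  exact ⟨h7, h8.trans_le (le_f E _ b c (x, y) hx hy)⟩

end Pool.Agent.TAD
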