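import Pool.Agent.TAD.Targets

set_option autoImplicit false

/-!
# TAD, target OPN: quadratic form bound from the trace of a power
-/

open scoped Classical

noncomputable section

namespace Pool.Agent.TAD

open Finset

namespace OPN_

theorem pow_eq {V : Type} [Fintype V] [DecidableEq V] {A : Matrix V V ℂ} (hA : A.IsHermitian)
    (q : ℕ) : A ^ q = (hA.eigenvectorUnitary : Matrix V V ℂ) *
      Matrix.diagonal (fun i => ((hA.eigenvalues i : ℝ) : ℂ) ^ q) *
        star (hA.eigenvectorUnitary : Matrix V V ℂ) := by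
  conv_lhs => rw [hA.spectral_theorem]
  rw [← map_pow, Unitary.conjStarAlgAut_apply, Matrix.diagonal_pow]
  rfl

/-- the trace of a power -/
theorem tr_eq {V : Type} [Fintype V] [DecidableEq V] {A : Matrix V V ℂ} (hA : A.IsHermitian)
    (q : ℕ) : (Matrix.trace (A ^ q)).re = ∑ i, hA.eigenvalues i ^ q := by
  rw [pow_eq hA q, Matrix.mul_assoc, Matrix.trace_mul_comm, Matrix.mul_assoc]
  have h1 : star (hA.eigenvectorUnitary : Matrix V V ℂ) *
      (hA.eigenvectorUnitary : Matrix V V ℂ) = 1 :=
    Unitary.coe_star_mul_self _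
  rw [h1, Matrix.mul_one, Matrix.trace_diagonal, Complex.re_sum]
  apply Finset.sum_congr rfl
  intro i _
  norm_cast

theorem self_eq {V : Type} [Fintype V] (z : V → ℂ) :
    dotProduct (star z) z = ((∑ v, ‖z v‖ ^ 2 : ℝ) : ℂ) := by
  unfold dotProduct
  rw [Complex.ofReal_sum]
  apply Finset.sum_congr rfl
  intro i _
  rw [Pi.star_apply, Complex.star_def, ← Complex.normSq_eq_conj_mul_self,
    Complex.normSq_eq_norm_sq]

/-- moving a matrix to the other side -/
theorem move {V : Type} [Fintype V] [DecidableEq V] (U : Matrix V V ℂ) (z y : V → ℂ) :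
    dotProduct (star z) (U.mulVec y) = dotProduct (star ((star U).mulVec z)) y := by
  rw [Matrix.dotProduct_mulVec, Matrix.star_mulVec, Matrix.star_eq_conjTranspose,
    Matrix.conjTranspose_conjTranspose]

end OPN_

theorem p_OPN : T_OPN := by
  intro V _ _ H p L hH hp hL htr z
  set U : Matrix V V ℂ := (hH.eigenvectorUnitary : Matrix V V ℂ) with hU
  set y : V → ℂ := (star U).mulVec z with hy
  have hUU : U * star U = 1 := Unitary.coe_mul_star_self _
  -- the norm is preserved
  have hnorm : ∑ v, ‖y v‖ ^ 2 = ∑ v, ‖z v‖ ^ 2 := by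
    have h1 : dotProduct (star y) y = dotProduct (star z) z := by
      rw [hy, ← OPN_.move, Matrix.mulVec_mulVec, hUU, Matrix.one_mulVec]
    rw [OPN_.self_eq, OPN_.self_eq] at h1
    exact_mod_cast h1
  -- the quadratic form
  have hform : (dotProduct (star z) (H.mulVec z)).re = ∑ i, hH.eigenvalues i * ‖y i‖ ^ 2 := by
    have h2 : H = U * Matrix.diagonal (fun i => ((hH.eigenvalues i : ℝ) : ℂ) ^ 1) * star U := by
      have := OPN_.pow_eq hH 1
      rw [pow_one] at this
      exact this
    have h3 : dotProduct (star z) (H.mulVec z) =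
        dotProduct (star y) ((Matrix.diagonal
          (fun i => ((hH.eigenvalues i : ℝ) : ℂ) ^ 1)).mulVec y) := by
      conv_lhs => rw [h2]
      rw [← Matrix.mulVec_mulVec, ← Matrix.mulVec_mulVec, OPN_.move]
    rw [h3]
    unfold dotProduct
    rw [Complex.re_sum]
    apply Finset.sum_congr rfl
    intro i _
    rw [Matrix.mulVec_diagonal, pow_one, Pi.star_apply, Complex.star_def]
    have h4 : (starRingEnd ℂ) (y i) * (((hH.eigenvalues i : ℝ) : ℂ) * y i) =
        ((hH.eigenvalues i * ‖y i‖ ^ 2 : ℝ) : ℂ) := by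
      rw [Complex.ofReal_mul, ← Complex.normSq_eq_norm_sq, Complex.normSq_eq_conj_mul_self]
      ring
    rw [h4, Complex.ofReal_re]
  -- the eigenvalues are at most `L`
  have heig : ∀ i, hH.eigenvalues i ≤ L := by
    intro i
    rw [OPN_.tr_eq hH] at htr
    have h5 : hH.eigenvalues i ^ (2 * p) ≤ ∑ j, hH.eigenvalues j ^ (2 * p) := by
      apply Finset.single_le_sum (f := fun j => hH.eigenvalues j ^ (2 * p))
      · intro j _
        exact (even_two_mul p).pow_nonneg _
      · exact Finset.mem_univ i
    have h6 : |hH.eigenvalues i| ^ (2 * p) ≤ L ^ (2 * p) := by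
      rw [(even_two_mul p).pow_abs]
      exact h5.trans htr
    have h7 : |hH.eigenvalues i| ≤ L :=
      le_of_pow_le_pow_left₀ (by omega) hL h6
    exact (le_abs_self _).trans h7
  rw [hform, ← hnorm, Finset.mul_sum]
  apply Finset.sum_le_sum
  intro i _
  exact mul_le_mul_of_nonneg_right (heig i) (sq_nonneg _)

end Pool.Agent.TAD
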