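import Pool.Agent.TAD.Targets
import Pool.Agent.Elliott.Lower

set_option autoImplicit false

/-!
# MP_f3f922_nt: choice of the primes `r` and of the parameters (target PAR)
-/

open scoped Classical

noncomputable section

namespace Pool.Agent.TAD

open Finset

theorem p_PAR : T_PAR := by
  intro L
  obtain ⟨c, hc, hsum⟩ := Pool.Agent.Elliott.sum_inv_blk_lower
  refine ⟨max 5 ⌈4 * Real.exp (L / c)⌉₊, le_max_left _ _, ?_⟩
  set K : ℕ := max 5 ⌈4 * Real.exp (L / c)⌉₊ with hK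
  intro N hN
  have hK5 : 5 ≤ K := le_max_left _ _
  have hKe : 4 * Real.exp (L / c) ≤ (K : ℝ) := by
    have h1 : (⌈4 * Real.exp (L / c)⌉₊ : ℝ) ≤ (K : ℝ) := by
      exact_mod_cast le_max_right 5 _
    exact (Nat.le_ceil _).trans h1
  set l : ℕ := Nat.clog 2 N with hl
  have hl2 : 2 ≤ l := by
    by_contra hcon
    have h1 : N ≤ 2 ^ l := Nat.le_pow_clog (by norm_num) N
    have h2 : 2 ^ l ≤ 2 ^ 1 := Nat.pow_le_pow_right (by norm_num) (by omega)
    omega
  set m : ℕ := Nat.clog 4 l with hm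
  have hlQ : l ≤ 4 ^ m := Nat.le_pow_clog (by norm_num) l
  have hm1 : 1 ≤ m := by
    by_contra hcon
    have h0 : m = 0 := by omega
    rw [h0] at hlQ
    omega
  have hQ4l : 4 ^ (m - 1) < l := Nat.pow_pred_clog_lt_self (by norm_num) (by omega)
  have hQe : 4 ^ m = 4 * 4 ^ (m - 1) := by
    conv_lhs => rw [show m = (m - 1) + 1 by omega]
    rw [pow_succ]; ring
  have h2l : 2 ^ (l - 1) < N := Nat.pow_pred_clog_lt_self (by norm_num) (by omega)
  have hlog4 : (1 : ℝ) ≤ Real.log N := by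
    have h1 : Real.log 4 ≤ Real.log N := Real.log_le_log (by norm_num) (by exact_mod_cast hN)
    have h2 : Real.log 4 = 2 * Real.log 2 := by
      rw [show (4 : ℝ) = 2 ^ 2 by norm_num, Real.log_pow]; norm_num
    have h3 := Real.log_two_gt_d9
    linarith
  have hllog : ((l : ℝ) - 1) ≤ 2 * Real.log N := by
    have h1 : Real.log ((2 : ℝ) ^ (l - 1)) ≤ Real.log N := by
      apply Real.log_le_log (by positivity)
      exact_mod_cast h2l.le
    rw [Real.log_pow] at h1
    have h2 : ((l - 1 : ℕ) : ℝ) = (l : ℝ) - 1 := by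
      rw [Nat.cast_sub (by omega)]; norm_num
    rw [h2] at h1
    have h3 := Real.log_two_gt_d9
    have h4 : (0 : ℝ) ≤ (l : ℝ) - 1 := by
      have : (2 : ℝ) ≤ (l : ℝ) := by exact_mod_cast hl2
      linarith
    nlinarith
  refine ⟨l, 4 ^ m, (Ico (4 * m) (K * m)).biUnion Pool.Agent.Elliott.blk, by omega,
    Nat.le_pow_clog (by norm_num) N, hlQ, by omega, ?_, ?_, ?_⟩
  · have h1 : ((4 ^ m : ℕ) : ℝ) ≤ 4 * (l : ℝ) := by
      have : 4 ^ m ≤ 4 * l := by omega
      exact_mod_cast this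
    linarith
  · intro r hr
    simp only [Finset.mem_biUnion, Finset.mem_Ico, Pool.Agent.Elliott.blk, Finset.mem_filter,
      Finset.mem_Ioc] at hr
    obtain ⟨j, ⟨hj1, hj2⟩, ⟨hr1, hr2⟩, hp⟩ := hr
    refine ⟨hp, ?_, ?_⟩
    · calc (4 ^ m) ^ 4 = 4 ^ (4 * m) := by rw [← pow_mul, mul_comm]
        _ ≤ 4 ^ j := Nat.pow_le_pow_right (by norm_num) hj1
        _ < r := hr1
    · calc r ≤ 4 ^ (j + 1) := hr2
        _ ≤ 4 ^ (K * m) := Nat.pow_le_pow_right (by norm_num) hj2
        _ = (4 ^ m) ^ K := by rw [← pow_mul, mul_comm]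
  · have h1 := hsum (4 * m) (K * m) (by omega) (Nat.mul_le_mul_right m (by omega))
    refine le_trans ?_ h1
    have hm0 : (0 : ℝ) < (m : ℝ) := by exact_mod_cast hm1
    have h2 : (((K * m : ℕ) : ℝ)) / ((4 * m : ℕ) : ℝ) = (K : ℝ) / 4 := by
      push_cast
      field_simp
    rw [h2]
    have h3 : Real.exp (L / c) ≤ (K : ℝ) / 4 := by linarith
    have h4 : L / c ≤ Real.log ((K : ℝ) / 4) := by
      rw [Real.le_log_iff_exp_le (by linarith [Real.exp_pos (L / c)])]
      exact h3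
    rw [div_le_iff₀ hc] at h4
    linarith

end Pool.Agent.TAD
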