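import Pool.Agent.TAD.Targets

set_option autoImplicit false

open scoped Classical

noncomputable section

namespace Pool.Agent.TAD

open Finset

namespace SPL_

theorem mn_spec (P : Finset ℕ) (m : ℕ) (h : ∃ p ∈ P, p ∣ m) : mn P m ∈ P ∧ mn P m ∣ m := by
  obtain ⟨p, hp, hd⟩ := h
  exact Nat.sInf_mem (s := {p | p ∈ P ∧ p ∣ m}) ⟨p, hp, hd⟩

theorem fac (u : ArithmeticFunction ℂ) (hu : u.IsMultiplicative) (R : Finset ℕ) (m : ℕ)
    (hR : ∀ r ∈ R, r.Prime) (h : ∃ p ∈ R, p ∣ m) (h2 : ∀ r ∈ R, ¬ r * r ∣ m) :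
    u m = u (mn R m) * u (cf R m) := by
  obtain ⟨h3, h4⟩ := mn_spec R m h
  have h5 := hR _ h3
  have h6 := h2 _ h3
  have h7 : mn R m * cf R m = m := Nat.mul_div_cancel' h4
  have hco : Nat.Coprime (mn R m) (cf R m) := by
    rw [Nat.Prime.coprime_iff_not_dvd h5]
    intro h8
    apply h6
    obtain ⟨k, hk⟩ := h8
    exact ⟨k, by rw [mul_assoc, ← hk, h7]⟩
  rw [← hu.map_mul_of_coprime hco, h7]

end SPL_

theorem p_SPL : T_SPL := by
  intro N J K Q δ ε P R cl h0 h1 h2 𝒜 F u v hJ hK hε hN hR hP hbad h𝒜 hap hF hum hvm hu hv hbig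
  obtain ⟨α, hα, hα2⟩ := hap (fun n => u n) hu
  obtain ⟨β, hβ, hβ2⟩ := hap (fun n => v n) hv
  have hNr : (1 : ℝ) ≤ N := by exact_mod_cast hN
  have hJr : (1 : ℝ) ≤ J := by exact_mod_cast hJ
  have hKr : (1 : ℝ) ≤ K := by exact_mod_cast hK
  set G := Gd N δ P R cl h0 h1 h2 with hG
  set f : ℕ → ℂ := fun n => F n * u (n + h1) * v (n + h2) with hf
  set g : ℕ → ℂ := fun n => F n * (α (mn R (n + h1)) * β (mn R (n + h2))) *
      u (cf R (n + h1)) * v (cf R (n + h2)) with hg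
  have hGs : G ⊆ Icc 1 N := by
    rw [hG, Gd]
    exact filter_subset _ _
  have hfb : ∀ n, ‖f n‖ ≤ 1 := by
    intro n
    rw [hf]
    simp only [norm_mul]
    have a1 := hF n
    have a2 := hu (n + h1)
    have a3 := hv (n + h2)
    have b1 := norm_nonneg (F n)
    have b2 := norm_nonneg (u (n + h1))
    have b3 := norm_nonneg (v (n + h2))
    calc ‖F n‖ * ‖u (n + h1)‖ * ‖v (n + h2)‖ ≤ 1 * 1 * 1 := by gcongr
      _ = 1 := by norm_num
  have hsplit : ∑ n ∈ Icc 1 N \ G, f n + ∑ n ∈ G, f n = ∑ n ∈ Icc 1 N, f n := sum_sdiff hGs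
  have hb1 : ‖∑ n ∈ Icc 1 N \ G, f n‖ ≤ ε / 4 * N := by
    refine le_trans ?_ hbad
    calc ‖∑ n ∈ Icc 1 N \ G, f n‖ ≤ ∑ n ∈ Icc 1 N \ G, ‖f n‖ := norm_sum_le _ _
      _ ≤ ∑ n ∈ Icc 1 N \ G, 1 := sum_le_sum fun n _ => hfb n
      _ = _ := by simp
  have hb2 : 3 * ε / 4 * N < ‖∑ n ∈ G, f n‖ := by
    have h3 : ‖∑ n ∈ Icc 1 N, f n‖ ≤ ‖∑ n ∈ Icc 1 N \ G, f n‖ + ‖∑ n ∈ G, f n‖ := by
      rw [← hsplit]
      exact norm_add_le _ _
    have h4 : ε * N < ‖∑ n ∈ Icc 1 N, f n‖ := hbig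
    nlinarith
  have hcG : (#G : ℝ) ≤ N := by
    have h3 := card_le_card hGs
    rw [Nat.card_Icc, Nat.add_sub_cancel] at h3
    exact_mod_cast h3
  have hmem : ∀ n ∈ G, (∃ p ∈ P, p ∣ n + h0) ∧ (∃ r ∈ R, r ∣ n + h1) ∧
    (∃ r ∈ R, r ∣ n + h2) ∧ (∀ r ∈ R, ¬ r * r ∣ n + h1) ∧ (∀ r ∈ R, ¬ r * r ∣ n + h2) := by
    intro n hn
    rw [hG, Gd, mem_filter] at hn
    obtain ⟨-, -, c2, c3, c4, -, c6, c7⟩ := hn
    exact ⟨c2, c3, c4, c6, c7⟩
  have hfg : ∀ n ∈ G, ‖f n - g n‖ ≤ ε / 4 := by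
    intro n hn
    obtain ⟨c2, c3, c4, c6, c7⟩ := hmem n hn
    have e1 := SPL_.fac u hum R (n + h1) (fun r hr => (hR r hr).1) c3 c6
    have e2 := SPL_.fac v hvm R (n + h2) (fun r hr => (hR r hr).1) c4 c7
    have m1 := (SPL_.mn_spec R (n + h1) c3).1
    have m2 := (SPL_.mn_spec R (n + h2) c4).1
    set r := mn R (n + h1) with hr
    set s := mn R (n + h2) with hs
    have e3 : f n - g n = F n * u (cf R (n + h1)) * v (cf R (n + h2)) *
        ((u r - α r) * v s + α r * (v s - β s)) := by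
      rw [hf, hg]
      simp only []
      rw [e1, e2]
      ring
    rw [e3, norm_mul, norm_mul, norm_mul]
    have a0 := hα2 r m1
    have a1 := hβ2 s m2
    have a2 : ‖(u r - α r) * v s + α r * (v s - β s)‖ ≤ ε / 4 := by
      calc ‖(u r - α r) * v s + α r * (v s - β s)‖
          ≤ ‖(u r - α r) * v s‖ + ‖α r * (v s - β s)‖ := norm_add_le _ _
        _ = ‖u r - α r‖ * ‖v s‖ + ‖α r‖ * ‖v s - β s‖ := by rw [norm_mul, norm_mul]
        _ ≤ ε / 8 * 1 + 1 * (ε / 8) := by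
            have b1 := hv s
            have b2 := h𝒜 α hα r
            have b3 := norm_nonneg (v s)
            have b4 := norm_nonneg (v s - β s)
            gcongr
        _ = ε / 4 := by ring
    have b1 := hF n
    have b2 := hu (cf R (n + h1))
    have b3 := hv (cf R (n + h2))
    have c1 := norm_nonneg (F n)
    have c2 := norm_nonneg (u (cf R (n + h1)))
    have c3 := norm_nonneg (v (cf R (n + h2)))
    calc ‖F n‖ * ‖u (cf R (n + h1))‖ * ‖v (cf R (n + h2))‖ *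
        ‖(u r - α r) * v s + α r * (v s - β s)‖ ≤ 1 * 1 * 1 * (ε / 4) := by gcongr
      _ = ε / 4 := by ring
  have hb3 : ε / 2 * N < ‖∑ n ∈ G, g n‖ := by
    have h3 : ‖∑ n ∈ G, f n‖ ≤ ‖∑ n ∈ G, (f n - g n)‖ + ‖∑ n ∈ G, g n‖ := by
      have : ∑ n ∈ G, f n = ∑ n ∈ G, (f n - g n) + ∑ n ∈ G, g n := by
        rw [← sum_add_distrib]
        exact sum_congr rfl fun n _ => by ring
      rw [this]
      exact norm_add_le _ _
    have h4 : ‖∑ n ∈ G, (f n - g n)‖ ≤ ε / 4 * N := by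
      calc ‖∑ n ∈ G, (f n - g n)‖ ≤ ∑ n ∈ G, ‖f n - g n‖ := norm_sum_le _ _
        _ ≤ ∑ n ∈ G, ε / 4 := sum_le_sum hfg
        _ = #G * (ε / 4) := by rw [sum_const, nsmul_eq_mul]
        _ ≤ N * (ε / 4) := by
            apply mul_le_mul_of_nonneg_right hcG
            linarith
        _ = ε / 4 * N := by ring
    nlinarith
  by_contra hcon
  push Not at hcon
  have hEd : ∀ κ i j, Ed N δ P R cl h0 h1 h2 Q κ i j = G.filter (fun n => cl (mn P (n + h0)) = κ ∧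
    bi Q (mn R (n + h1)) = i ∧ bi Q (mn R (n + h2)) = j) := fun κ i j => rfl
  have hsum : ∑ n ∈ G, g n = ∑ q ∈ range J ×ˢ (range K ×ˢ range K),
      ∑ n ∈ Ed N δ P R cl h0 h1 h2 Q q.1 q.2.1 q.2.2, g n := by
    rw [← sum_fiberwise_of_maps_to (s := G) (t := range J ×ˢ (range K ×ˢ range K))
      (g := fun n => (cl (mn P (n + h0)), (bi Q (mn R (n + h1)), bi Q (mn R (n + h2)))))]
    · refine sum_congr rfl fun q _ => ?_
      refine sum_congr ?_ fun _ _ => rfl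
      rw [hEd]
      ext n
      simp only [mem_filter, Prod.ext_iff]
    · intro n hn
      obtain ⟨c2, c3, c4, c6, c7⟩ := hmem n hn
      have m0 := (SPL_.mn_spec P (n + h0) c2).1
      have m1 := (SPL_.mn_spec R (n + h1) c3).1
      have m2 := (SPL_.mn_spec R (n + h2) c4).1
      simp only [mem_product, mem_range]
      exact ⟨hP _ m0, (hR _ m1).2, (hR _ m2).2⟩
  have hfin : ‖∑ n ∈ G, g n‖ ≤ ε / 2 * N := by
    rw [hsum]
    calc ‖∑ q ∈ range J ×ˢ (range K ×ˢ range K),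
          ∑ n ∈ Ed N δ P R cl h0 h1 h2 Q q.1 q.2.1 q.2.2, g n‖
        ≤ ∑ q ∈ range J ×ˢ (range K ×ˢ range K),
          ‖∑ n ∈ Ed N δ P R cl h0 h1 h2 Q q.1 q.2.1 q.2.2, g n‖ := norm_sum_le _ _
      _ ≤ ∑ q ∈ range J ×ˢ (range K ×ˢ range K), ε / (2 * J * K ^ 2) * N := by
          refine sum_le_sum fun q hq => ?_
          simp only [mem_product, mem_range] at hq
          exact hcon q.1 hq.1 q.2.1 hq.2.1 q.2.2 hq.2.2 α hα β hβ
      _ = ε / 2 * N := by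
          rw [sum_const, nsmul_eq_mul, card_product, card_product, card_range, card_range]
          push_cast
          field_simp
  linarith

end Pool.Agent.TAD
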