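import Pool.Agent.TAD.Targets

set_option autoImplicit false

/-!
# MP_f3f922_nt: STEP, the matrix Khintchine step (helper49)
-/

open scoped Classical

noncomputable section

namespace Pool.Agent.TAD

open Finset

namespace STEP_

/-- real part of the trace -/
def t {V : Type} [Fintype V] (M : Matrix V V ℂ) : ℝ := (Matrix.trace M).re

variable {V : Type} [Fintype V]

theorem t_add (M N : Matrix V V ℂ) : t (M + N) = t M + t N := by
  simp [t, Matrix.trace_add]

theorem t_neg (M : Matrix V V ℂ) : t (-M) = - t M := by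
  simp [t, Matrix.trace_neg]

theorem t_sub (M N : Matrix V V ℂ) : t (M - N) = t M - t N := by
  simp [t, Matrix.trace_sub]

theorem t_sum {ι : Type} (s : Finset ι) (f : ι → Matrix V V ℂ) :
    t (∑ i ∈ s, f i) = ∑ i ∈ s, t (f i) := by
  simp [t, Matrix.trace_sum]

theorem t_two (M : Matrix V V ℂ) : t ((2 : ℝ) • M) = 2 * t M := by
  simp [t, Matrix.trace_smul]

theorem tele {R : Type} [Ring R] (A B : R) (m : ℕ) :
    A ^ m - B ^ m = ∑ q ∈ range m, A ^ q * (A - B) * B ^ (m - 1 - q) := by
  induction m with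
  | zero => simp
  | succ m ih =>
    rw [sum_range_succ]
    have h1 : ∑ q ∈ range m, A ^ q * (A - B) * B ^ (m + 1 - 1 - q) =
        (∑ q ∈ range m, A ^ q * (A - B) * B ^ (m - 1 - q)) * B := by
      rw [sum_mul]
      refine sum_congr rfl fun q hq => ?_
      rw [mem_range] at hq
      have : m + 1 - 1 - q = (m - 1 - q) + 1 := by omega
      rw [this, pow_succ, ← mul_assoc]
    rw [h1, ← ih]
    have h2 : m + 1 - 1 - m = 0 := by omega
    rw [h2, pow_zero, mul_one, pow_succ, pow_succ]
    noncomm_ring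

theorem psd_diag [DecidableEq V] {A : Matrix V V ℂ} (hA : A.IsHermitian) (p : ℕ) (v : V) :
    0 ≤ ((A ^ (2 * p)) v v).re := by
  have h1 : A ^ (2 * p) = (A ^ p).conjTranspose * A ^ p := by
    rw [(hA.pow p).eq, ← pow_add, two_mul]
  rw [h1, Matrix.mul_apply, Complex.re_sum]
  refine sum_nonneg fun w _ => ?_
  rw [Matrix.conjTranspose_apply]
  have h2 : ∀ z : ℂ, (star z * z).re = z.re ^ 2 + z.im ^ 2 := by
    intro z
    simp [Complex.mul_re]
    ring
  rw [h2]
  positivity

end STEP_

open STEP_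

theorem p_STEP : T_GMAM → T_STEP := by
  intro hG V _ _ S κ F dg Δ hκ hΔ hF hfl hfix hsum hdg p
  set H : Finset ℕ → Matrix V V ℂ := fun T => ∑ a ∈ κ, F a T with hH
  have hHh : ∀ T ⊆ S, (H T).IsHermitian := by
    intro T hT
    show (∑ a ∈ κ, F a T).IsHermitian
    rw [Matrix.IsHermitian, Matrix.conjTranspose_sum]
    exact sum_congr rfl fun a ha => hF a ha T hT
  have hT' : ∀ a ∈ κ, ∀ T ⊆ S, symmDiff T {a} ⊆ S := by
    intro a ha T hT x hx
    rw [mem_symmDiff, mem_singleton] at hx
    rcases hx with ⟨h, _⟩ | ⟨h, _⟩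
    · exact hT h
    · rw [h]; exact hκ ha
  have hinv : ∀ (a : ℕ) (T : Finset ℕ), symmDiff (symmDiff T {a}) {a} = T := by
    intro a T
    rw [symmDiff_assoc, symmDiff_self, symmDiff_bot]
  have hre : ∀ a ∈ κ, ∀ f : Finset ℕ → ℝ,
      ∑ T ∈ S.powerset, f (symmDiff T {a}) = ∑ T ∈ S.powerset, f T := by
    intro a ha f
    refine sum_bij' (fun T _ => symmDiff T {a}) (fun T _ => symmDiff T {a}) ?_ ?_ ?_ ?_ ?_
    · intro T hT
      rw [mem_powerset] at hT ⊢
      exact hT' a ha T hT
    · intro T hT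
      rw [mem_powerset] at hT ⊢
      exact hT' a ha T hT
    · intro T _; exact hinv a T
    · intro T _; exact hinv a T
    · intro T _; rfl
  have hHd : ∀ a ∈ κ, ∀ T ⊆ S, H T - H (symmDiff T {a}) = (2 : ℝ) • F a T := by
    intro a ha T hT
    show ∑ b ∈ κ, F b T - ∑ b ∈ κ, F b (symmDiff T {a}) = _
    rw [← sum_sub_distrib, sum_eq_single a]
    · rw [hfl a ha T hT, two_smul, sub_neg_eq_add]
    · intro b hb hba
      rw [hfix b hb a ha hba T hT, sub_self]
    · intro h; exact absurd ha h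
  -- the main estimate for one `a`
  have hA : ∀ a ∈ κ, ∑ T ∈ S.powerset, t (F a T * H T ^ (2 * p + 1)) ≤
      (2 * p + 1) * ∑ T ∈ S.powerset, t (F a T * F a T * H T ^ (2 * p)) := by
    intro a ha
    have e1 : ∑ T ∈ S.powerset, t (F a T * H T ^ (2 * p + 1)) =
        - ∑ T ∈ S.powerset, t (F a T * H (symmDiff T {a}) ^ (2 * p + 1)) := by
      rw [← hre a ha (fun T => t (F a T * H T ^ (2 * p + 1))), ← sum_neg_distrib]
      refine sum_congr rfl fun T hT => ?_
      rw [mem_powerset] at hT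
      rw [hfl a ha T hT, neg_mul, t_neg]
    have e2 : ∀ T ∈ S.powerset, t (F a T * H T ^ (2 * p + 1)) -
        t (F a T * H (symmDiff T {a}) ^ (2 * p + 1)) =
        ∑ q ∈ range (2 * p + 1), 2 * t (F a T * H T ^ q * F a T *
          H (symmDiff T {a}) ^ (2 * p - q)) := by
      intro T hT
      rw [mem_powerset] at hT
      rw [← t_sub, ← mul_sub, tele, mul_sum, t_sum]
      refine sum_congr rfl fun q _ => ?_
      rw [hHd a ha T hT, ← t_two]
      congr 1
      have : 2 * p + 1 - 1 - q = 2 * p - q := by omega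
      rw [this]
      simp only [mul_smul_comm, smul_mul_assoc, mul_assoc]
    have e3 : ∀ T ∈ S.powerset, ∑ q ∈ range (2 * p + 1), 2 * t (F a T * H T ^ q * F a T *
          H (symmDiff T {a}) ^ (2 * p - q)) ≤ (2 * p + 1) *
          (t (F a T * F a T * H T ^ (2 * p)) +
            t (F a T * F a T * H (symmDiff T {a}) ^ (2 * p))) := by
      intro T hT
      rw [mem_powerset] at hT
      have r1 : ∑ q ∈ range (2 * p + 1), t (F a T * H T ^ q * F a T *
          H (symmDiff T {a}) ^ (2 * p - q)) = ∑ q ∈ range (2 * p + 1),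
          t (F a T * H T ^ (2 * p - q) * F a T * H (symmDiff T {a}) ^ q) := by
        rw [← sum_range_reflect]
        refine sum_congr rfl fun q hq => ?_
        rw [mem_range] at hq
        have h1 : 2 * p + 1 - 1 - q = 2 * p - q := by omega
        have h2 : 2 * p - (2 * p - q) = q := by omega
        rw [h1, h2]
      have r2 : ∀ q ∈ range (2 * p + 1), t (F a T * H T ^ q * F a T *
          H (symmDiff T {a}) ^ (2 * p - q)) +
          t (F a T * H T ^ (2 * p - q) * F a T * H (symmDiff T {a}) ^ q) ≤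
          t (F a T * F a T * H T ^ (2 * p)) +
            t (F a T * F a T * H (symmDiff T {a}) ^ (2 * p)) := by
        intro q hq
        rw [mem_range] at hq
        have h1 : q + (2 * p - q) = 2 * p := by omega
        have := hG V (F a T) (H T) (H (symmDiff T {a})) (hF a ha T hT) (hHh T hT)
          (hHh _ (hT' a ha T hT)) q (2 * p - q) (by rw [h1]; exact even_two_mul p)
        rw [h1] at this
        exact this
      calc ∑ q ∈ range (2 * p + 1), 2 * t (F a T * H T ^ q * F a T *
            H (symmDiff T {a}) ^ (2 * p - q))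
          = ∑ q ∈ range (2 * p + 1), t (F a T * H T ^ q * F a T *
            H (symmDiff T {a}) ^ (2 * p - q)) + ∑ q ∈ range (2 * p + 1),
            t (F a T * H T ^ (2 * p - q) * F a T * H (symmDiff T {a}) ^ q) := by
            rw [← r1, ← mul_sum, two_mul]
        _ = ∑ q ∈ range (2 * p + 1), (t (F a T * H T ^ q * F a T *
            H (symmDiff T {a}) ^ (2 * p - q)) +
            t (F a T * H T ^ (2 * p - q) * F a T * H (symmDiff T {a}) ^ q)) := by
            rw [sum_add_distrib]
        _ ≤ ∑ _q ∈ range (2 * p + 1), (t (F a T * F a T * H T ^ (2 * p)) +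
            t (F a T * F a T * H (symmDiff T {a}) ^ (2 * p))) := sum_le_sum r2
        _ = _ := by
            rw [sum_const, card_range, nsmul_eq_mul]
            push_cast
            ring
    have e4 : ∑ T ∈ S.powerset, t (F a T * F a T * H (symmDiff T {a}) ^ (2 * p)) =
        ∑ T ∈ S.powerset, t (F a T * F a T * H T ^ (2 * p)) := by
      rw [← hre a ha (fun T => t (F a T * F a T * H T ^ (2 * p)))]
      refine sum_congr rfl fun T hT => ?_
      rw [mem_powerset] at hT
      rw [hfl a ha T hT, neg_mul_neg]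
    have e5 : 2 * ∑ T ∈ S.powerset, t (F a T * H T ^ (2 * p + 1)) ≤
        2 * ((2 * p + 1) * ∑ T ∈ S.powerset, t (F a T * F a T * H T ^ (2 * p))) := by
      calc 2 * ∑ T ∈ S.powerset, t (F a T * H T ^ (2 * p + 1))
          = ∑ T ∈ S.powerset, (t (F a T * H T ^ (2 * p + 1)) -
            t (F a T * H (symmDiff T {a}) ^ (2 * p + 1))) := by
            rw [sum_sub_distrib]
            linarith
        _ = ∑ T ∈ S.powerset, ∑ q ∈ range (2 * p + 1), 2 * t (F a T * H T ^ q * F a T *
          H (symmDiff T {a}) ^ (2 * p - q)) := sum_congr rfl e2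
        _ ≤ ∑ T ∈ S.powerset, (2 * p + 1) * (t (F a T * F a T * H T ^ (2 * p)) +
            t (F a T * F a T * H (symmDiff T {a}) ^ (2 * p))) := sum_le_sum e3
        _ = _ := by
            rw [← mul_sum, sum_add_distrib, e4]
            ring
    linarith
  have hB : ∑ T ∈ S.powerset, t (H T ^ (2 * (p + 1))) =
      ∑ a ∈ κ, ∑ T ∈ S.powerset, t (F a T * H T ^ (2 * p + 1)) := by
    rw [sum_comm]
    refine sum_congr rfl fun T _ => ?_
    rw [← t_sum, ← sum_mul]
    have : 2 * (p + 1) = (2 * p + 1) + 1 := by ring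
    rw [this, pow_succ']
  have hC : ∀ T ∈ S.powerset, ∑ a ∈ κ, t (F a T * F a T * H T ^ (2 * p)) ≤
      Δ * t (H T ^ (2 * p)) := by
    intro T hT
    rw [mem_powerset] at hT
    rw [← t_sum, ← sum_mul, hsum T hT]
    show (Matrix.trace (Matrix.diagonal (fun v => (dg T v : ℂ)) * H T ^ (2 * p))).re ≤
      Δ * (Matrix.trace (H T ^ (2 * p))).re
    rw [Matrix.trace, Matrix.trace, Complex.re_sum, Complex.re_sum, mul_sum]
    refine sum_le_sum fun v _ => ?_
    rw [Matrix.diag_apply, Matrix.diag_apply, Matrix.diagonal_mul, Complex.re_ofReal_mul]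
    exact mul_le_mul_of_nonneg_right (hdg T hT v) (psd_diag (hHh T hT) p v)
  show ∑ T ∈ S.powerset, t (H T ^ (2 * (p + 1))) ≤
    (2 * p + 1) * Δ * ∑ T ∈ S.powerset, t (H T ^ (2 * p))
  calc ∑ T ∈ S.powerset, t (H T ^ (2 * (p + 1)))
      = ∑ a ∈ κ, ∑ T ∈ S.powerset, t (F a T * H T ^ (2 * p + 1)) := hB
    _ ≤ ∑ a ∈ κ, (2 * p + 1) * ∑ T ∈ S.powerset, t (F a T * F a T * H T ^ (2 * p)) :=
        sum_le_sum hA
    _ = (2 * p + 1) * ∑ T ∈ S.powerset, ∑ a ∈ κ, t (F a T * F a T * H T ^ (2 * p)) := by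
        rw [← mul_sum, sum_comm]
    _ ≤ (2 * p + 1) * ∑ T ∈ S.powerset, Δ * t (H T ^ (2 * p)) :=
        mul_le_mul_of_nonneg_left (sum_le_sum hC) (by positivity)
    _ = _ := by
        rw [← mul_sum, mul_assoc]

end Pool.Agent.TAD
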