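import Pool.Agent.TAD.Targets

set_option autoImplicit false

/-!
# MP_f3f922_nt, project TAD: structure of the sets `Ed`
-/

open scoped Classical

noncomputable section

namespace Pool.Agent.TAD

open Finset

namespace STR_

lemma mn_mem {P : Finset ℕ} {m : ℕ} (h : ∃ p ∈ P, p ∣ m) : mn P m ∈ P ∧ mn P m ∣ m :=
  Nat.sInf_mem (s := {p | p ∈ P ∧ p ∣ m}) h

lemma mul_cf {R : Finset ℕ} {m : ℕ} (h : ∃ p ∈ R, p ∣ m) : mn R m * cf R m = m :=
  Nat.mul_div_cancel' (mn_mem h).2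

lemma uniq {N Y Z : ℕ} {δ : ℝ} {h0 h a b r n n' : ℕ} (hδ : 0 < δ) (hZ : (Z : ℝ) ≤ δ * Y)
    (hne : h0 ≠ h) (h0Y : h0 < Y) (hY : h < Y) (ha : a.Prime) (haY : Y ≤ a) (han : a ∣ n + h0)
    (han' : a ∣ n' + h0) (hr : r.Prime) (hrZ : r ≤ Z) (hrb : r * b = n + h) (hb' : b ∣ n' + h)
    (hδn : δ * N ≤ n) (hn1 : 1 ≤ n) (hn'N : n' ≤ N) (hle : n ≤ n') : n = n' := by
  by_contra hnn
  have hlt : n < n' := lt_of_le_of_ne hle hnn
  have hbn : b ∣ n + h := ⟨r, by rw [← hrb, mul_comm]⟩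
  have d1 : a ∣ n' - n := by
    have := Nat.dvd_sub han' han
    rwa [Nat.add_sub_add_right] at this
  have d2 : b ∣ n' - n := by
    have := Nat.dvd_sub hb' hbn
    rwa [Nat.add_sub_add_right] at this
  have hcop : Nat.Coprime a b := by
    rw [Nat.Prime.coprime_iff_not_dvd ha]
    intro hab
    have h1 : a ∣ n + h := hab.trans hbn
    rcases lt_or_gt_of_ne hne with hl | hl
    · have h2 : a ∣ h - h0 := by
        have := Nat.dvd_sub h1 han
        rwa [Nat.add_sub_add_left] at this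
      have := Nat.le_of_dvd (by omega) h2
      omega
    · have h2 : a ∣ h0 - h := by
        have := Nat.dvd_sub han h1
        rwa [Nat.add_sub_add_left] at this
      have := Nat.le_of_dvd (by omega) h2
      omega
  have d3 : a * b ∣ n' - n := hcop.mul_dvd_of_dvd_of_dvd d1 d2
  have h4 : a * b ≤ n' - n := Nat.le_of_dvd (by omega) d3
  have h5 : a * b < N := by omega
  have hZ0 : (0 : ℝ) < Z := by
    have : 0 < Z := lt_of_lt_of_le hr.pos hrZ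
    exact_mod_cast this
  have h6 : δ * N ≤ (b : ℝ) * Z := by
    have e1 : ((r : ℝ) * b) = n + h := by exact_mod_cast hrb
    have e2 : (r : ℝ) ≤ Z := by exact_mod_cast hrZ
    have e3 : (0 : ℝ) ≤ b := Nat.cast_nonneg _
    have e4 : (0 : ℝ) ≤ h := Nat.cast_nonneg _
    nlinarith [mul_le_mul_of_nonneg_left e2 e3]
  have h7 : (a : ℝ) * b < N := by exact_mod_cast h5
  have h8 : (Y : ℝ) ≤ a := by exact_mod_cast haY
  have hN0 : (0 : ℝ) ≤ N := Nat.cast_nonneg _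
  have h9 : (a : ℝ) * (δ * N) ≤ a * (b * Z) :=
    mul_le_mul_of_nonneg_left h6 (Nat.cast_nonneg _)
  have h10 : (Y : ℝ) * (δ * N) ≤ a * (δ * N) :=
    mul_le_mul_of_nonneg_right h8 (by positivity)
  have h11 : (Z : ℝ) * N ≤ δ * Y * N := mul_le_mul_of_nonneg_right hZ hN0
  have h12 : (a : ℝ) * b * Z < N * Z := mul_lt_mul_of_pos_right h7 hZ0
  nlinarith

end STR_

open STR_

theorem p_STR : T_STR := by
  intro N Y Z Q δ P R cl h0 h1 h2 κ i j hQ hδ hN h1N h2N h01 h02 h0Y h1Y h2Y hZ hP hR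
  have key : ∀ n ∈ Ed N δ P R cl h0 h1 h2 Q κ i j, (1 ≤ n ∧ n ≤ N) ∧ δ * N ≤ n ∧
      (∃ p ∈ P, p ∣ n + h0) ∧ (∃ r ∈ R, r ∣ n + h1) ∧ (∃ r ∈ R, r ∣ n + h2) ∧
      (∀ p ∈ P, ∀ p' ∈ P, cl p = cl p' → ¬ p * p' ∣ n + h0) ∧
      cl (mn P (n + h0)) = κ ∧ bi Q (mn R (n + h1)) = i ∧ bi Q (mn R (n + h2)) = j := by
    intro n hn
    rw [Ed, mem_filter, Gd, mem_filter, mem_Icc] at hn
    obtain ⟨⟨hI, hd, hp, hr1, hr2, hpp, -, -⟩, hc⟩ := hn
    exact ⟨hI, hd, hp, hr1, hr2, hpp, hc⟩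
  have blk : ∀ r : ℕ, 2 ≤ r → Q ^ (bi Q r) < r ∧ r ≤ Q ^ (bi Q r + 1) := by
    intro r hr
    have hc : 0 < Nat.clog Q r := Nat.clog_pos hQ hr
    refine ⟨?_, ?_⟩
    · exact Nat.pow_pred_clog_lt_self hQ hr
    · rw [bi, Nat.sub_add_cancel hc]
      exact Nat.le_pow_clog hQ r
  -- part (2), for `h`
  have inj : ∀ h : ℕ, h0 ≠ h → h < Y →
      (∀ n ∈ Ed N δ P R cl h0 h1 h2 Q κ i j, ∃ r ∈ R, r ∣ n + h) →
      ∀ n ∈ Ed N δ P R cl h0 h1 h2 Q κ i j, ∀ n' ∈ Ed N δ P R cl h0 h1 h2 Q κ i j,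
      mn P (n + h0) = mn P (n' + h0) → cf R (n + h) = cf R (n' + h) → n = n' := by
    intro h h0h hY hex n hn n' hn' ha hb
    obtain ⟨hI, hd, hp, -, -, -, -⟩ := key n hn
    obtain ⟨hI', hd', hp', -, -, -, -⟩ := key n' hn'
    have hr := hex n hn
    have hr' := hex n' hn'
    have hA := mn_mem hp
    have hA' := mn_mem hp'
    rw [← ha] at hA'
    have m1 := mul_cf hr
    have m2 := mul_cf hr'
    rw [← hb] at m2
    have b1 : cf R (n + h) ∣ n + h := ⟨mn R (n + h), by rw [mul_comm, m1]⟩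
    have b2 : cf R (n + h) ∣ n' + h := ⟨mn R (n' + h), by rw [mul_comm, m2]⟩
    have hrp := hR _ (mn_mem hr).1
    have hrp' := hR _ (mn_mem hr').1
    have hap := hP _ hA.1
    rcases le_total n n' with hle | hle
    · exact uniq hδ hZ h0h h0Y hY hap.1 hap.2 hA.2 hA'.2 hrp.1 hrp.2 m1 b2 hd hI.1 hI'.2 hle
    · exact (uniq hδ hZ h0h h0Y hY hap.1 hap.2 hA'.2 hA.2 hrp'.1 hrp'.2 m2 b1 hd' hI'.1 hI.2
        hle).symm
  -- part (3)
  have cnt : ∀ h k : ℕ,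
      (∀ n ∈ Ed N δ P R cl h0 h1 h2 Q κ i j, (∃ r ∈ R, r ∣ n + h) ∧ bi Q (mn R (n + h)) = k) →
      ∀ n ∈ Ed N δ P R cl h0 h1 h2 Q κ i j, #((Ed N δ P R cl h0 h1 h2 Q κ i j).filter
        (fun n' => cf R (n' + h) = cf R (n + h))) ≤ Q ^ (k + 1) := by
    intro h k hex n hn
    have hcard : #(Icc 1 (Q ^ (k + 1))) = Q ^ (k + 1) := by rw [Nat.card_Icc]; omega
    rw [← hcard]
    refine Finset.card_le_card_of_injOn (fun n' => mn R (n' + h)) ?_ ?_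
    · intro n' hn'
      have hn'' := (mem_filter.1 (mem_coe.1 hn')).1
      obtain ⟨hr, hk⟩ := hex n' hn''
      have hp := (hR _ (mn_mem hr).1).1
      have := (blk _ hp.two_le).2
      rw [hk] at this
      exact mem_coe.2 (mem_Icc.2 ⟨hp.one_le, this⟩)
    · intro x hx y hy hxy
      have hx' := mem_filter.1 (mem_coe.1 hx)
      have hy' := mem_filter.1 (mem_coe.1 hy)
      have e1 := mul_cf (hex x hx'.1).1
      have e2 := mul_cf (hex y hy'.1).1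
      have hxy' : mn R (x + h) = mn R (y + h) := hxy
      rw [hx'.2, hxy'] at e1
      rw [hy'.2] at e2
      omega
  -- part (4)
  have img : ∀ h k : ℕ, h ≤ N →
      (∀ n ∈ Ed N δ P R cl h0 h1 h2 Q κ i j, (∃ r ∈ R, r ∣ n + h) ∧ bi Q (mn R (n + h)) = k) →
      #((Ed N δ P R cl h0 h1 h2 Q κ i j).image (fun n => cf R (n + h))) * Q ^ k ≤ 2 * N := by
    intro h k hhN hex
    have hQk : 0 < Q ^ k := Nat.pow_pos (by omega)
    have hsub : (Ed N δ P R cl h0 h1 h2 Q κ i j).image (fun n => cf R (n + h)) ⊆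
        Icc 1 (2 * N / Q ^ k) := by
      intro b hb
      obtain ⟨n, hn, rfl⟩ := mem_image.1 hb
      obtain ⟨hr, hk⟩ := hex n hn
      obtain ⟨hI, -⟩ := key n hn
      have hp := (hR _ (mn_mem hr).1).1
      have h3 := (blk _ hp.two_le).1
      rw [hk] at h3
      have m1 := mul_cf hr
      rw [mem_Icc]
      constructor
      · rw [Nat.one_le_iff_ne_zero]
        intro h0'
        rw [h0', mul_zero] at m1
        omega
      · rw [Nat.le_div_iff_mul_le hQk]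
        have : cf R (n + h) * Q ^ k ≤ cf R (n + h) * mn R (n + h) :=
          Nat.mul_le_mul_left _ h3.le
        have m2 : cf R (n + h) * mn R (n + h) = n + h := by rw [mul_comm, m1]
        omega
    have hc := card_le_card hsub
    have hcI : #(Icc 1 (2 * N / Q ^ k)) = 2 * N / Q ^ k := by rw [Nat.card_Icc, Nat.add_sub_cancel]
    rw [hcI] at hc
    exact (Nat.mul_le_mul_right _ hc).trans (Nat.div_mul_le_self _ _)
  have ex1 : ∀ n ∈ Ed N δ P R cl h0 h1 h2 Q κ i j,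
      (∃ r ∈ R, r ∣ n + h1) ∧ bi Q (mn R (n + h1)) = i := fun n hn =>
    ⟨(key n hn).2.2.2.1, (key n hn).2.2.2.2.2.2.2.1⟩
  have ex2 : ∀ n ∈ Ed N δ P R cl h0 h1 h2 Q κ i j,
      (∃ r ∈ R, r ∣ n + h2) ∧ bi Q (mn R (n + h2)) = j := fun n hn =>
    ⟨(key n hn).2.2.2.2.1, (key n hn).2.2.2.2.2.2.2.2⟩
  refine ⟨?_, inj h1 h01 h1Y fun n hn => (ex1 n hn).1, inj h2 h02 h2Y fun n hn => (ex2 n hn).1,
    cnt h1 i ex1, cnt h2 j ex2, img h1 i h1N ex1, img h2 j h2N ex2⟩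
  intro n hn
  obtain ⟨hI, hd, hp, hr1, hr2, hpp, hc, -, -⟩ := key n hn
  have hA := mn_mem hp
  refine ⟨mem_filter.2 ⟨hA.1, hc⟩, hA.2, hpp _ hA.1 _ hA.1 rfl, ?_⟩
  intro q hq hqn
  obtain ⟨hqP, hqc⟩ := mem_filter.1 hq
  by_contra hne
  apply hpp _ hqP _ hA.1 (hqc.trans hc.symm)
  exact Nat.Coprime.mul_dvd_of_dvd_of_dvd
    ((Nat.coprime_primes (hP q hqP).1 (hP _ hA.1).1).2 hne) hqn hA.2

end Pool.Agent.TAD
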