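import Pool.Agent.TAD.Targets

set_option autoImplicit false

open scoped Classical

noncomputable section

namespace Pool.Agent.TAD

open Finset MeasureTheory ProbabilityTheory Filter

/-- the primes of `S` up to `N + h0` -/
def AS_SN (S : Set ℕ) (N h0 : ℕ) : Finset ℕ :=
  (Icc 1 (N + h0)).filter (fun p => p.Prime ∧ p ∈ S)

/-- the bound fails at `N` for the twist `g` -/
def AS_Bad (ε : ℝ) (N h1 h2 : ℕ) (D g : ℕ → ℂ) : Prop :=
  ∃ u v : ArithmeticFunction ℂ, u.IsMultiplicative ∧ v.IsMultiplicative ∧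
    (∀ n, ‖u n‖ ≤ 1) ∧ (∀ n, ‖v n‖ ≤ 1) ∧
    ε * N < ‖∑ n ∈ Icc 1 N, D n * g n * u (n + h1) * v (n + h2)‖

theorem AS_tw (S : Set ℕ) (N h0 n : ℕ) (hn : n ∈ Icc 1 N) (e : ℕ → ℤ)
    (he : ∀ p, e p = 1 ∨ e p = -1) :
    ∏ p ∈ (n + h0).primeFactors.filter (fun p => p ∈ S), (e p : ℂ) ^ ((n + h0).factorization p) =
      tw ((AS_SN S N h0).filter (fun p => e p = -1)) (n + h0) := by
  obtain ⟨hn1, hn2⟩ := Finset.mem_Icc.1 hn
  have h1 : (n + h0).primeFactors.filter (fun p => p ∈ S) ⊆ AS_SN S N h0 := by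
    intro p hp
    obtain ⟨hp1, hp2⟩ := Finset.mem_filter.1 hp
    have hpp := Nat.prime_of_mem_primeFactors hp1
    have hpd := Nat.le_of_dvd (by omega) (Nat.dvd_of_mem_primeFactors hp1)
    refine Finset.mem_filter.2 ⟨Finset.mem_Icc.2 ⟨hpp.one_lt.le, by omega⟩, hpp, hp2⟩
  rw [Finset.prod_subset h1]
  · unfold tw
    rw [Finset.prod_filter]
    refine Finset.prod_congr rfl fun p _ => ?_
    rcases he p with h | h
    · rw [h, if_neg (by norm_num)]
      simp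
    · rw [h, if_pos rfl]
      simp
  · intro p hp hp'
    have hS := (Finset.mem_filter.1 hp).2
    have hf : (n + h0).factorization p = 0 := by
      by_contra hc
      apply hp'
      refine Finset.mem_filter.2 ⟨?_, hS.2⟩
      rw [← Nat.support_factorization]
      exact Finsupp.mem_support_iff.2 hc
    rw [hf, pow_zero]

theorem AS_prob {Ω : Type} [MeasurableSpace Ω] (μ : Measure Ω) [IsProbabilityMeasure μ]
    (e : ℕ → Ω → ℤ) (hi : iIndepFun e μ)
    (hp : ∀ p, μ {ω | e p ω = 1} = 1 / 2 ∧ μ {ω | e p ω = -1} = 1 / 2) (T U : Finset ℕ)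
    (hTU : T ⊆ U) :
    μ {ω | (∀ p, e p ω = 1 ∨ e p ω = -1) ∧ U.filter (fun p => e p ω = -1) = T} ≤
      ENNReal.ofReal ((1 / 2 : ℝ) ^ #U) := by
  let B : ℕ → Set ℤ := fun p => if p ∈ T then {-1} else {1}
  have h1 : {ω | (∀ p, e p ω = 1 ∨ e p ω = -1) ∧ U.filter (fun p => e p ω = -1) = T} ⊆
      ⋂ p ∈ U, e p ⁻¹' (B p) := by
    rintro ω ⟨h1, h2⟩
    simp only [Set.mem_iInter, Set.mem_preimage]
    intro p hpU
    by_cases hpT : p ∈ T
    · have h3 : e p ω = -1 := by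
        rw [← h2] at hpT
        exact (Finset.mem_filter.1 hpT).2
      simp [B, hpT, h3]
    · have h3 : e p ω = 1 := by
        rcases h1 p with h | h
        · exact h
        · exact absurd (h2 ▸ Finset.mem_filter.2 ⟨hpU, h⟩) hpT
      simp [B, hpT, h3]
  refine le_trans (measure_mono h1) ?_
  rw [hi.measure_inter_preimage_eq_mul U (sets := B) (fun p _ => MeasurableSet.of_discrete)]
  have h4 : ∀ p ∈ U, μ (e p ⁻¹' (B p)) = ENNReal.ofReal (1 / 2) := by
    intro p _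
    have e2 : ENNReal.ofReal (1 / 2) = 1 / 2 := by
      rw [ENNReal.ofReal_div_of_pos (by norm_num)]
      simp
    rw [e2]
    by_cases hpT : p ∈ T
    · have h5 := (hp p).2
      simp only [B, hpT, if_true]
      exact h5
    · have h5 := (hp p).1
      simp only [B, hpT, if_false]
      exact h5
  rw [Finset.prod_congr rfl h4, Finset.prod_const, ENNReal.ofReal_pow (by norm_num)]

theorem AS_event {Ω : Type} [MeasurableSpace Ω] (μ : Measure Ω) [IsProbabilityMeasure μ]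
    (e : ℕ → Ω → ℤ) (hi : iIndepFun e μ)
    (hp : ∀ p, μ {ω | e p ω = 1} = 1 / 2 ∧ μ {ω | e p ω = -1} = 1 / 2) (U : Finset ℕ)
    (Pr : Finset ℕ → Prop) (c : ℝ) (hc : (#(U.powerset.filter Pr) : ℝ) ≤ c * 2 ^ #U) :
    μ {ω | (∀ p, e p ω = 1 ∨ e p ω = -1) ∧ Pr (U.filter (fun p => e p ω = -1))} ≤
      ENNReal.ofReal c := by
  have h1 : {ω | (∀ p, e p ω = 1 ∨ e p ω = -1) ∧ Pr (U.filter (fun p => e p ω = -1))} ⊆
      ⋃ T ∈ U.powerset.filter Pr,
        {ω | (∀ p, e p ω = 1 ∨ e p ω = -1) ∧ U.filter (fun p => e p ω = -1) = T} := by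
    rintro ω ⟨h1, h2⟩
    simp only [Set.mem_iUnion]
    exact ⟨U.filter (fun p => e p ω = -1),
      Finset.mem_filter.2 ⟨Finset.mem_powerset.2 (Finset.filter_subset _ _), h2⟩, h1, rfl⟩
  refine le_trans (measure_mono h1) ?_
  refine le_trans (measure_biUnion_finset_le _ _) ?_
  have h2 : ∀ T ∈ U.powerset.filter Pr,
      μ {ω | (∀ p, e p ω = 1 ∨ e p ω = -1) ∧ U.filter (fun p => e p ω = -1) = T} ≤
        ENNReal.ofReal ((1 / 2 : ℝ) ^ #U) := fun T hT =>
    AS_prob μ e hi hp T U (Finset.mem_powerset.1 (Finset.mem_filter.1 hT).1)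
  refine le_trans (Finset.sum_le_sum h2) ?_
  rw [Finset.sum_const, nsmul_eq_mul, ← ENNReal.ofReal_natCast,
    ← ENNReal.ofReal_mul (Nat.cast_nonneg _)]
  refine ENNReal.ofReal_le_ofReal ?_
  have h3 : (0 : ℝ) < 2 ^ #U := by positivity
  calc (#(U.powerset.filter Pr) : ℝ) * (1 / 2) ^ #U
      ≤ (c * 2 ^ #U) * (1 / 2) ^ #U := by gcongr
    _ = c := by
      rw [one_div, inv_pow, mul_assoc, mul_inv_cancel₀ h3.ne', mul_one]

theorem AS_core (hM : T_MAIN) {Ω : Type} [MeasurableSpace Ω] (μ : Measure Ω)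
    [IsProbabilityMeasure μ] (e : ℕ → Ω → ℤ) (S : Set ℕ) (D : ℕ → ℕ → ℂ)
    (he : ∀ p, Measurable (e p)) (hi : iIndepFun e μ)
    (hp : ∀ p, μ {ω | e p ω = 1} = 1 / 2 ∧ μ {ω | e p ω = -1} = 1 / 2)
    (hD : ∀ N n, ‖D N n‖ ≤ 1)
    (hS : ∀ (C : ℕ) (A : ℝ), ∃ N1 : ℕ, ∀ N ≥ N1,
      A ≤ ∑ p ∈ (Icc 1 N).filter (fun p : ℕ => p.Prime ∧ p ∈ S ∧ (Real.log N) ^ C ≤ p),
        (1 / p : ℝ)) (h0 h1 h2 : ℕ) (h01 : h0 ≠ h1) (h02 : h0 ≠ h2) (ε : ℝ) (hε : 0 < ε) :
    ∀ᵐ ω ∂μ, ∃ N1 : ℕ, ∀ N ≥ N1, ¬ AS_Bad ε N h1 h2 (D N)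
      (fun n => ∏ p ∈ (n + h0).primeFactors.filter (fun p => p ∈ S),
        (e p ω : ℂ) ^ ((n + h0).factorization p)) := by
  obtain ⟨A, c, C, N0, hc, hmain⟩ := hM h0 h1 h2 ε h01 h02 hε
  obtain ⟨N1, hN1⟩ := hS (C + 3) A
  -- almost surely all signs are `1` or `-1`
  have hsign : ∀ᵐ ω ∂μ, ∀ p, e p ω = 1 ∨ e p ω = -1 := by
    rw [ae_all_iff]
    intro p
    have hm : MeasurableSet {ω | e p ω = 1 ∨ e p ω = -1} := by
      have : {ω | e p ω = 1 ∨ e p ω = -1} = e p ⁻¹' {1, -1} := by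
        ext ω
        simp
      rw [this]
      exact he p MeasurableSet.of_discrete
    have hm1 : MeasurableSet {ω | e p ω = -1} := by
      have : {ω | e p ω = -1} = e p ⁻¹' {-1} := by
        ext ω
        simp
      rw [this]
      exact he p MeasurableSet.of_discrete
    have hu : {ω | e p ω = 1 ∨ e p ω = -1} = {ω | e p ω = 1} ∪ {ω | e p ω = -1} := rfl
    have hone : μ {ω | e p ω = 1 ∨ e p ω = -1} = 1 := by
      rw [hu, measure_union _ hm1, (hp p).1, (hp p).2, ENNReal.add_halves]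
      rw [Set.disjoint_left]
      intro ω h3 h4
      have h3' : e p ω = 1 := h3
      have h4' : e p ω = -1 := h4
      rw [h3'] at h4'
      norm_num at h4'
    exact (prob_compl_eq_zero_iff hm).2 hone
  -- the events
  let E : ℕ → Set Ω := fun N => {ω | (∀ p, e p ω = 1 ∨ e p ω = -1) ∧
    AS_Bad ε N h1 h2 (D N) (fun n => tw ((AS_SN S N h0).filter (fun p => e p ω = -1)) (n + h0))}
  obtain ⟨N2, hN2⟩ : ∃ N2 : ℕ, ∀ N ≥ N2, 2 ≤ Real.log N ∧ 2 / c ≤ Real.log N := by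
    have ht : Tendsto (fun N : ℕ => Real.log N) atTop atTop :=
      Real.tendsto_log_atTop.comp tendsto_natCast_atTop_atTop
    have := (ht.eventually_ge_atTop 2).and (ht.eventually_ge_atTop (2 / c))
    exact eventually_atTop.1 this
  have hE : ∀ N ≥ max (max N0 N1) N2, μ (E N) ≤ ENNReal.ofReal (1 / ((N : ℝ) ^ 2)) := by
    intro N hN
    have g0 : N0 ≤ N := le_trans (le_trans (le_max_left _ _) (le_max_left _ _)) hN
    have g1 : N1 ≤ N := le_trans (le_trans (le_max_right _ _) (le_max_left _ _)) hN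
    obtain ⟨hL2, hLc⟩ := hN2 N (le_trans (le_max_right _ _) hN)
    set L : ℝ := Real.log N with hL
    set Y : ℕ := ⌈L ^ (C + 2)⌉₊ with hY
    have hL1 : 1 ≤ L := by linarith
    have hYlow : L ^ (C + 2) ≤ Y := Nat.le_ceil _
    have hYup : (Y : ℝ) ≤ L ^ (C + 3) := by
      have h3 := (Nat.ceil_lt_add_one (by positivity : (0 : ℝ) ≤ L ^ (C + 2))).le
      have h4 : (1 : ℝ) ≤ L ^ (C + 2) := one_le_pow₀ hL1
      calc (Y : ℝ) ≤ L ^ (C + 2) + 1 := h3
        _ ≤ L ^ (C + 2) * 2 := by linarith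
        _ ≤ L ^ (C + 2) * L := by gcongr
        _ = L ^ (C + 3) := by ring
    have hYC : L ^ C ≤ Y := le_trans (pow_le_pow_right₀ hL1 (by omega)) hYlow
    have hmass : A ≤ ∑ p ∈ (AS_SN S N h0).filter (fun p => Y ≤ p ∧ p ≤ N), (1 / p : ℝ) := by
      refine le_trans (hN1 N g1) (Finset.sum_le_sum_of_subset_of_nonneg ?_ ?_)
      · intro p hpp
        obtain ⟨h3, h4, h5, h6⟩ := Finset.mem_filter.1 hpp
        obtain ⟨h7, h8⟩ := Finset.mem_Icc.1 h3
        refine Finset.mem_filter.2 ⟨Finset.mem_filter.2 ⟨Finset.mem_Icc.2 ⟨h7, by omega⟩, h4, h5⟩,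
          ?_, h8⟩
        exact_mod_cast le_trans hYup h6
      · intro p _ _
        positivity
    have hb := hmain N Y (AS_SN S N h0) {D N} g0 hYC
      (fun p hpp => (Finset.mem_filter.1 hpp).2.1) hmass
      (fun D' hD' => by
        rw [Finset.mem_singleton] at hD'
        rw [hD']
        exact hD N) (by
        rw [Finset.card_singleton, Nat.cast_one]
        exact Real.one_le_exp (by positivity))
    have hb' : (#((AS_SN S N h0).powerset.filter (fun T => AS_Bad ε N h1 h2 (D N)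
        (fun n => tw T (n + h0)))) : ℝ) ≤ Real.exp (-(c * Y)) * 2 ^ #(AS_SN S N h0) := by
      refine le_trans ?_ hb
      have hsub : (AS_SN S N h0).powerset.filter (fun T => AS_Bad ε N h1 h2 (D N)
          (fun n => tw T (n + h0))) ⊆ (AS_SN S N h0).powerset.filter (fun T =>
          ∃ D' ∈ ({D N} : Finset (ℕ → ℂ)), ∃ u v : ArithmeticFunction ℂ, u.IsMultiplicative ∧
          v.IsMultiplicative ∧ (∀ n, ‖u n‖ ≤ 1) ∧ (∀ n, ‖v n‖ ≤ 1) ∧
          ε * N < ‖∑ n ∈ Icc 1 N, D' n * tw T (n + h0) * u (n + h1) * v (n + h2)‖) := by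
        intro T hT
        obtain ⟨h3, h4⟩ := Finset.mem_filter.1 hT
        exact Finset.mem_filter.2 ⟨h3, D N, Finset.mem_singleton_self _, h4⟩
      exact_mod_cast Finset.card_le_card hsub
    have hev := AS_event μ e hi hp (AS_SN S N h0)
      (fun T => AS_Bad ε N h1 h2 (D N) (fun n => tw T (n + h0))) _ hb'
    refine le_trans hev (ENNReal.ofReal_le_ofReal ?_)
    have hNpos : (0 : ℝ) < N := by
      have : N ≠ 0 := by
        rintro rfl
        rw [Nat.cast_zero, Real.log_zero] at hL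
        linarith
      positivity
    have h5 : 2 * L ≤ c * Y := by
      have h6 : L ^ 2 ≤ Y := le_trans (pow_le_pow_right₀ hL1 (by omega)) hYlow
      have h7 : 2 ≤ c * L := by
        rw [div_le_iff₀ hc] at hLc
        linarith
      nlinarith
    calc Real.exp (-(c * Y)) ≤ Real.exp (-(2 * L)) := Real.exp_le_exp.2 (by linarith)
      _ = 1 / ((N : ℝ) ^ 2) := by
        rw [Real.exp_neg, one_div]
        congr 1
        rw [hL, mul_comm, Real.exp_mul, Real.exp_log hNpos]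
        norm_cast
  -- Borel-Cantelli
  let M : ℕ := max (max N0 N1) N2 + 1
  have hsum : ∑' i, μ (E (i + M)) ≠ ⊤ := by
    have hs : Summable (fun i : ℕ => 1 / (((i + M : ℕ) : ℝ) ^ 2)) :=
      (summable_nat_add_iff M).2 (Real.summable_one_div_nat_pow.2 (by norm_num))
    refine ne_top_of_le_ne_top hs.tsum_ofReal_ne_top (ENNReal.tsum_le_tsum fun i => ?_)
    exact hE (i + M) (by simp only [M]; omega)
  have hBC := measure_limsup_atTop_eq_zero hsum
  have hae : ∀ᵐ ω ∂μ, ω ∉ limsup (fun i => E (i + M)) atTop := by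
    rw [ae_iff]
    simp only [not_not]
    exact hBC
  filter_upwards [hsign, hae] with ω hω1 hω2
  rw [mem_limsup_iff_frequently_mem, not_frequently, eventually_atTop] at hω2
  obtain ⟨K, hK⟩ := hω2
  refine ⟨K + M, fun N hN => ?_⟩
  intro hbad
  have h3 := hK (N - M) (by omega)
  have h4 : N - M + M = N := by omega
  rw [h4] at h3
  apply h3
  refine ⟨hω1, ?_⟩
  obtain ⟨u, v, a1, a2, a3, a4, a5⟩ := hbad
  refine ⟨u, v, a1, a2, a3, a4, ?_⟩
  refine lt_of_lt_of_eq a5 ?_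
  congr 1
  refine Finset.sum_congr rfl fun n hn => ?_
  simp only
  rw [AS_tw S N h0 n hn (fun p => e p ω) hω1]

theorem p_AS : T_MAIN → T_AS := by
  intro hM Ω _ μ _ e S D he hi hp hD hS
  have key : ∀ h0 h1 h2 k : ℕ, ∀ᵐ ω ∂μ, h0 ≠ h1 → h0 ≠ h2 → ∃ N1 : ℕ, ∀ N ≥ N1,
      ¬ AS_Bad (1 / ((k : ℝ) + 1)) N h1 h2 (D N)
      (fun n => ∏ p ∈ (n + h0).primeFactors.filter (fun p => p ∈ S),
        (e p ω : ℂ) ^ ((n + h0).factorization p)) := by
    intro h0 h1 h2 k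
    by_cases h01 : h0 = h1
    · exact Eventually.of_forall fun ω h _ => absurd h01 h
    by_cases h02 : h0 = h2
    · exact Eventually.of_forall fun ω _ h => absurd h02 h
    filter_upwards [AS_core hM μ e S D he hi hp hD hS h0 h1 h2 h01 h02 (1 / ((k : ℝ) + 1))
      (by positivity)] with ω hω _ _
    exact hω
  have key2 : ∀ᵐ ω ∂μ, ∀ h0 h1 h2 k : ℕ, h0 ≠ h1 → h0 ≠ h2 → ∃ N1 : ℕ, ∀ N ≥ N1,
      ¬ AS_Bad (1 / ((k : ℝ) + 1)) N h1 h2 (D N)
      (fun n => ∏ p ∈ (n + h0).primeFactors.filter (fun p => p ∈ S),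
        (e p ω : ℂ) ^ ((n + h0).factorization p)) := by
    rw [ae_all_iff]
    intro h0
    rw [ae_all_iff]
    intro h1
    rw [ae_all_iff]
    intro h2
    rw [ae_all_iff]
    intro k
    exact key h0 h1 h2 k
  filter_upwards [key2] with ω hω h0 h1 h2 h01 h02 ε hε
  obtain ⟨k, hk⟩ := exists_nat_one_div_lt hε
  obtain ⟨N1, hN1⟩ := hω h0 h1 h2 k h01 h02
  refine ⟨N1, fun N hN u v hu hv hu1 hv1 => ?_⟩
  by_contra hcon
  rw [not_le] at hcon
  apply hN1 N hN
  refine ⟨u, v, hu, hv, hu1, hv1, lt_of_le_of_lt ?_ hcon⟩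
  exact mul_le_mul_of_nonneg_right hk.le (Nat.cast_nonneg _)

end Pool.Agent.TAD
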