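import Mathlib

set_option autoImplicit false

/-!
# MP_f3f922_nt: random sign twists against two adversaries: definitions
-/

open scoped Classical

noncomputable section

namespace Pool.Agent.TAD

open Finset

/-- The sign pattern `T` (a set of primes) as a multiplicative function. -/
def tw (T : Finset ℕ) (m : ℕ) : ℂ := ∏ p ∈ T, (-1 : ℂ) ^ (m.factorization p)

/-- The least member of `P` which divides `m` (`0` if there is none). -/
def mn (P : Finset ℕ) (m : ℕ) : ℕ := sInf {p | p ∈ P ∧ p ∣ m}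

/-- The cofactor `m / mn R m`. -/
def cf (R : Finset ℕ) (m : ℕ) : ℕ := m / mn R m

/-- The index of the block `(Q ^ i, Q ^ (i + 1)]` which contains `r`. -/
def bi (Q r : ℕ) : ℕ := Nat.clog Q r - 1

/-- The good integers `n ≤ N`. -/
def Gd (N : ℕ) (δ : ℝ) (P R : Finset ℕ) (cl : ℕ → ℕ) (h0 h1 h2 : ℕ) : Finset ℕ :=
  (Icc 1 N).filter (fun n => δ * N ≤ n ∧ (∃ p ∈ P, p ∣ n + h0) ∧ (∃ r ∈ R, r ∣ n + h1) ∧
    (∃ r ∈ R, r ∣ n + h2) ∧ (∀ p ∈ P, ∀ p' ∈ P, cl p = cl p' → ¬ p * p' ∣ n + h0) ∧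
    (∀ r ∈ R, ¬ r * r ∣ n + h1) ∧ (∀ r ∈ R, ¬ r * r ∣ n + h2))

/-- The good integers in the class `κ` and in the blocks `i`, `j`. -/
def Ed (N : ℕ) (δ : ℝ) (P R : Finset ℕ) (cl : ℕ → ℕ) (h0 h1 h2 Q κ i j : ℕ) : Finset ℕ :=
  (Gd N δ P R cl h0 h1 h2).filter (fun n => cl (mn P (n + h0)) = κ ∧
    bi Q (mn R (n + h1)) = i ∧ bi Q (mn R (n + h2)) = j)

/-- `x` is bounded by `1`. -/
def Bd (x : ℕ → ℂ) : Prop := ∀ m, ‖x m‖ ≤ 1

end Pool.Agent.TAD
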