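import Pool.Agent.TAD.Targets2

set_option autoImplicit false

/-!
# MP_f3f922_nt: an explicit net of the closed unit disc
-/

open scoped Classical

noncomputable section

namespace Pool.Agent.TAD

open Finset

namespace GRID_

/-- Rounding towards `0`. -/
lemma round0 (m : ℕ) (hm : 1 ≤ m) (x : ℝ) (hx : |x| ≤ 1) :
    ∃ a : ℤ, -(m : ℤ) ≤ a ∧ a ≤ m ∧ |(a : ℝ) / m| ≤ |x| ∧ |x - (a : ℝ) / m| ≤ 1 / m := by
  have hm0 : (0 : ℝ) < m := by exact_mod_cast hm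
  obtain ⟨h1, h2⟩ := abs_le.mp hx
  by_cases h0 : 0 ≤ x
  · refine ⟨⌊(m : ℝ) * x⌋, ?_, ?_, ?_, ?_⟩
    · have : (0 : ℤ) ≤ ⌊(m : ℝ) * x⌋ := Int.floor_nonneg.mpr (by positivity)
      omega
    · have h3 : (⌊(m : ℝ) * x⌋ : ℝ) ≤ (m : ℝ) * x := Int.floor_le _
      have h4 : (⌊(m : ℝ) * x⌋ : ℝ) ≤ (m : ℝ) := by nlinarith
      exact_mod_cast h4
    · have h3 : (⌊(m : ℝ) * x⌋ : ℝ) ≤ (m : ℝ) * x := Int.floor_le _
      have h5 : (0 : ℝ) ≤ (⌊(m : ℝ) * x⌋ : ℝ) := by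
        exact_mod_cast Int.floor_nonneg.mpr (by positivity : (0 : ℝ) ≤ (m : ℝ) * x)
      rw [abs_of_nonneg (by positivity), abs_of_nonneg h0, div_le_iff₀ hm0]
      linarith
    · have h3 : (⌊(m : ℝ) * x⌋ : ℝ) ≤ (m : ℝ) * x := Int.floor_le _
      have h4 : (m : ℝ) * x < (⌊(m : ℝ) * x⌋ : ℝ) + 1 := Int.lt_floor_add_one _
      have h5 : x - (⌊(m : ℝ) * x⌋ : ℝ) / m = ((m : ℝ) * x - (⌊(m : ℝ) * x⌋ : ℝ)) / m := by
        field_simp
      rw [h5, abs_div, abs_of_pos hm0, abs_of_nonneg (by linarith)]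
      exact div_le_div_of_nonneg_right (by linarith) hm0.le
  · push Not at h0
    refine ⟨⌈(m : ℝ) * x⌉, ?_, ?_, ?_, ?_⟩
    · have h3 : (m : ℝ) * x ≤ (⌈(m : ℝ) * x⌉ : ℝ) := Int.le_ceil _
      have h4 : -(m : ℝ) ≤ (⌈(m : ℝ) * x⌉ : ℝ) := by nlinarith
      exact_mod_cast h4
    · have h5 : ⌈(m : ℝ) * x⌉ ≤ 0 := Int.ceil_nonpos.mpr (by nlinarith)
      omega
    · have h3 : (m : ℝ) * x ≤ (⌈(m : ℝ) * x⌉ : ℝ) := Int.le_ceil _
      have h5 : (⌈(m : ℝ) * x⌉ : ℝ) ≤ 0 := by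
        exact_mod_cast Int.ceil_nonpos.mpr (by nlinarith : (m : ℝ) * x ≤ 0)
      rw [abs_of_nonpos (div_nonpos_of_nonpos_of_nonneg h5 hm0.le), abs_of_neg h0, ← neg_div,
        div_le_iff₀ hm0]
      linarith
    · have h3 : (m : ℝ) * x ≤ (⌈(m : ℝ) * x⌉ : ℝ) := Int.le_ceil _
      have h4 : (⌈(m : ℝ) * x⌉ : ℝ) < (m : ℝ) * x + 1 := Int.ceil_lt_add_one _
      have h5 : x - (⌈(m : ℝ) * x⌉ : ℝ) / m = ((m : ℝ) * x - (⌈(m : ℝ) * x⌉ : ℝ)) / m := by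
        field_simp
      rw [h5, abs_div, abs_of_pos hm0, abs_of_nonpos (by linarith)]
      exact div_le_div_of_nonneg_right (by linarith) hm0.le

/-- The point `(a + b i) / m`. -/
def pt (m : ℕ) (q : ℤ × ℤ) : ℂ := ⟨(q.1 : ℝ) / m, (q.2 : ℝ) / m⟩

end GRID_

open GRID_

/-- GRID. -/
theorem p_GRID : T_GRID := by
  intro m hm
  have hm0 : (0 : ℝ) < m := by exact_mod_cast hm
  refine ⟨((Finset.Icc (-(m : ℤ)) m ×ˢ Finset.Icc (-(m : ℤ)) m).image (pt m)).filter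
    (fun z => ‖z‖ ≤ 1), ?_, ?_, ?_⟩
  · refine (Finset.card_filter_le _ _).trans (Finset.card_image_le.trans ?_)
    rw [Finset.card_product, Int.card_Icc]
    have : ((m : ℤ) + 1 - -(m : ℤ)).toNat = 2 * m + 1 := by omega
    rw [this, sq]
  · intro z hz
    exact (Finset.mem_filter.mp hz).2
  · intro z hz
    have hre : |z.re| ≤ 1 := (Complex.abs_re_le_norm z).trans hz
    have him : |z.im| ≤ 1 := (Complex.abs_im_le_norm z).trans hz
    obtain ⟨a, ha1, ha2, ha3, ha4⟩ := round0 m hm z.re hre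
    obtain ⟨b, hb1, hb2, hb3, hb4⟩ := round0 m hm z.im him
    refine ⟨pt m (a, b), ?_, ?_⟩
    · refine Finset.mem_filter.mpr ⟨Finset.mem_image.mpr ⟨(a, b), ?_, rfl⟩, ?_⟩
      · exact Finset.mem_product.mpr ⟨Finset.mem_Icc.mpr ⟨ha1, ha2⟩, Finset.mem_Icc.mpr ⟨hb1, hb2⟩⟩
      · refine le_trans ?_ hz
        have h1 : ‖pt m (a, b)‖ ^ 2 ≤ ‖z‖ ^ 2 := by
          rw [← Complex.normSq_eq_norm_sq, ← Complex.normSq_eq_norm_sq, Complex.normSq_apply,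
            Complex.normSq_apply]
          have h2 : ((a : ℝ) / m) ^ 2 ≤ z.re ^ 2 := sq_le_sq.mpr ha3
          have h3 : ((b : ℝ) / m) ^ 2 ≤ z.im ^ 2 := sq_le_sq.mpr hb3
          simp only [pt]
          nlinarith
        exact (sq_le_sq₀ (norm_nonneg _) (norm_nonneg _)).mp h1
    · refine (Complex.norm_le_abs_re_add_abs_im _).trans ?_
      have h1 : (z - pt m (a, b)).re = z.re - (a : ℝ) / m := by simp [pt]
      have h2 : (z - pt m (a, b)).im = z.im - (b : ℝ) / m := by simp [pt]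
      rw [h1, h2]
      have h3 : (2 : ℝ) / m = 1 / m + 1 / m := by ring
      rw [h3]
      exact add_le_add ha4 hb4

end Pool.Agent.TAD
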