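import Pool.Agent.TAD.Defs

set_option autoImplicit false

/-!
# MP_f3f922_nt: random sign twists against two adversaries: targets

Job `X` proves `theorem Pool.Agent.TAD.p_X : T_X` (or `T_A → T_B → T_X`, see the job) in
`Pool/Agent/TAD/X.lean`.
-/

open scoped Classical

noncomputable section

namespace Pool.Agent.TAD

open Finset

/-- GMAM.  PROOF.  Spectral theorem: `A = U diag(λ) U*`, `B = V diag(μ) V*`, `W = U* X V`.  Then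
`tr (X A^q X B^s) = ∑ i j, λ i ^ q * μ j ^ s * ‖W i j‖ ^ 2`, `tr (X X A^(q+s)) = ∑ i j, λ i ^
(q+s) ‖W i j‖^2`,
`tr (X X B^(q+s)) = ∑ i j, μ j ^ (q+s) * ‖W i j‖ ^ 2` (all by cyclicity and `X* = X`), and
`λ^q μ^s + λ^s μ^q ≤ λ^(q+s) + μ^(q+s)` since `(λ^q - μ^q) (λ^s - μ^s) ≥ 0` for real `λ`, `μ` when
`q`, `s` have the same parity (both odd: monotone; both even: functions of `|·|`). -/
def T_GMAM : Prop := ∀ (V : Type) [Fintype V] [DecidableEq V] (X A B : Matrix V V ℂ),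
  X.IsHermitian → A.IsHermitian → B.IsHermitian → ∀ q s : ℕ, Even (q + s) →
  (Matrix.trace (X * A ^ q * X * B ^ s)).re + (Matrix.trace (X * A ^ s * X * B ^ q)).re ≤
    (Matrix.trace (X * X * A ^ (q + s))).re + (Matrix.trace (X * X * B ^ (q + s))).re

/-- STEP.  PROOF.  Write `H T = ∑ a ∈ κ, F a T`, `m = 2 p + 1`.  For `a ∈ κ` the map
`T ↦ symmDiff T {a}` is an involution of `S.powerset`, and `H (T ∆ {a}) = H T - 2 F a T`.  So,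
with
`H' = H (T ∆ {a})`,
`∑_T tr (F a T * H^m) = 1/2 ∑_T (tr (F a T * H^m) + tr (F a (T ∆ a) * H'^m))
 = 1/2 ∑_T tr (F a T * (H^m - H'^m))`, and `H^m - H'^m = ∑_{q < m} H^q (H - H') H'^(m-1-q)`
(`Commute`-free telescoping, induction on `m`) `= 2 ∑_{q ≤ 2p} H^q F H'^(2p-q)`.  Hence
`∑_T tr (F H^m) = ∑_T ∑_{q ≤ 2p} tr (F H^q F H'^(2p-q))`, and pairing `q` with `2p - q` (GMAM with
`X = F`) this is `≤ (2p+1)/2 ∑_T tr (F F (H^(2p) + H'^(2p))) = (2p+1) ∑_T tr (F F H^(2p))` (the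
involution again, `F a (T ∆ a) F a (T ∆ a) = F a T F a T`).  Sum over `a ∈ κ`:
`tr (H^(2p+2)) = ∑_a tr (F a H^(2p+1))`, and
`tr ((∑_a F a F a) H^(2p)) = ∑_v dg T v * (H^(2p)) v v ≤ Δ tr (H^(2p))`, since the diagonal
entries
of `H^(2p) = (H^p)* H^p` are real and nonnegative. -/
def T_STEP : Prop := ∀ (V : Type) [Fintype V] [DecidableEq V] (S κ : Finset ℕ)
  (F : ℕ → Finset ℕ → Matrix V V ℂ) (dg : Finset ℕ → V → ℝ) (Δ : ℝ), κ ⊆ S → 0 ≤ Δ →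
  (∀ a ∈ κ, ∀ T ⊆ S, (F a T).IsHermitian) →
  (∀ a ∈ κ, ∀ T ⊆ S, F a (symmDiff T {a}) = - F a T) →
  (∀ a ∈ κ, ∀ a' ∈ κ, a ≠ a' → ∀ T ⊆ S, F a (symmDiff T {a'}) = F a T) →
  (∀ T ⊆ S, ∑ a ∈ κ, F a T * F a T = Matrix.diagonal (fun v => (dg T v : ℂ))) →
  (∀ T ⊆ S, ∀ v, dg T v ≤ Δ) → ∀ p : ℕ,
  ∑ T ∈ S.powerset, (Matrix.trace ((∑ a ∈ κ, F a T) ^ (2 * (p + 1)))).re ≤
    (2 * p + 1) * Δ * ∑ T ∈ S.powerset, (Matrix.trace ((∑ a ∈ κ, F a T) ^ (2 * p))).re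

/-- OPN.  PROOF.  Spectral theorem: `z* H z = ∑ i, λ i * ‖(U* z) i‖ ^ 2`, `∑ i, ‖(U* z) i‖ ^ 2 = ∑
v, ‖z v‖ ^ 2`,
`λ i ^ (2 p) ≤ ∑ i, λ i ^ (2 p) = tr (H ^ (2 p)) ≤ L ^ (2 p)`, so `|λ i| ≤ L`. -/
def T_OPN : Prop := ∀ (V : Type) [Fintype V] [DecidableEq V] (H : Matrix V V ℂ) (p : ℕ) (L : ℝ),
  H.IsHermitian → 1 ≤ p → 0 ≤ L → (Matrix.trace (H ^ (2 * p))).re ≤ L ^ (2 * p) →
  ∀ z : V → ℂ, (dotProduct (star z) (H.mulVec z)).re ≤ L * ∑ v, ‖z v‖ ^ 2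

/-- MEAN (from STEP, OPN).  PROOF.  If `E = ∅` take `Λ = 0`.  Let `B = E.image b`, `C = E.image
c`,
`V = B ⊕ C`, `M a T (β, γ) = ∑ n ∈ E, a n = a, b n = β, c n = γ, σ T n` (at most one `n`),
`F a T = fromBlocks 0 (M a T) (M a T)ᴴ 0`.  `F a T` is hermitian, changes sign under
`T ↦ T ∆ {a}` and is invariant under `T ↦ T ∆ {a'}`, `a' ∈ κ`, `a' ≠ a`.  `F a T * F a T` is
diagonal
(a row or column of `M a T` has at most one nonzero entry), with diagonal entries at most the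
number (`0` or `1`) of `n ∈ E` with `a n = a`, `b n = β` (resp. `c n = γ`), so
`∑ a ∈ κ, F a T * F a T` is diagonal with entries at most `Δ`.  STEP and induction on `p`:
`∑_T tr (H^(2p)) ≤ 2^|S| (2 p Δ)^p (|B| + |C|)` (`(2j+1) Δ ≤ 2 p Δ` for `j < p`).  Put
`Λ T = √(|B| |C|) * (tr (H^(2p)))^(1/(2p))` (real power; `tr (H^(2p)) ≥ 0`).  By OPN for
`z = (conj x * t, y / t)`, `t^2 = √(|C| / |B|)` [so `∑ ‖z v‖^2 ≤ t^2 |B| + |C| / t^2 = 2 √(|B|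
|C|)`], after multiplying
`x` by a phase: `2 * ‖∑_n σ T n x(b n) y(c n)‖ ≤ (tr H^(2p))^(1/(2p)) * 2 √(|B| |C|)`.  The mean:
`(2^-|S| ∑_T Λ T)^(2p) ≤ 2^-|S| ∑_T (Λ T)^(2p)` (`inner_le_nnorm_mul_nnorm` or
`Real.pow_arith_mean_le_arith_mean_pow`) `≤ (|B| |C|)^p (2 p Δ)^p 4^p`, so the mean of `Λ` is at
most
`√(|B| |C| 2 p Δ) * 2`. -/
def T_MEAN : Prop := ∀ (S κ E : Finset ℕ) (a b c : ℕ → ℕ) (σ : Finset ℕ → ℕ → ℂ) (p Δ : ℕ),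
  κ ⊆ S → 1 ≤ p → (∀ T ⊆ S, ∀ n ∈ E, ‖σ T n‖ ≤ 1) → (∀ n ∈ E, a n ∈ κ) →
  (∀ T ⊆ S, ∀ n ∈ E, ∀ a' ∈ κ, σ (symmDiff T {a'}) n = if a' = a n then - σ T n else σ T n) →
  (∀ n ∈ E, ∀ n' ∈ E, a n = a n' → b n = b n' → n = n') →
  (∀ n ∈ E, ∀ n' ∈ E, a n = a n' → c n = c n' → n = n') →
  (∀ n ∈ E, #(E.filter (fun n' => b n' = b n)) ≤ Δ) →
  (∀ n ∈ E, #(E.filter (fun n' => c n' = c n)) ≤ Δ) →
  #(E.image b) + #(E.image c) ≤ 4 ^ p →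
  ∃ Λ : Finset ℕ → ℝ, (∀ T ⊆ S, ∀ x y : ℕ → ℂ, Bd x → Bd y →
      ‖∑ n ∈ E, σ T n * x (b n) * y (c n)‖ ≤ Λ T) ∧
    ∑ T ∈ S.powerset, Λ T ≤
      2 ^ #S * (2 * Real.sqrt (2 * p * Δ * #(E.image b) * #(E.image c)))

/-- MCD (McDiarmid).  PROOF.  First, by induction on `S`, for all real `t`:
`∑ T ∈ S.powerset, exp (t (f T - m)) ≤ 2^|S| exp (t^2 ∑_{a ∈ S} C a ^ 2 / 8)`, `m` the mean of
`f`.
(`Finset.sum_powerset_insert`: for `S = insert a S'` put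
`g T = (f T + f (insert a T)) / 2`, `exp (t f T) + exp (t f (insert a T)) =
2 exp (t g T) cosh (t (f (insert a T) - f T) / 2) ≤ 2 exp (t g T) exp (t^2 C a ^ 2 / 8)`
by `Real.cosh_le_exp_half_sq`; `g` satisfies the hypotheses on `S'` and has the same mean.)  Then
Markov with `t = 4 τ / V`. -/
def T_MCD : Prop := ∀ (S : Finset ℕ) (f : Finset ℕ → ℝ) (C : ℕ → ℝ) (V τ m : ℝ),
  (∀ a ∈ S, ∀ T ⊆ S.erase a, |f (insert a T) - f T| ≤ C a) → ∑ a ∈ S, C a ^ 2 ≤ V → 0 < V →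
  0 ≤ τ → ∑ T ∈ S.powerset, f T ≤ 2 ^ #S * m →
  (#(S.powerset.filter (fun T => m + τ < f T)) : ℝ) ≤ 2 ^ #S * Real.exp (-(2 * τ ^ 2 / V))

/-- ONE (from MEAN, MCD).  PROOF.  Put `f T = sup over x y, Bd x, Bd y, of ‖∑ n ∈ E, w n * tw T (n
+ h0) *
x (b n) * y (c n)‖` (bounded by `#E`; `ciSup` over a subtype).  For `p' ∈ S` and
`T ⊆ S.erase p'` we have `tw (insert p' T) (n + h0) = tw T (n + h0)` unless `p' ∣ n + h0`, so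
`|f (insert p' T) - f T| ≤ 2 * #{n ∈ Icc 1 N | p' ∣ n + h0} ≤ 2 (N / p' + 1) ≤ 4 N / p'`
(`p' ≤ N`).  `∑_{p' ∈ S} (4 N / p')^2 ≤ 16 N^2 ∑_{k ≥ Y} 1 / k^2 ≤ 32 N^2 / Y`.  MEAN with
`σ T n = w n * tw T (n + h0)` gives `f T ≤ Λ T`, so the mean of `f` is at most
`2 √(2 p Δ |b(E)| |c(E)|) ≤ η N / 2` (the sign rule: for `a' ∈ κ`, `n ∈ E`,
`tw (T ∆ {a'}) (n + h0) = (-1)^(v_{a'}(n + h0)) tw T (n + h0)`, and the valuation is `1` if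
`a' = a n` and `0` otherwise).  MCD with `V = 32 N^2 / Y`, `τ = η N / 2`, `m = η N / 2`:
exponent `2 τ^2 / V = η^2 Y / 64`. -/
def T_ONE : Prop := ∀ (N Y h0 p Δ : ℕ) (S κ E : Finset ℕ) (a b c : ℕ → ℕ) (w : ℕ → ℂ) (η : ℝ),
  0 < η → 1 ≤ Y → 1 ≤ N → 1 ≤ p → (∀ q ∈ S, q.Prime ∧ Y ≤ q ∧ q ≤ N) → κ ⊆ S → E ⊆ Icc 1 N →
  (∀ n ∈ E, ‖w n‖ ≤ 1) →
  (∀ n ∈ E, a n ∈ κ ∧ a n ∣ n + h0 ∧ ¬ a n * a n ∣ n + h0 ∧ ∀ q ∈ κ, q ∣ n + h0 → q = a n) →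
  (∀ n ∈ E, ∀ n' ∈ E, a n = a n' → b n = b n' → n = n') →
  (∀ n ∈ E, ∀ n' ∈ E, a n = a n' → c n = c n' → n = n') →
  (∀ n ∈ E, #(E.filter (fun n' => b n' = b n)) ≤ Δ) →
  (∀ n ∈ E, #(E.filter (fun n' => c n' = c n)) ≤ Δ) →
  #(E.image b) + #(E.image c) ≤ 4 ^ p →
  2 * Real.sqrt (2 * p * Δ * #(E.image b) * #(E.image c)) ≤ η * N / 2 →
  (#(S.powerset.filter (fun T => ∃ x y : ℕ → ℂ, Bd x ∧ Bd y ∧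
    η * N < ‖∑ n ∈ E, w n * tw T (n + h0) * x (b n) * y (c n)‖)) : ℝ) ≤
      2 ^ #S * Real.exp (-(η ^ 2 * Y / 64))

/-- CLS.  PROOF.  `cl p = ⌊(∑_{q ∈ P, q < p} 1 / q) / θ⌋₊`, `J = ⌊M / θ⌋₊ + 1`.  If `p` is the
largest and `p₀` the
least element of `P` with class `k` then the sum over the class is at most
`s p - s p₀ + 1 / p ≤ θ + θ`, `s p = ∑_{q ∈ P, q < p} 1 / q`. -/
def T_CLS : Prop := ∀ (θ M : ℝ), 0 < θ → 0 ≤ M → ∃ J : ℕ, 1 ≤ J ∧ ∀ P : Finset ℕ,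
  (∀ p ∈ P, 1 ≤ p ∧ (1 / p : ℝ) ≤ θ) → ∑ p ∈ P, (1 / p : ℝ) ≤ M →
  ∃ cl : ℕ → ℕ, (∀ p ∈ P, cl p < J) ∧
    ∀ k, ∑ p ∈ P.filter (fun p => cl p = k), (1 / p : ℝ) ≤ 2 * θ

/-- NET.  PROOF.  The closed unit disc is compact: there is a finite nonempty set `G` of points of
it
such that each point of the disc has distance at most `δ` from `G`; `g = #G`.  The functions with
values in `G` on `R` and `0` outside `R` (image of `Fintype.piFinset` or `Finset.pi`). -/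
def T_NET : Prop := ∀ δ : ℝ, 0 < δ → ∃ g : ℕ, 1 ≤ g ∧ ∀ R : Finset ℕ,
  ∃ 𝒜 : Finset (ℕ → ℂ), #𝒜 ≤ g ^ #R ∧ (∀ α ∈ 𝒜, Bd α) ∧
    ∀ u : ℕ → ℂ, Bd u → ∃ α ∈ 𝒜, ∀ r ∈ R, ‖u r - α r‖ ≤ δ

/-- CNT.  PROOF.  A bad `n` satisfies one of: `n < δ N` (at most `δ N`); no `p ∈ P` divides
`n + h0`: by `Pool.Agent.EllRand.tk` (`Q = P`, `w = 1`, `p = 1`, `c = h0`, `M = N`), with `L' =
∑_P 1/p ≥ L ≥ 1`, at most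
`(3 L' + 1) N / L'^2 ≤ 4 N / L`; the same for `R`, `h1` and `R`, `h2`; `p p' ∣ n + h0` with `p`,
`p'`
in the same class: `≤ ∑ (N / (p p') + 1) ≤ 2 θ (L + 1) N + y^2` (`#P ≤ y`,
`Pool.Agent.EllRand.cnt_le`); `r^2 ∣ n + h1` (or `n + h2`): `∑_{r ∈ R} (N / r^2 + 1) ≤ N / Z + y`
each. -/
def T_CNT : Prop := ∀ (N y Z : ℕ) (δ θ L : ℝ) (P R : Finset ℕ) (cl : ℕ → ℕ) (h0 h1 h2 : ℕ),
  1 ≤ y → y ^ 2 ≤ N → 1 ≤ Z → 0 < δ → 0 < θ → 1 ≤ L → (∀ p ∈ P, p.Prime ∧ p ≤ y) →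
  (∀ r ∈ R, r.Prime ∧ r ≤ y ∧ Z < r) → L ≤ ∑ p ∈ P, (1 / p : ℝ) → ∑ p ∈ P, (1 / p : ℝ) ≤ L + 1 →
  L ≤ ∑ r ∈ R, (1 / r : ℝ) → (∀ k, ∑ p ∈ P.filter (fun p => cl p = k), (1 / p : ℝ) ≤ 2 * θ) →
  (#(Icc 1 N \ Gd N δ P R cl h0 h1 h2) : ℝ) ≤
    (δ + 12 / L + 2 * θ * (L + 1) + 2 / Z) * N + 3 * y ^ 2

/-- SPL.  PROOF.  `∑_{n ∈ Icc 1 N} = ∑_{Gd} + ∑_{bad}`, the latter is at most `ε / 4 * N`.  For `n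
∈ Gd`,
`r = mn R (n + h1) ∈ R` divides `n + h1` and `r^2` does not, so `u (n + h1) = u r * u (cf R (n +
h1))`
(`r` prime); the same for `v`.  Choose `α`, `β` for `u`, `v`; replacing `u r`, `v s` by `α r`, `β
s`
changes the sum over `Gd` by at most `2 * ε / 8 * N`.  So the new sum over `Gd` is larger than
`ε / 2 * N`.  Split it according to `(κ, i, j) ∈ range J ×ˢ range K ×ˢ range K`
(`Finset.sum_fiberwise_of_maps_to`). -/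
def T_SPL : Prop := ∀ (N J K Q : ℕ) (δ ε : ℝ) (P R : Finset ℕ) (cl : ℕ → ℕ) (h0 h1 h2 : ℕ)
  (𝒜 : Finset (ℕ → ℂ)) (F : ℕ → ℂ) (u v : ArithmeticFunction ℂ), 1 ≤ J → 1 ≤ K → 0 < ε → 1 ≤ N →
  (∀ r ∈ R, r.Prime ∧ bi Q r < K) → (∀ p ∈ P, cl p < J) →
  (#(Icc 1 N \ Gd N δ P R cl h0 h1 h2) : ℝ) ≤ ε / 4 * N → (∀ α ∈ 𝒜, Bd α) →
  (∀ u : ℕ → ℂ, Bd u → ∃ α ∈ 𝒜, ∀ r ∈ R, ‖u r - α r‖ ≤ ε / 8) → Bd F → u.IsMultiplicative →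
  v.IsMultiplicative → (∀ n, ‖u n‖ ≤ 1) → (∀ n, ‖v n‖ ≤ 1) →
  ε * N < ‖∑ n ∈ Icc 1 N, F n * u (n + h1) * v (n + h2)‖ →
  ∃ κ < J, ∃ i < K, ∃ j < K, ∃ α ∈ 𝒜, ∃ β ∈ 𝒜, ε / (2 * J * K ^ 2) * N <
    ‖∑ n ∈ Ed N δ P R cl h0 h1 h2 Q κ i j, F n * (α (mn R (n + h1)) * β (mn R (n + h2))) *
      u (cf R (n + h1)) * v (cf R (n + h2))‖

/-- STR.  PROOF.  See the docstring of the parts: for `n ∈ Ed`, `a = mn P (n + h0)`,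
`r = mn R (n + h1)`, `b = cf R (n + h1) = (n + h1) / r`.
(1) `a ∈ P`, `a ∣ n + h0`, `cl a = κ`; if `q ∈ P`, `cl q = κ`, `q ∣ n + h0`, `q ≠ a` then `q a ∣ n
+ h0`
(distinct primes), excluded by `Gd`; `a a ∣ n + h0` is excluded by `Gd`.
(2) `n`, `n'` with the same `a`, `b`: `a ∣ n - n'`, `b ∣ n - n'`; `gcd (a, b) = 1`, since `a ∣ b`
would give
`a ∣ n + h1`, `a ∣ h0 - h1`, but `0 < |h0 - h1| < Y ≤ a`; `a b ∣ n - n'`, and `a b ≥ Y (δ N / Z) ≥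
N` as
`b = (n + h1) / r ≥ δ N / Z`; so `n = n'`.
(3) `n + h1 = r b`, so for fixed `b` the map `n ↦ r ≤ Q^(i+1)` is injective: at most `Q^(i+1)`
elements.  (`bi Q r = i`, `1 < Q`, `2 ≤ r`: `Q^i < r ≤ Q^(i+1)`, `Nat.pow_lt_iff_lt_clog` etc.)
(4) `b < (N + h1) / Q^i ≤ 2 N / Q^i`, and `b ≥ 1`, so `#(image) * Q^i ≤ 2 N`. -/
def T_STR : Prop := ∀ (N Y Z Q : ℕ) (δ : ℝ) (P R : Finset ℕ) (cl : ℕ → ℕ) (h0 h1 h2 κ i j : ℕ),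
  1 < Q → 0 < δ → 1 ≤ N → h1 ≤ N → h2 ≤ N → h0 ≠ h1 → h0 ≠ h2 → h0 < Y → h1 < Y → h2 < Y →
  (Z : ℝ) ≤ δ * Y → (∀ p ∈ P, p.Prime ∧ Y ≤ p) → (∀ r ∈ R, r.Prime ∧ r ≤ Z) →
  (∀ n ∈ Ed N δ P R cl h0 h1 h2 Q κ i j,
    mn P (n + h0) ∈ P.filter (fun p => cl p = κ) ∧ mn P (n + h0) ∣ n + h0 ∧
    ¬ mn P (n + h0) * mn P (n + h0) ∣ n + h0 ∧
    ∀ q ∈ P.filter (fun p => cl p = κ), q ∣ n + h0 → q = mn P (n + h0)) ∧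
  (∀ n ∈ Ed N δ P R cl h0 h1 h2 Q κ i j, ∀ n' ∈ Ed N δ P R cl h0 h1 h2 Q κ i j,
    mn P (n + h0) = mn P (n' + h0) → cf R (n + h1) = cf R (n' + h1) → n = n') ∧
  (∀ n ∈ Ed N δ P R cl h0 h1 h2 Q κ i j, ∀ n' ∈ Ed N δ P R cl h0 h1 h2 Q κ i j,
    mn P (n + h0) = mn P (n' + h0) → cf R (n + h2) = cf R (n' + h2) → n = n') ∧
  (∀ n ∈ Ed N δ P R cl h0 h1 h2 Q κ i j, #((Ed N δ P R cl h0 h1 h2 Q κ i j).filter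
    (fun n' => cf R (n' + h1) = cf R (n + h1))) ≤ Q ^ (i + 1)) ∧
  (∀ n ∈ Ed N δ P R cl h0 h1 h2 Q κ i j, #((Ed N δ P R cl h0 h1 h2 Q κ i j).filter
    (fun n' => cf R (n' + h2) = cf R (n + h2))) ≤ Q ^ (j + 1)) ∧
  #((Ed N δ P R cl h0 h1 h2 Q κ i j).image (fun n => cf R (n + h1))) * Q ^ i ≤ 2 * N ∧
  #((Ed N δ P R cl h0 h1 h2 Q κ i j).image (fun n => cf R (n + h2))) * Q ^ j ≤ 2 * N

/-- FIX (from ONE, STR).  PROOF.  ONE with `a n = mn P (n + h0)`, `b n = cf R (n + h1)`,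
`c n = cf R (n + h2)`, `Δ = Q^(max i j + 1)`, `κ` the class, `p = l`.  If `Ed` is empty the set of
`T`
is empty.  Otherwise `4 ≤ i, j` since `Q^4 < r` for `r ∈ R`.  `#(E.image b) + #(E.image c) ≤ 4 N /
Q^4 ≤ N ≤ 4^l`
(`Q ≥ 2`), and `2 l Q^(max + 1) (2 N / Q^i) (2 N / Q^j) ≤ 8 N^2 Q^(2 - min) ≤ 8 N^2 / Q^2`, so
twice
the root is at most `6 N / Q ≤ η N / 2`. -/
def T_FIX : Prop := ∀ (N Y Z Q l : ℕ) (δ η : ℝ) (P R : Finset ℕ) (cl : ℕ → ℕ)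
  (h0 h1 h2 κ i j : ℕ) (w : ℕ → ℂ), 1 < Q → 0 < δ → 0 < η → 1 ≤ N → h1 ≤ N → h2 ≤ N → h0 ≠ h1 →
  h0 ≠ h2 → h0 < Y → h1 < Y → h2 < Y → (Z : ℝ) ≤ δ * Y → (∀ p ∈ P, p.Prime ∧ Y ≤ p ∧ p ≤ N) →
  (∀ r ∈ R, r.Prime ∧ Q ^ 4 < r ∧ r ≤ Z) → 1 ≤ l → N ≤ 2 ^ l → l ≤ Q → 12 / η ≤ Q → Bd w →
  (#(P.powerset.filter (fun T => ∃ x y : ℕ → ℂ, Bd x ∧ Bd y ∧
    η * N < ‖∑ n ∈ Ed N δ P R cl h0 h1 h2 Q κ i j, w n * tw T (n + h0) *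
      x (cf R (n + h1)) * y (cf R (n + h2))‖)) : ℝ) ≤
    2 ^ #P * Real.exp (-(η ^ 2 * Y / 64))

/-- PAR: the primes `r` and the parameters `l`, `Q`.  PROOF. 
`Pool.Agent.Elliott.sum_inv_blk_lower` gives `c₀`; `K ≥ 5` with
`c₀ log (K / 4) ≥ L`.  `l = Nat.clog 2 N`, `m = Nat.clog 4 l`, `Q = 4^m`, so `l ≤ Q < 4 l`,
`R = (Ico (4 m) (K m)).biUnion blk`: the primes in `(Q^4, Q^K]`. -/
def T_PAR : Prop := ∀ (L : ℝ), ∃ K : ℕ, 5 ≤ K ∧ ∀ N : ℕ, 4 ≤ N → ∃ (l Q : ℕ) (R : Finset ℕ),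
  1 ≤ l ∧ N ≤ 2 ^ l ∧ l ≤ Q ∧ 1 < Q ∧ (Q : ℝ) ≤ 16 * Real.log N ∧
  (∀ r ∈ R, r.Prime ∧ Q ^ 4 < r ∧ r ≤ Q ^ K) ∧ L ≤ ∑ r ∈ R, (1 / r : ℝ)

/-- MAIN0: the theorem for a set `P` of primes between `Y` and `N^(1/4)` of mass between `L` and
`L + 1`. -/
def T_MAIN0 : Prop := ∀ (h0 h1 h2 : ℕ) (ε : ℝ), h0 ≠ h1 → h0 ≠ h2 → 0 < ε →
  ∃ (L c : ℝ) (C N0 : ℕ), 1 ≤ L ∧ 0 < c ∧ ∀ (N Y : ℕ) (P : Finset ℕ) (𝒟 : Finset (ℕ → ℂ)), N0 ≤ N →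
  (Real.log N) ^ C ≤ Y → (∀ p ∈ P, p.Prime ∧ Y ≤ p ∧ p ^ 4 ≤ N) → L ≤ ∑ p ∈ P, (1 / p : ℝ) →
  ∑ p ∈ P, (1 / p : ℝ) ≤ L + 1 → (∀ D ∈ 𝒟, Bd D) → (#𝒟 : ℝ) ≤ Real.exp (c * Y) →
  (#(P.powerset.filter (fun T => ∃ D ∈ 𝒟, ∃ u v : ArithmeticFunction ℂ, u.IsMultiplicative ∧
    v.IsMultiplicative ∧ (∀ n, ‖u n‖ ≤ 1) ∧ (∀ n, ‖v n‖ ≤ 1) ∧
    ε * N < ‖∑ n ∈ Icc 1 N, D n * tw T (n + h0) * u (n + h1) * v (n + h2)‖)) : ℝ) ≤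
    Real.exp (-(c * Y)) * 2 ^ #P

/-- MAIN (from MAIN0 and `Pool.Agent.Ell.T_MERT`): the theorem for any finite set of primes with
sufficient mass in `[Y, N]`.  PROOF.  `A = L + 2 C + 1`, `C` from MERT: the primes in
`(N^(1/4), N]` have mass at most `2 C` (MERT for `y = √N` and `y = N^(1/4)`), so
`{p ∈ S | Y ≤ p, p^4 ≤ N}` has mass at least `L`; take a subset `P` of it of mass between `L` and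
`L + 1` (induction on the set, each prime has mass at most `1`).  The map
`T ↦ (T \ P, T ∩ P)` is a bijection of `S.powerset` with `(S \ P).powerset ×ˢ P.powerset`, and
`tw T m = tw (T \ P) m * tw (T ∩ P) m`; apply MAIN0 for each `T₂ = T \ P` with
`𝒟₂ = 𝒟.image (fun D n => D n * tw T₂ (n + h0))`. -/
def T_MAIN : Prop := ∀ (h0 h1 h2 : ℕ) (ε : ℝ), h0 ≠ h1 → h0 ≠ h2 → 0 < ε →
  ∃ (A c : ℝ) (C N0 : ℕ), 0 < c ∧ ∀ (N Y : ℕ) (S : Finset ℕ) (𝒟 : Finset (ℕ → ℂ)), N0 ≤ N →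
  (Real.log N) ^ C ≤ Y → (∀ p ∈ S, p.Prime) →
  A ≤ ∑ p ∈ S.filter (fun p => Y ≤ p ∧ p ≤ N), (1 / p : ℝ) → (∀ D ∈ 𝒟, Bd D) →
  (#𝒟 : ℝ) ≤ Real.exp (c * Y) →
  (#(S.powerset.filter (fun T => ∃ D ∈ 𝒟, ∃ u v : ArithmeticFunction ℂ, u.IsMultiplicative ∧
    v.IsMultiplicative ∧ (∀ n, ‖u n‖ ≤ 1) ∧ (∀ n, ‖v n‖ ≤ 1) ∧
    ε * N < ‖∑ n ∈ Icc 1 N, D n * tw T (n + h0) * u (n + h1) * v (n + h2)‖)) : ℝ) ≤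
    Real.exp (-(c * Y)) * 2 ^ #S

/-- AS (from MAIN): the almost sure form.  PROOF.  Fix `h0`, `h1`, `h2` and `ε = 1 / (k + 1)`
(countably many) and take
`A`, `c`, `C`, `N0` from MAIN.  `Y = ⌈(log N)^(C + 2)⌉₊ ≤ (log N)^(C + 3)`,
`S_N` = the primes of `S` up to `N + h0`; for large `N` its part in `[Y, N]` has mass at least `A`
by the
hypothesis for the exponent `C + 3`.  For almost all `ω` all `e p ω` are `1` or `-1`, and then the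
product is
`tw T (n + h0)` with `T = T ω = {p ∈ S_N | e p ω = -1}`.  For each `T ⊆ S_N`,
`μ {ω | T ω = T} = 2^(-#S_N)` (`iIndepFun.measure_inter_preimage_eq_mul`), so by MAIN with
`𝒟 = {D N}` the event that the bound fails at `N` has measure at most
`exp (- c Y) ≤ exp (- c (log N)^2)`, which is summable; Borel-Cantelli
(`MeasureTheory.measure_limsup_atTop_eq_zero`, outer measure, no measurability needed). -/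
def T_AS : Prop := ∀ (Ω : Type) [MeasurableSpace Ω] (μ : MeasureTheory.Measure Ω)
  [MeasureTheory.IsProbabilityMeasure μ] (e : ℕ → Ω → ℤ) (S : Set ℕ) (D : ℕ → ℕ → ℂ),
  (∀ p, Measurable (e p)) → ProbabilityTheory.iIndepFun e μ →
  (∀ p, μ {ω | e p ω = 1} = 1 / 2 ∧ μ {ω | e p ω = -1} = 1 / 2) → (∀ N n, ‖D N n‖ ≤ 1) →
  (∀ (C : ℕ) (A : ℝ), ∃ N1 : ℕ, ∀ N ≥ N1,
    A ≤ ∑ p ∈ (Icc 1 N).filter (fun p : ℕ => p.Prime ∧ p ∈ S ∧ (Real.log N) ^ C ≤ p),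
      (1 / p : ℝ)) →
  ∀ᵐ ω ∂μ, ∀ h0 h1 h2 : ℕ, h0 ≠ h1 → h0 ≠ h2 → ∀ ε : ℝ, 0 < ε → ∃ N1 : ℕ, ∀ N ≥ N1,
    ∀ u v : ArithmeticFunction ℂ, u.IsMultiplicative → v.IsMultiplicative →
    (∀ n, ‖u n‖ ≤ 1) → (∀ n, ‖v n‖ ≤ 1) →
    ‖∑ n ∈ Icc 1 N, D N n * (∏ p ∈ (n + h0).primeFactors.filter (fun p => p ∈ S),
      (e p ω : ℂ) ^ ((n + h0).factorization p)) * u (n + h1) * v (n + h2)‖ ≤ ε * N

end Pool.Agent.TAD
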