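import Pool.Agent.TAD.Targets

set_option autoImplicit false

/-!
# MP_f3f922_nt: random sign twists against two adversaries: further adversaries which are free on
the small primes only
-/

open scoped Classical

noncomputable section

namespace Pool.Agent.TAD

open Finset

/-- GRID.  PROOF.  The numbers `(a + b i) / m`, `a`, `b` integers of absolute value at most `m`,
which lie in the
closed unit disc.  Round the real and the imaginary part towards `0`. -/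
def T_GRID : Prop := ∀ m : ℕ, 1 ≤ m → ∃ G : Finset ℂ, #G ≤ (2 * m + 1) ^ 2 ∧ (∀ z ∈ G, ‖z‖ ≤ 1) ∧
  ∀ z : ℂ, ‖z‖ ≤ 1 → ∃ w ∈ G, ‖z - w‖ ≤ 2 / m

/-- NETK (from GRID).  PROOF.  Let `Y' = ⌊Y / (log N)^2⌋₊`, `M = N + ∑ hs`, `E = Nat.log 2 M + 1`
(so `e ≤ E` if
`p^e ∣ m`, `1 ≤ m ≤ M`, and `m` has at most `E` prime factors), `m₀ = ⌈2 k E / ε⌉₊ + 1`, `G` from
GRID.  For
`φ : Fin k × Fin (Y' + 1) × Fin (E + 1) → G` (extended by `0`) let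
`W_φ n = ∏ j, (∏ p ∈ (n + hs j).primeFactors, if p ≤ Y' then φ j p (v_p (n + hs j)) else g j (p ^
v_p (n + hs j)))`.
There are at most `(2 m₀ + 1)^(2 k (Y' + 1) (E + 1))` of them, which is at most `exp (c Y)` for
large `N`:
the exponent is `≤ C_k (Y / (log N)^2 + 1) (log N) (log log N + C) ≤ c Y` as `Y ≥ (log N)^3`. 
Given `f`
choose `φ j p e ∈ G` with `‖f j (p^e) - φ j p e‖ ≤ 2 / m₀`.  Since `f j m = ∏ p ∈ m.primeFactors,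
f j (p ^ v_p m)`
(`ArithmeticFunction.IsMultiplicative.multiplicative_factorization`) and all factors have norm at
most `1`, the difference of the products is at most the sum of the differences of the factors
`≤ k E * 2 / m₀ ≤ ε`.  (`Finset.norm_prod_sub_prod_le` or an induction.) -/
def T_NETK : Prop := ∀ (k : ℕ) (hs : Fin k → ℕ) (ε c : ℝ), 0 < ε → 0 < c → ∃ N0 : ℕ,
  ∀ (N Y : ℕ) (g : Fin k → ℕ → ℂ), N0 ≤ N → (Real.log N) ^ 3 ≤ Y → (∀ j n, ‖g j n‖ ≤ 1) →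
  ∃ 𝒲 : Finset (ℕ → ℂ), (#𝒲 : ℝ) ≤ Real.exp (c * Y) ∧ (∀ W ∈ 𝒲, Bd W) ∧
    ∀ f : Fin k → ArithmeticFunction ℂ, (∀ j, (f j).IsMultiplicative) → (∀ j n, ‖f j n‖ ≤ 1) →
    (∀ (j : Fin k) (p e : ℕ), p.Prime → (Y : ℝ) / (Real.log N) ^ 2 < p →
      f j (p ^ e) = g j (p ^ e)) →
    ∃ W ∈ 𝒲, ∀ n ∈ Icc 1 N, ‖∏ j, f j (n + hs j) - W n‖ ≤ ε

/-- MAINK (from MAIN, NETK).  PROOF.  MAIN for `ε / 2` gives `c₁`; `c = c₁ / 2`; NETK for `ε / 2`,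
`c`;
MAIN for `𝒟' = {D * W}`. -/
def T_MAINK : Prop := ∀ (k : ℕ) (h : Fin (k + 3) → ℕ) (ε : ℝ), h 0 ≠ h 1 → h 0 ≠ h 2 → 0 < ε →
  ∃ (A c : ℝ) (C N0 : ℕ), 0 < c ∧ ∀ (N Y : ℕ) (S : Finset ℕ) (𝒟 : Finset (ℕ → ℂ))
    (g : Fin k → ℕ → ℂ), N0 ≤ N → (Real.log N) ^ C ≤ Y → (∀ p ∈ S, p.Prime) →
  A ≤ ∑ p ∈ S.filter (fun p => Y ≤ p ∧ p ≤ N), (1 / p : ℝ) → (∀ D ∈ 𝒟, Bd D) →
  (#𝒟 : ℝ) ≤ Real.exp (c * Y) → (∀ j n, ‖g j n‖ ≤ 1) →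
  (#(S.powerset.filter (fun T => ∃ D ∈ 𝒟, ∃ f : Fin (k + 2) → ArithmeticFunction ℂ,
    (∀ j, (f j).IsMultiplicative) ∧ (∀ j n, ‖f j n‖ ≤ 1) ∧
    (∀ (j : Fin k) (p e : ℕ), p.Prime → (Y : ℝ) / (Real.log N) ^ 2 < p →
      f j.succ.succ (p ^ e) = g j (p ^ e)) ∧
    ε * N < ‖∑ n ∈ Icc 1 N, D n * tw T (n + h 0) * ∏ j, f j (n + h j.succ)‖)) : ℝ) ≤
    Real.exp (-(c * Y)) * 2 ^ #S

end Pool.Agent.TAD
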